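import Mathlib

set_option autoImplicit false

namespace Pool.Agent.H630R3.BZ

open scoped TensorProduct

/-- The Cartan matrix of `sl_3`. -/
def cartan (i j : Fin 2) : ℤ := if i = j then 2 else -1

/-- The invariant form on weights of `sl_3`, in fundamental-weight coordinates: `(ω_i, ω_j)` is the inverse Cartan
matrix, so that `(α_i, α_j) = cartan i j`. -/
noncomputable def form (m n : Fin 2 → ℤ) : ℝ :=
  (2 * m 0 * n 0 + m 0 * n 1 + m 1 * n 0 + 2 * m 1 * n 1) / 3

section Quantum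

/-- The operators by which the generators `E_i, F_i, K_i, K_i⁻¹` (`i = 1, 2`) act on a complex vector space. -/
structure QOps (V : Type) [AddCommGroup V] [Module ℂ V] where
  E : Fin 2 → Module.End ℂ V
  F : Fin 2 → Module.End ℂ V
  K : Fin 2 → Module.End ℂ V
  Kinv : Fin 2 → Module.End ℂ V

variable {V W : Type} [AddCommGroup V] [Module ℂ V] [AddCommGroup W] [Module ℂ W]

/-- The operators satisfy the defining relations of the Drinfeld–Jimbo algebra `U_q(sl_3)`, i.e. they make `V` a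
`U_q(sl_3)`-module. -/
structure IsQModule (q : ℝ) (M : QOps V) : Prop where
  K_Kinv : ∀ i, M.K i * M.Kinv i = 1
  Kinv_K : ∀ i, M.Kinv i * M.K i = 1
  K_K : ∀ i j, M.K i * M.K j = M.K j * M.K i
  K_E : ∀ i j, M.K i * M.E j = (q : ℂ) ^ cartan i j • (M.E j * M.K i)
  K_F : ∀ i j, M.K i * M.F j = (q : ℂ) ^ (-cartan i j) • (M.F j * M.K i)
  E_F : ∀ i j, M.E i * M.F j - M.F j * M.E i =
    if i = j then ((q : ℂ) - (q : ℂ)⁻¹)⁻¹ • (M.K i - M.Kinv i) else 0
  serre_E : ∀ i j, i ≠ j →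
    M.E i * M.E i * M.E j - ((q : ℂ) + (q : ℂ)⁻¹) • (M.E i * M.E j * M.E i) + M.E j * M.E i * M.E i = 0
  serre_F : ∀ i j, i ≠ j →
    M.F i * M.F i * M.F j - ((q : ℂ) + (q : ℂ)⁻¹) • (M.F i * M.F j * M.F i) + M.F j * M.F i * M.F i = 0

/-- `v` is a vector of weight `m` (type 1): `K_i v = q ^ (m_i) v`. -/
def QWeight (q : ℝ) (M : QOps V) (m : Fin 2 → ℤ) (v : V) : Prop := ∀ i, M.K i v = (q : ℂ) ^ m i • v

/-- `v` is a highest weight vector of weight `m`. -/
def QHighest (q : ℝ) (M : QOps V) (m : Fin 2 → ℤ) (v : V) : Prop :=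
  v ≠ 0 ∧ (∀ i, M.E i v = 0) ∧ QWeight q M m v

/-- `V` is nonzero and has no stable subspaces besides `0` and `V`. -/
def QSimple (M : QOps V) : Prop :=
  Nontrivial V ∧ ∀ U : Submodule ℂ V,
    (∀ i, ∀ u ∈ U, M.E i u ∈ U ∧ M.F i u ∈ U ∧ M.K i u ∈ U ∧ M.Kinv i u ∈ U) → U = ⊥ ∨ U = ⊤

/-- `V` is the simple finite-dimensional type 1 module `V(m)` of highest weight `m` over `U_q(sl_3)`. -/
def IsQSimpleOfHighestWeight (q : ℝ) (M : QOps V) (m : Fin 2 → ℤ) : Prop :=
  IsQModule q M ∧ FiniteDimensional ℂ V ∧ QSimple M ∧ ∃ v, QHighest q M m v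

/-- Tensor product of modules, for the coproduct `Δ(E_i) = E_i ⊗ K_i + 1 ⊗ E_i`,
`Δ(F_i) = F_i ⊗ 1 + K_i⁻¹ ⊗ F_i`, `Δ(K_i) = K_i ⊗ K_i`. -/
noncomputable def QOps.tensor (M : QOps V) (N : QOps W) : QOps (V ⊗[ℂ] W) where
  E i := TensorProduct.map (M.E i) (N.K i) + TensorProduct.map LinearMap.id (N.E i)
  F i := TensorProduct.map (M.F i) LinearMap.id + TensorProduct.map (M.Kinv i) (N.F i)
  K i := TensorProduct.map (M.K i) (N.K i)
  Kinv i := TensorProduct.map (M.Kinv i) (N.Kinv i)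

/-- The braiding `τ ∘ R` on `V ⊗ V` for `V = V(m)` simple of highest weight `m`, `R` the universal `R`-matrix of
`U_q(sl_3)` for the coproduct above. It is characterised by two properties: it commutes with the action of
`U_q(sl_3)` on `V ⊗ V`, and (as `R ∈ q ^ (·,·) (1 + ∑_{β > 0} U⁺_β ⊗ U⁻_{-β})`) it sends `v ⊗ w` to
`q ^ (m, n) w ⊗ v` when `v` is a highest weight vector of `V` and `w` has weight `n`. -/
structure IsBraiding (q : ℝ) (M : QOps V) (m : Fin 2 → ℤ) (R : Module.End ℂ (V ⊗[ℂ] V)) : Prop where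
  comm_E : ∀ i, R * (M.tensor M).E i = (M.tensor M).E i * R
  comm_F : ∀ i, R * (M.tensor M).F i = (M.tensor M).F i * R
  comm_K : ∀ i, R * (M.tensor M).K i = (M.tensor M).K i * R
  highest : ∀ (v w : V) (n : Fin 2 → ℤ), QHighest q M m v → QWeight q M n w →
    R (v ⊗ₜ[ℂ] w) = ((q ^ form m n : ℝ) : ℂ) • (w ⊗ₜ[ℂ] v)

/-- `S_q² V`: the sum of the eigenspaces of the braiding for positive eigenvalues. -/
noncomputable def qSym2 (R : Module.End ℂ (V ⊗[ℂ] V)) : Submodule ℂ (V ⊗[ℂ] V) :=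
  ⨆ (r : ℝ) (_ : 0 < r), R.eigenspace (r : ℂ)

/-- `Λ_q² V`: the sum of the eigenspaces of the braiding for negative eigenvalues. -/
noncomputable def qExt2 (R : Module.End ℂ (V ⊗[ℂ] V)) : Submodule ℂ (V ⊗[ℂ] V) :=
  ⨆ (r : ℝ) (_ : r < 0), R.eigenspace (r : ℂ)

/-- `S ⊗ V` inside `(V ⊗ V) ⊗ V`, for a subspace `S` of `V ⊗ V`. -/
noncomputable def leftPart (S : Submodule ℂ (V ⊗[ℂ] V)) : Submodule ℂ ((V ⊗[ℂ] V) ⊗[ℂ] V) :=
  LinearMap.range (LinearMap.rTensor V S.subtype)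

/-- `V ⊗ S` inside `(V ⊗ V) ⊗ V`, for a subspace `S` of `V ⊗ V`. -/
noncomputable def rightPart (S : Submodule ℂ (V ⊗[ℂ] V)) : Submodule ℂ ((V ⊗[ℂ] V) ⊗[ℂ] V) :=
  (LinearMap.range (LinearMap.lTensor V S.subtype)).comap (TensorProduct.assoc ℂ V V V).toLinearMap

/-- `S_q³ V = (S_q² V ⊗ V) ∩ (V ⊗ S_q² V)`. -/
noncomputable def qSym3 (R : Module.End ℂ (V ⊗[ℂ] V)) : Submodule ℂ ((V ⊗[ℂ] V) ⊗[ℂ] V) :=
  leftPart (qSym2 R) ⊓ rightPart (qSym2 R)

/-- `Λ_q³ V = (Λ_q² V ⊗ V) ∩ (V ⊗ Λ_q² V)`. -/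
noncomputable def qExt3 (R : Module.End ℂ (V ⊗[ℂ] V)) : Submodule ℂ ((V ⊗[ℂ] V) ⊗[ℂ] V) :=
  leftPart (qExt2 R) ⊓ rightPart (qExt2 R)

/-- The invariants of `U_q(sl_3)`: the isotypic component of the trivial module `V(0)`. -/
def qInv (M : QOps V) : Submodule ℂ V where
  carrier := {v | ∀ i, M.E i v = 0 ∧ M.F i v = 0 ∧ M.K i v = v}
  add_mem' := by
    intro a b ha hb i
    simp only [map_add, (ha i).1, (hb i).1, (ha i).2.1, (hb i).2.1, (ha i).2.2, (hb i).2.2, add_zero, and_self]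
  zero_mem' := by intro i; simp
  smul_mem' := by
    intro c a ha i
    simp only [map_smul, (ha i).1, (ha i).2.1, (ha i).2.2, smul_zero, and_self]

/-- The multiplicity of the trivial module `V(0)` in a stable subspace `S` of a semisimple type 1 module. -/
noncomputable def qMult0 (M : QOps V) (S : Submodule ℂ V) : ℕ := Module.finrank ℂ ↥(S ⊓ qInv M)

end Quantum

section Classical

/-- The operators by which the Chevalley generators `e_i, f_i, h_i` (`i = 1, 2`) act on a complex vector space. -/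
structure COps (V : Type) [AddCommGroup V] [Module ℂ V] where
  e : Fin 2 → Module.End ℂ V
  f : Fin 2 → Module.End ℂ V
  h : Fin 2 → Module.End ℂ V

variable {V W : Type} [AddCommGroup V] [Module ℂ V] [AddCommGroup W] [Module ℂ W]

/-- The operators satisfy the Chevalley–Serre relations, i.e. they make `V` an `sl_3`-module. -/
structure IsCModule (M : COps V) : Prop where
  h_h : ∀ i j, M.h i * M.h j = M.h j * M.h i
  h_e : ∀ i j, M.h i * M.e j - M.e j * M.h i = (cartan i j : ℂ) • M.e j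
  h_f : ∀ i j, M.h i * M.f j - M.f j * M.h i = (-cartan i j : ℂ) • M.f j
  e_f : ∀ i j, M.e i * M.f j - M.f j * M.e i = if i = j then M.h i else 0
  serre_e : ∀ i j, i ≠ j →
    M.e i * M.e i * M.e j - (2 : ℂ) • (M.e i * M.e j * M.e i) + M.e j * M.e i * M.e i = 0
  serre_f : ∀ i j, i ≠ j →
    M.f i * M.f i * M.f j - (2 : ℂ) • (M.f i * M.f j * M.f i) + M.f j * M.f i * M.f i = 0

/-- `v` is a highest weight vector of weight `m`. -/
def CHighest (M : COps V) (m : Fin 2 → ℤ) (v : V) : Prop :=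
  v ≠ 0 ∧ (∀ i, M.e i v = 0) ∧ ∀ i, M.h i v = (m i : ℂ) • v

/-- `V` is nonzero and has no stable subspaces besides `0` and `V`. -/
def CSimple (M : COps V) : Prop :=
  Nontrivial V ∧ ∀ U : Submodule ℂ V,
    (∀ i, ∀ u ∈ U, M.e i u ∈ U ∧ M.f i u ∈ U ∧ M.h i u ∈ U) → U = ⊥ ∨ U = ⊤

/-- `V` is the simple finite-dimensional `sl_3`-module `V(m)` of highest weight `m`. -/
def IsCSimpleOfHighestWeight (M : COps V) (m : Fin 2 → ℤ) : Prop :=
  IsCModule M ∧ FiniteDimensional ℂ V ∧ CSimple M ∧ ∃ v, CHighest M m v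

/-- Tensor product of `sl_3`-modules. -/
noncomputable def COps.tensor (M : COps V) (N : COps W) : COps (V ⊗[ℂ] W) where
  e i := TensorProduct.map (M.e i) LinearMap.id + TensorProduct.map LinearMap.id (N.e i)
  f i := TensorProduct.map (M.f i) LinearMap.id + TensorProduct.map LinearMap.id (N.f i)
  h i := TensorProduct.map (M.h i) LinearMap.id + TensorProduct.map LinearMap.id (N.h i)

/-- `S² V`: symmetric tensors. -/
noncomputable def cSym2 (V : Type) [AddCommGroup V] [Module ℂ V] : Submodule ℂ (V ⊗[ℂ] V) :=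
  Module.End.eigenspace (TensorProduct.comm ℂ V V).toLinearMap 1

/-- `Λ² V`: antisymmetric tensors. -/
noncomputable def cExt2 (V : Type) [AddCommGroup V] [Module ℂ V] : Submodule ℂ (V ⊗[ℂ] V) :=
  Module.End.eigenspace (TensorProduct.comm ℂ V V).toLinearMap (-1)

/-- The invariants of `sl_3`: the isotypic component of the trivial module `V(0)`. -/
def cInv (M : COps V) : Submodule ℂ V where
  carrier := {v | ∀ i, M.e i v = 0 ∧ M.f i v = 0 ∧ M.h i v = 0}
  add_mem' := by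
    intro a b ha hb i
    simp only [map_add, (ha i).1, (hb i).1, (ha i).2.1, (hb i).2.1, (ha i).2.2, (hb i).2.2, add_zero, and_self]
  zero_mem' := by intro i; simp
  smul_mem' := by
    intro c a ha i
    simp only [map_smul, (ha i).1, (ha i).2.1, (ha i).2.2, smul_zero, and_self]

/-- The multiplicity of the trivial module `V(0)` in a stable subspace `S`. -/
noncomputable def cMult0 (M : COps V) (S : Submodule ℂ V) : ℕ := Module.finrank ℂ ↥(S ⊓ cInv M)

/-- The multiplicity of `V(0)` in `S³_low V = [S² V ⊗ V] - inf {[S² V ⊗ V], [Λ² V ⊗ V]}`. -/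
noncomputable def symLow0 (M : COps V) : ℕ :=
  cMult0 ((M.tensor M).tensor M) (leftPart (cSym2 V)) -
    min (cMult0 ((M.tensor M).tensor M) (leftPart (cSym2 V)))
      (cMult0 ((M.tensor M).tensor M) (leftPart (cExt2 V)))

/-- The multiplicity of `V(0)` in `Λ³_low V = [Λ² V ⊗ V] - inf {[S² V ⊗ V], [Λ² V ⊗ V]}`. -/
noncomputable def extLow0 (M : COps V) : ℕ :=
  cMult0 ((M.tensor M).tensor M) (leftPart (cExt2 V)) -
    min (cMult0 ((M.tensor M).tensor M) (leftPart (cSym2 V)))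
      (cMult0 ((M.tensor M).tensor M) (leftPart (cExt2 V)))

end Classical

end Pool.Agent.H630R3.BZ
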