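import Mathlib
import Pool.Agent.H630R3.BZDefs

set_option autoImplicit false

namespace Pool.Agent.H630R3.BZ

open scoped TensorProduct

/-- the underlying space -/
abbrev V8 : Type := Fin 8 → ℂ

/-- the basis `x_θ, x_{α₁}, x_{α₂}, t₁, t₂, x_{-α₁}, x_{-α₂}, x_{-θ}` -/
noncomputable def bas : Module.Basis (Fin 8) ℂ V8 := Pi.basisFun ℂ (Fin 8)

noncomputable def x (i : Fin 8) : V8 := bas i

theorem bas_eq (i : Fin 8) : bas i = x i := rfl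

theorem all8 {P : Fin 8 → Prop} (h0 : P 0) (h1 : P 1) (h2 : P 2) (h3 : P 3) (h4 : P 4) (h5 : P 5) (h6 : P 6)
    (h7 : P 7) : ∀ i, P i := by
  intro i; fin_cases i <;> assumption

theorem all2 {P : Fin 2 → Prop} (h0 : P 0) (h1 : P 1) : ∀ i, P i := by
  intro i; fin_cases i <;> assumption

noncomputable def lin {W : Type} [AddCommGroup W] [Module ℂ W] (f : Fin 8 → W) : V8 →ₗ[ℂ] W := bas.constr ℂ f

theorem lin_x {W : Type} [AddCommGroup W] [Module ℂ W] (f : Fin 8 → W) (i : Fin 8) : lin f (x i) = f i := by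
  rw [lin, x, Module.Basis.constr_basis]

theorem lin_ext {W : Type} [AddCommGroup W] [Module ℂ W] {f g : V8 →ₗ[ℂ] W} (h : ∀ i, f (x i) = g (x i)) : f = g :=
  bas.ext h

theorem lin_ext2 {W : Type} [AddCommGroup W] [Module ℂ W] {f g : V8 ⊗[ℂ] V8 →ₗ[ℂ] W}
    (h : ∀ i j, f (x i ⊗ₜ x j) = g (x i ⊗ₜ x j)) : f = g := by
  apply (bas.tensorProduct bas).ext
  rintro ⟨i, j⟩
  rw [Module.Basis.tensorProduct_apply]
  exact h i j

noncomputable def E0 (c : ℂ) : V8 →ₗ[ℂ] V8 := lin ![0, 0, x 0, c • x 1, x 1, x 3, 0, x 6]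
noncomputable def E1 (c : ℂ) : V8 →ₗ[ℂ] V8 := lin ![0, x 0, 0, x 2, c • x 2, 0, x 4, x 5]
noncomputable def F0 (c : ℂ) : V8 →ₗ[ℂ] V8 := lin ![x 2, x 3, 0, c • x 5, x 5, 0, x 7, 0]
noncomputable def F1 (c : ℂ) : V8 →ₗ[ℂ] V8 := lin ![x 1, 0, x 4, x 6, c • x 6, x 7, 0, 0]
noncomputable def K0 (q p : ℂ) : V8 →ₗ[ℂ] V8 :=
  lin ![q • x 0, q ^ 2 • x 1, p • x 2, x 3, x 4, p ^ 2 • x 5, q • x 6, p • x 7]
noncomputable def K1 (q p : ℂ) : V8 →ₗ[ℂ] V8 :=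
  lin ![q • x 0, p • x 1, q ^ 2 • x 2, x 3, x 4, q • x 5, p ^ 2 • x 6, p • x 7]
noncomputable def H0 : V8 →ₗ[ℂ] V8 :=
  lin ![x 0, (2 : ℂ) • x 1, (-1 : ℂ) • x 2, 0, 0, (-2 : ℂ) • x 5, x 6, (-1 : ℂ) • x 7]
noncomputable def H1 : V8 →ₗ[ℂ] V8 :=
  lin ![x 0, (-1 : ℂ) • x 1, (2 : ℂ) • x 2, 0, 0, x 5, (-2 : ℂ) • x 6, (-1 : ℂ) • x 7]

variable (c q p : ℂ)

@[simp] theorem E0_0 : E0 c (x 0) = 0 := lin_x _ _
@[simp] theorem E0_1 : E0 c (x 1) = 0 := lin_x _ _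
@[simp] theorem E0_2 : E0 c (x 2) = x 0 := lin_x _ _
@[simp] theorem E0_3 : E0 c (x 3) = c • x 1 := lin_x _ _
@[simp] theorem E0_4 : E0 c (x 4) = x 1 := lin_x _ _
@[simp] theorem E0_5 : E0 c (x 5) = x 3 := lin_x _ _
@[simp] theorem E0_6 : E0 c (x 6) = 0 := lin_x _ _
@[simp] theorem E0_7 : E0 c (x 7) = x 6 := lin_x _ _
@[simp] theorem E1_0 : E1 c (x 0) = 0 := lin_x _ _
@[simp] theorem E1_1 : E1 c (x 1) = x 0 := lin_x _ _
@[simp] theorem E1_2 : E1 c (x 2) = 0 := lin_x _ _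
@[simp] theorem E1_3 : E1 c (x 3) = x 2 := lin_x _ _
@[simp] theorem E1_4 : E1 c (x 4) = c • x 2 := lin_x _ _
@[simp] theorem E1_5 : E1 c (x 5) = 0 := lin_x _ _
@[simp] theorem E1_6 : E1 c (x 6) = x 4 := lin_x _ _
@[simp] theorem E1_7 : E1 c (x 7) = x 5 := lin_x _ _
@[simp] theorem F0_0 : F0 c (x 0) = x 2 := lin_x _ _
@[simp] theorem F0_1 : F0 c (x 1) = x 3 := lin_x _ _
@[simp] theorem F0_2 : F0 c (x 2) = 0 := lin_x _ _
@[simp] theorem F0_3 : F0 c (x 3) = c • x 5 := lin_x _ _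
@[simp] theorem F0_4 : F0 c (x 4) = x 5 := lin_x _ _
@[simp] theorem F0_5 : F0 c (x 5) = 0 := lin_x _ _
@[simp] theorem F0_6 : F0 c (x 6) = x 7 := lin_x _ _
@[simp] theorem F0_7 : F0 c (x 7) = 0 := lin_x _ _
@[simp] theorem F1_0 : F1 c (x 0) = x 1 := lin_x _ _
@[simp] theorem F1_1 : F1 c (x 1) = 0 := lin_x _ _
@[simp] theorem F1_2 : F1 c (x 2) = x 4 := lin_x _ _
@[simp] theorem F1_3 : F1 c (x 3) = x 6 := lin_x _ _
@[simp] theorem F1_4 : F1 c (x 4) = c • x 6 := lin_x _ _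
@[simp] theorem F1_5 : F1 c (x 5) = x 7 := lin_x _ _
@[simp] theorem F1_6 : F1 c (x 6) = 0 := lin_x _ _
@[simp] theorem F1_7 : F1 c (x 7) = 0 := lin_x _ _
@[simp] theorem K0_0 : K0 q p (x 0) = q • x 0 := lin_x _ _
@[simp] theorem K0_1 : K0 q p (x 1) = q ^ 2 • x 1 := lin_x _ _
@[simp] theorem K0_2 : K0 q p (x 2) = p • x 2 := lin_x _ _
@[simp] theorem K0_3 : K0 q p (x 3) = x 3 := lin_x _ _
@[simp] theorem K0_4 : K0 q p (x 4) = x 4 := lin_x _ _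
@[simp] theorem K0_5 : K0 q p (x 5) = p ^ 2 • x 5 := lin_x _ _
@[simp] theorem K0_6 : K0 q p (x 6) = q • x 6 := lin_x _ _
@[simp] theorem K0_7 : K0 q p (x 7) = p • x 7 := lin_x _ _
@[simp] theorem K1_0 : K1 q p (x 0) = q • x 0 := lin_x _ _
@[simp] theorem K1_1 : K1 q p (x 1) = p • x 1 := lin_x _ _
@[simp] theorem K1_2 : K1 q p (x 2) = q ^ 2 • x 2 := lin_x _ _
@[simp] theorem K1_3 : K1 q p (x 3) = x 3 := lin_x _ _
@[simp] theorem K1_4 : K1 q p (x 4) = x 4 := lin_x _ _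
@[simp] theorem K1_5 : K1 q p (x 5) = q • x 5 := lin_x _ _
@[simp] theorem K1_6 : K1 q p (x 6) = p ^ 2 • x 6 := lin_x _ _
@[simp] theorem K1_7 : K1 q p (x 7) = p • x 7 := lin_x _ _
@[simp] theorem H0_0 : H0 (x 0) = x 0 := lin_x _ _
@[simp] theorem H0_1 : H0 (x 1) = (2 : ℂ) • x 1 := lin_x _ _
@[simp] theorem H0_2 : H0 (x 2) = (-1 : ℂ) • x 2 := lin_x _ _
@[simp] theorem H0_3 : H0 (x 3) = 0 := lin_x _ _
@[simp] theorem H0_4 : H0 (x 4) = 0 := lin_x _ _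
@[simp] theorem H0_5 : H0 (x 5) = (-2 : ℂ) • x 5 := lin_x _ _
@[simp] theorem H0_6 : H0 (x 6) = x 6 := lin_x _ _
@[simp] theorem H0_7 : H0 (x 7) = (-1 : ℂ) • x 7 := lin_x _ _
@[simp] theorem H1_0 : H1 (x 0) = x 0 := lin_x _ _
@[simp] theorem H1_1 : H1 (x 1) = (-1 : ℂ) • x 1 := lin_x _ _
@[simp] theorem H1_2 : H1 (x 2) = (2 : ℂ) • x 2 := lin_x _ _
@[simp] theorem H1_3 : H1 (x 3) = 0 := lin_x _ _
@[simp] theorem H1_4 : H1 (x 4) = 0 := lin_x _ _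
@[simp] theorem H1_5 : H1 (x 5) = x 5 := lin_x _ _
@[simp] theorem H1_6 : H1 (x 6) = (-2 : ℂ) • x 6 := lin_x _ _
@[simp] theorem H1_7 : H1 (x 7) = (-1 : ℂ) • x 7 := lin_x _ _

/-- the quantum adjoint module -/
noncomputable def qM (q p : ℂ) : QOps V8 where
  E := ![E0 (q + p), E1 (q + p)]
  F := ![F0 (q + p), F1 (q + p)]
  K := ![K0 q p, K1 q p]
  Kinv := ![K0 p q, K1 p q]

/-- the classical adjoint module -/
noncomputable def cM : COps V8 where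
  e := ![E0 2, E1 2]
  f := ![F0 2, F1 2]
  h := ![H0, H1]

end Pool.Agent.H630R3.BZ
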