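import Mathlib
import Pool.Agent.H630R3.BZOps

set_option autoImplicit false
set_option maxHeartbeats 4000000
set_option linter.unusedSimpArgs false
set_option linter.unusedVariables false

namespace Pool.Agent.H630R3.BZ

open scoped TensorProduct

section rel

variable (c q p : ℂ)

theorem K0_inv (h : q * p = 1) : K0 q p * K0 p q = 1 := by
  (refine lin_ext (all8 ?_ ?_ ?_ ?_ ?_ ?_ ?_ ?_) <;>
    simp only [Module.End.mul_apply, LinearMap.add_apply, LinearMap.sub_apply, LinearMap.smul_apply,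
      Module.End.one_apply, LinearMap.zero_apply, map_smul, map_zero, smul_zero, add_zero, zero_add, sub_zero,
      zero_sub, smul_smul,
      E0_0, E0_1, E0_2, E0_3, E0_4, E0_5, E0_6, E0_7, E1_0, E1_1, E1_2, E1_3, E1_4, E1_5, E1_6, E1_7,
      F0_0, F0_1, F0_2, F0_3, F0_4, F0_5, F0_6, F0_7, F1_0, F1_1, F1_2, F1_3, F1_4, F1_5, F1_6, F1_7,
      K0_0, K0_1, K0_2, K0_3, K0_4, K0_5, K0_6, K0_7, K1_0, K1_1, K1_2, K1_3, K1_4, K1_5, K1_6, K1_7,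
      H0_0, H0_1, H0_2, H0_3, H0_4, H0_5, H0_6, H0_7, H1_0, H1_1, H1_2, H1_3, H1_4, H1_5, H1_6, H1_7] <;>
    try (match_scalars <;> grind))
theorem K1_inv (h : q * p = 1) : K1 q p * K1 p q = 1 := by
  (refine lin_ext (all8 ?_ ?_ ?_ ?_ ?_ ?_ ?_ ?_) <;>
    simp only [Module.End.mul_apply, LinearMap.add_apply, LinearMap.sub_apply, LinearMap.smul_apply,
      Module.End.one_apply, LinearMap.zero_apply, map_smul, map_zero, smul_zero, add_zero, zero_add, sub_zero,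
      zero_sub, smul_smul,
      E0_0, E0_1, E0_2, E0_3, E0_4, E0_5, E0_6, E0_7, E1_0, E1_1, E1_2, E1_3, E1_4, E1_5, E1_6, E1_7,
      F0_0, F0_1, F0_2, F0_3, F0_4, F0_5, F0_6, F0_7, F1_0, F1_1, F1_2, F1_3, F1_4, F1_5, F1_6, F1_7,
      K0_0, K0_1, K0_2, K0_3, K0_4, K0_5, K0_6, K0_7, K1_0, K1_1, K1_2, K1_3, K1_4, K1_5, K1_6, K1_7,
      H0_0, H0_1, H0_2, H0_3, H0_4, H0_5, H0_6, H0_7, H1_0, H1_1, H1_2, H1_3, H1_4, H1_5, H1_6, H1_7] <;>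
    try (match_scalars <;> grind))
theorem K0K1 : K0 q p * K1 q p = K1 q p * K0 q p := by
  (refine lin_ext (all8 ?_ ?_ ?_ ?_ ?_ ?_ ?_ ?_) <;>
    simp only [Module.End.mul_apply, LinearMap.add_apply, LinearMap.sub_apply, LinearMap.smul_apply,
      Module.End.one_apply, LinearMap.zero_apply, map_smul, map_zero, smul_zero, add_zero, zero_add, sub_zero,
      zero_sub, smul_smul,
      E0_0, E0_1, E0_2, E0_3, E0_4, E0_5, E0_6, E0_7, E1_0, E1_1, E1_2, E1_3, E1_4, E1_5, E1_6, E1_7,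
      F0_0, F0_1, F0_2, F0_3, F0_4, F0_5, F0_6, F0_7, F1_0, F1_1, F1_2, F1_3, F1_4, F1_5, F1_6, F1_7,
      K0_0, K0_1, K0_2, K0_3, K0_4, K0_5, K0_6, K0_7, K1_0, K1_1, K1_2, K1_3, K1_4, K1_5, K1_6, K1_7,
      H0_0, H0_1, H0_2, H0_3, H0_4, H0_5, H0_6, H0_7, H1_0, H1_1, H1_2, H1_3, H1_4, H1_5, H1_6, H1_7] <;>
    try (match_scalars <;> grind))

theorem K0E0 (h : q * p = 1) : K0 q p * E0 c = q ^ 2 • (E0 c * K0 q p) := by
  (refine lin_ext (all8 ?_ ?_ ?_ ?_ ?_ ?_ ?_ ?_) <;>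
    simp only [Module.End.mul_apply, LinearMap.add_apply, LinearMap.sub_apply, LinearMap.smul_apply,
      Module.End.one_apply, LinearMap.zero_apply, map_smul, map_zero, smul_zero, add_zero, zero_add, sub_zero,
      zero_sub, smul_smul,
      E0_0, E0_1, E0_2, E0_3, E0_4, E0_5, E0_6, E0_7, E1_0, E1_1, E1_2, E1_3, E1_4, E1_5, E1_6, E1_7,
      F0_0, F0_1, F0_2, F0_3, F0_4, F0_5, F0_6, F0_7, F1_0, F1_1, F1_2, F1_3, F1_4, F1_5, F1_6, F1_7,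
      K0_0, K0_1, K0_2, K0_3, K0_4, K0_5, K0_6, K0_7, K1_0, K1_1, K1_2, K1_3, K1_4, K1_5, K1_6, K1_7,
      H0_0, H0_1, H0_2, H0_3, H0_4, H0_5, H0_6, H0_7, H1_0, H1_1, H1_2, H1_3, H1_4, H1_5, H1_6, H1_7] <;>
    try (match_scalars <;> grind))
theorem K0E1 (h : q * p = 1) : K0 q p * E1 c = p • (E1 c * K0 q p) := by
  (refine lin_ext (all8 ?_ ?_ ?_ ?_ ?_ ?_ ?_ ?_) <;>
    simp only [Module.End.mul_apply, LinearMap.add_apply, LinearMap.sub_apply, LinearMap.smul_apply,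
      Module.End.one_apply, LinearMap.zero_apply, map_smul, map_zero, smul_zero, add_zero, zero_add, sub_zero,
      zero_sub, smul_smul,
      E0_0, E0_1, E0_2, E0_3, E0_4, E0_5, E0_6, E0_7, E1_0, E1_1, E1_2, E1_3, E1_4, E1_5, E1_6, E1_7,
      F0_0, F0_1, F0_2, F0_3, F0_4, F0_5, F0_6, F0_7, F1_0, F1_1, F1_2, F1_3, F1_4, F1_5, F1_6, F1_7,
      K0_0, K0_1, K0_2, K0_3, K0_4, K0_5, K0_6, K0_7, K1_0, K1_1, K1_2, K1_3, K1_4, K1_5, K1_6, K1_7,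
      H0_0, H0_1, H0_2, H0_3, H0_4, H0_5, H0_6, H0_7, H1_0, H1_1, H1_2, H1_3, H1_4, H1_5, H1_6, H1_7] <;>
    try (match_scalars <;> grind))
theorem K1E0 (h : q * p = 1) : K1 q p * E0 c = p • (E0 c * K1 q p) := by
  (refine lin_ext (all8 ?_ ?_ ?_ ?_ ?_ ?_ ?_ ?_) <;>
    simp only [Module.End.mul_apply, LinearMap.add_apply, LinearMap.sub_apply, LinearMap.smul_apply,
      Module.End.one_apply, LinearMap.zero_apply, map_smul, map_zero, smul_zero, add_zero, zero_add, sub_zero,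
      zero_sub, smul_smul,
      E0_0, E0_1, E0_2, E0_3, E0_4, E0_5, E0_6, E0_7, E1_0, E1_1, E1_2, E1_3, E1_4, E1_5, E1_6, E1_7,
      F0_0, F0_1, F0_2, F0_3, F0_4, F0_5, F0_6, F0_7, F1_0, F1_1, F1_2, F1_3, F1_4, F1_5, F1_6, F1_7,
      K0_0, K0_1, K0_2, K0_3, K0_4, K0_5, K0_6, K0_7, K1_0, K1_1, K1_2, K1_3, K1_4, K1_5, K1_6, K1_7,
      H0_0, H0_1, H0_2, H0_3, H0_4, H0_5, H0_6, H0_7, H1_0, H1_1, H1_2, H1_3, H1_4, H1_5, H1_6, H1_7] <;>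
    try (match_scalars <;> grind))
theorem K1E1 (h : q * p = 1) : K1 q p * E1 c = q ^ 2 • (E1 c * K1 q p) := by
  (refine lin_ext (all8 ?_ ?_ ?_ ?_ ?_ ?_ ?_ ?_) <;>
    simp only [Module.End.mul_apply, LinearMap.add_apply, LinearMap.sub_apply, LinearMap.smul_apply,
      Module.End.one_apply, LinearMap.zero_apply, map_smul, map_zero, smul_zero, add_zero, zero_add, sub_zero,
      zero_sub, smul_smul,
      E0_0, E0_1, E0_2, E0_3, E0_4, E0_5, E0_6, E0_7, E1_0, E1_1, E1_2, E1_3, E1_4, E1_5, E1_6, E1_7,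
      F0_0, F0_1, F0_2, F0_3, F0_4, F0_5, F0_6, F0_7, F1_0, F1_1, F1_2, F1_3, F1_4, F1_5, F1_6, F1_7,
      K0_0, K0_1, K0_2, K0_3, K0_4, K0_5, K0_6, K0_7, K1_0, K1_1, K1_2, K1_3, K1_4, K1_5, K1_6, K1_7,
      H0_0, H0_1, H0_2, H0_3, H0_4, H0_5, H0_6, H0_7, H1_0, H1_1, H1_2, H1_3, H1_4, H1_5, H1_6, H1_7] <;>
    try (match_scalars <;> grind))
theorem K0F0 (h : q * p = 1) : K0 q p * F0 c = p ^ 2 • (F0 c * K0 q p) := by
  (refine lin_ext (all8 ?_ ?_ ?_ ?_ ?_ ?_ ?_ ?_) <;>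
    simp only [Module.End.mul_apply, LinearMap.add_apply, LinearMap.sub_apply, LinearMap.smul_apply,
      Module.End.one_apply, LinearMap.zero_apply, map_smul, map_zero, smul_zero, add_zero, zero_add, sub_zero,
      zero_sub, smul_smul,
      E0_0, E0_1, E0_2, E0_3, E0_4, E0_5, E0_6, E0_7, E1_0, E1_1, E1_2, E1_3, E1_4, E1_5, E1_6, E1_7,
      F0_0, F0_1, F0_2, F0_3, F0_4, F0_5, F0_6, F0_7, F1_0, F1_1, F1_2, F1_3, F1_4, F1_5, F1_6, F1_7,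
      K0_0, K0_1, K0_2, K0_3, K0_4, K0_5, K0_6, K0_7, K1_0, K1_1, K1_2, K1_3, K1_4, K1_5, K1_6, K1_7,
      H0_0, H0_1, H0_2, H0_3, H0_4, H0_5, H0_6, H0_7, H1_0, H1_1, H1_2, H1_3, H1_4, H1_5, H1_6, H1_7] <;>
    try (match_scalars <;> grind))
theorem K0F1 (h : q * p = 1) : K0 q p * F1 c = q • (F1 c * K0 q p) := by
  (refine lin_ext (all8 ?_ ?_ ?_ ?_ ?_ ?_ ?_ ?_) <;>
    simp only [Module.End.mul_apply, LinearMap.add_apply, LinearMap.sub_apply, LinearMap.smul_apply,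
      Module.End.one_apply, LinearMap.zero_apply, map_smul, map_zero, smul_zero, add_zero, zero_add, sub_zero,
      zero_sub, smul_smul,
      E0_0, E0_1, E0_2, E0_3, E0_4, E0_5, E0_6, E0_7, E1_0, E1_1, E1_2, E1_3, E1_4, E1_5, E1_6, E1_7,
      F0_0, F0_1, F0_2, F0_3, F0_4, F0_5, F0_6, F0_7, F1_0, F1_1, F1_2, F1_3, F1_4, F1_5, F1_6, F1_7,
      K0_0, K0_1, K0_2, K0_3, K0_4, K0_5, K0_6, K0_7, K1_0, K1_1, K1_2, K1_3, K1_4, K1_5, K1_6, K1_7,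
      H0_0, H0_1, H0_2, H0_3, H0_4, H0_5, H0_6, H0_7, H1_0, H1_1, H1_2, H1_3, H1_4, H1_5, H1_6, H1_7] <;>
    try (match_scalars <;> grind))
theorem K1F0 (h : q * p = 1) : K1 q p * F0 c = q • (F0 c * K1 q p) := by
  (refine lin_ext (all8 ?_ ?_ ?_ ?_ ?_ ?_ ?_ ?_) <;>
    simp only [Module.End.mul_apply, LinearMap.add_apply, LinearMap.sub_apply, LinearMap.smul_apply,
      Module.End.one_apply, LinearMap.zero_apply, map_smul, map_zero, smul_zero, add_zero, zero_add, sub_zero,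
      zero_sub, smul_smul,
      E0_0, E0_1, E0_2, E0_3, E0_4, E0_5, E0_6, E0_7, E1_0, E1_1, E1_2, E1_3, E1_4, E1_5, E1_6, E1_7,
      F0_0, F0_1, F0_2, F0_3, F0_4, F0_5, F0_6, F0_7, F1_0, F1_1, F1_2, F1_3, F1_4, F1_5, F1_6, F1_7,
      K0_0, K0_1, K0_2, K0_3, K0_4, K0_5, K0_6, K0_7, K1_0, K1_1, K1_2, K1_3, K1_4, K1_5, K1_6, K1_7,
      H0_0, H0_1, H0_2, H0_3, H0_4, H0_5, H0_6, H0_7, H1_0, H1_1, H1_2, H1_3, H1_4, H1_5, H1_6, H1_7] <;>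
    try (match_scalars <;> grind))
theorem K1F1 (h : q * p = 1) : K1 q p * F1 c = p ^ 2 • (F1 c * K1 q p) := by
  (refine lin_ext (all8 ?_ ?_ ?_ ?_ ?_ ?_ ?_ ?_) <;>
    simp only [Module.End.mul_apply, LinearMap.add_apply, LinearMap.sub_apply, LinearMap.smul_apply,
      Module.End.one_apply, LinearMap.zero_apply, map_smul, map_zero, smul_zero, add_zero, zero_add, sub_zero,
      zero_sub, smul_smul,
      E0_0, E0_1, E0_2, E0_3, E0_4, E0_5, E0_6, E0_7, E1_0, E1_1, E1_2, E1_3, E1_4, E1_5, E1_6, E1_7,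
      F0_0, F0_1, F0_2, F0_3, F0_4, F0_5, F0_6, F0_7, F1_0, F1_1, F1_2, F1_3, F1_4, F1_5, F1_6, F1_7,
      K0_0, K0_1, K0_2, K0_3, K0_4, K0_5, K0_6, K0_7, K1_0, K1_1, K1_2, K1_3, K1_4, K1_5, K1_6, K1_7,
      H0_0, H0_1, H0_2, H0_3, H0_4, H0_5, H0_6, H0_7, H1_0, H1_1, H1_2, H1_3, H1_4, H1_5, H1_6, H1_7] <;>
    try (match_scalars <;> grind))

theorem E0F0 (h : q * p = 1) : (q - p) • (E0 (q + p) * F0 (q + p) - F0 (q + p) * E0 (q + p)) = K0 q p - K0 p q := by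
  (refine lin_ext (all8 ?_ ?_ ?_ ?_ ?_ ?_ ?_ ?_) <;>
    simp only [Module.End.mul_apply, LinearMap.add_apply, LinearMap.sub_apply, LinearMap.smul_apply,
      Module.End.one_apply, LinearMap.zero_apply, map_smul, map_zero, smul_zero, add_zero, zero_add, sub_zero,
      zero_sub, smul_smul,
      E0_0, E0_1, E0_2, E0_3, E0_4, E0_5, E0_6, E0_7, E1_0, E1_1, E1_2, E1_3, E1_4, E1_5, E1_6, E1_7,
      F0_0, F0_1, F0_2, F0_3, F0_4, F0_5, F0_6, F0_7, F1_0, F1_1, F1_2, F1_3, F1_4, F1_5, F1_6, F1_7,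
      K0_0, K0_1, K0_2, K0_3, K0_4, K0_5, K0_6, K0_7, K1_0, K1_1, K1_2, K1_3, K1_4, K1_5, K1_6, K1_7,
      H0_0, H0_1, H0_2, H0_3, H0_4, H0_5, H0_6, H0_7, H1_0, H1_1, H1_2, H1_3, H1_4, H1_5, H1_6, H1_7] <;>
    try (match_scalars <;> grind))
theorem E1F1 (h : q * p = 1) : (q - p) • (E1 (q + p) * F1 (q + p) - F1 (q + p) * E1 (q + p)) = K1 q p - K1 p q := by
  (refine lin_ext (all8 ?_ ?_ ?_ ?_ ?_ ?_ ?_ ?_) <;>
    simp only [Module.End.mul_apply, LinearMap.add_apply, LinearMap.sub_apply, LinearMap.smul_apply,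
      Module.End.one_apply, LinearMap.zero_apply, map_smul, map_zero, smul_zero, add_zero, zero_add, sub_zero,
      zero_sub, smul_smul,
      E0_0, E0_1, E0_2, E0_3, E0_4, E0_5, E0_6, E0_7, E1_0, E1_1, E1_2, E1_3, E1_4, E1_5, E1_6, E1_7,
      F0_0, F0_1, F0_2, F0_3, F0_4, F0_5, F0_6, F0_7, F1_0, F1_1, F1_2, F1_3, F1_4, F1_5, F1_6, F1_7,
      K0_0, K0_1, K0_2, K0_3, K0_4, K0_5, K0_6, K0_7, K1_0, K1_1, K1_2, K1_3, K1_4, K1_5, K1_6, K1_7,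
      H0_0, H0_1, H0_2, H0_3, H0_4, H0_5, H0_6, H0_7, H1_0, H1_1, H1_2, H1_3, H1_4, H1_5, H1_6, H1_7] <;>
    try (match_scalars <;> grind))
theorem E0F1 : E0 c * F1 c - F1 c * E0 c = 0 := by
  (refine lin_ext (all8 ?_ ?_ ?_ ?_ ?_ ?_ ?_ ?_) <;>
    simp only [Module.End.mul_apply, LinearMap.add_apply, LinearMap.sub_apply, LinearMap.smul_apply,
      Module.End.one_apply, LinearMap.zero_apply, map_smul, map_zero, smul_zero, add_zero, zero_add, sub_zero,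
      zero_sub, smul_smul,
      E0_0, E0_1, E0_2, E0_3, E0_4, E0_5, E0_6, E0_7, E1_0, E1_1, E1_2, E1_3, E1_4, E1_5, E1_6, E1_7,
      F0_0, F0_1, F0_2, F0_3, F0_4, F0_5, F0_6, F0_7, F1_0, F1_1, F1_2, F1_3, F1_4, F1_5, F1_6, F1_7,
      K0_0, K0_1, K0_2, K0_3, K0_4, K0_5, K0_6, K0_7, K1_0, K1_1, K1_2, K1_3, K1_4, K1_5, K1_6, K1_7,
      H0_0, H0_1, H0_2, H0_3, H0_4, H0_5, H0_6, H0_7, H1_0, H1_1, H1_2, H1_3, H1_4, H1_5, H1_6, H1_7] <;>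
    try (match_scalars <;> grind))
theorem E1F0 : E1 c * F0 c - F0 c * E1 c = 0 := by
  (refine lin_ext (all8 ?_ ?_ ?_ ?_ ?_ ?_ ?_ ?_) <;>
    simp only [Module.End.mul_apply, LinearMap.add_apply, LinearMap.sub_apply, LinearMap.smul_apply,
      Module.End.one_apply, LinearMap.zero_apply, map_smul, map_zero, smul_zero, add_zero, zero_add, sub_zero,
      zero_sub, smul_smul,
      E0_0, E0_1, E0_2, E0_3, E0_4, E0_5, E0_6, E0_7, E1_0, E1_1, E1_2, E1_3, E1_4, E1_5, E1_6, E1_7,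
      F0_0, F0_1, F0_2, F0_3, F0_4, F0_5, F0_6, F0_7, F1_0, F1_1, F1_2, F1_3, F1_4, F1_5, F1_6, F1_7,
      K0_0, K0_1, K0_2, K0_3, K0_4, K0_5, K0_6, K0_7, K1_0, K1_1, K1_2, K1_3, K1_4, K1_5, K1_6, K1_7,
      H0_0, H0_1, H0_2, H0_3, H0_4, H0_5, H0_6, H0_7, H1_0, H1_1, H1_2, H1_3, H1_4, H1_5, H1_6, H1_7] <;>
    try (match_scalars <;> grind))

theorem serreE01 : E0 c * E0 c * E1 c - c • (E0 c * E1 c * E0 c) + E1 c * E0 c * E0 c = 0 := by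
  (refine lin_ext (all8 ?_ ?_ ?_ ?_ ?_ ?_ ?_ ?_) <;>
    simp only [Module.End.mul_apply, LinearMap.add_apply, LinearMap.sub_apply, LinearMap.smul_apply,
      Module.End.one_apply, LinearMap.zero_apply, map_smul, map_zero, smul_zero, add_zero, zero_add, sub_zero,
      zero_sub, smul_smul,
      E0_0, E0_1, E0_2, E0_3, E0_4, E0_5, E0_6, E0_7, E1_0, E1_1, E1_2, E1_3, E1_4, E1_5, E1_6, E1_7,
      F0_0, F0_1, F0_2, F0_3, F0_4, F0_5, F0_6, F0_7, F1_0, F1_1, F1_2, F1_3, F1_4, F1_5, F1_6, F1_7,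
      K0_0, K0_1, K0_2, K0_3, K0_4, K0_5, K0_6, K0_7, K1_0, K1_1, K1_2, K1_3, K1_4, K1_5, K1_6, K1_7,
      H0_0, H0_1, H0_2, H0_3, H0_4, H0_5, H0_6, H0_7, H1_0, H1_1, H1_2, H1_3, H1_4, H1_5, H1_6, H1_7] <;>
    try (match_scalars <;> grind))
theorem serreE10 : E1 c * E1 c * E0 c - c • (E1 c * E0 c * E1 c) + E0 c * E1 c * E1 c = 0 := by
  (refine lin_ext (all8 ?_ ?_ ?_ ?_ ?_ ?_ ?_ ?_) <;>
    simp only [Module.End.mul_apply, LinearMap.add_apply, LinearMap.sub_apply, LinearMap.smul_apply,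
      Module.End.one_apply, LinearMap.zero_apply, map_smul, map_zero, smul_zero, add_zero, zero_add, sub_zero,
      zero_sub, smul_smul,
      E0_0, E0_1, E0_2, E0_3, E0_4, E0_5, E0_6, E0_7, E1_0, E1_1, E1_2, E1_3, E1_4, E1_5, E1_6, E1_7,
      F0_0, F0_1, F0_2, F0_3, F0_4, F0_5, F0_6, F0_7, F1_0, F1_1, F1_2, F1_3, F1_4, F1_5, F1_6, F1_7,
      K0_0, K0_1, K0_2, K0_3, K0_4, K0_5, K0_6, K0_7, K1_0, K1_1, K1_2, K1_3, K1_4, K1_5, K1_6, K1_7,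
      H0_0, H0_1, H0_2, H0_3, H0_4, H0_5, H0_6, H0_7, H1_0, H1_1, H1_2, H1_3, H1_4, H1_5, H1_6, H1_7] <;>
    try (match_scalars <;> grind))
theorem serreF01 : F0 c * F0 c * F1 c - c • (F0 c * F1 c * F0 c) + F1 c * F0 c * F0 c = 0 := by
  (refine lin_ext (all8 ?_ ?_ ?_ ?_ ?_ ?_ ?_ ?_) <;>
    simp only [Module.End.mul_apply, LinearMap.add_apply, LinearMap.sub_apply, LinearMap.smul_apply,
      Module.End.one_apply, LinearMap.zero_apply, map_smul, map_zero, smul_zero, add_zero, zero_add, sub_zero,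
      zero_sub, smul_smul,
      E0_0, E0_1, E0_2, E0_3, E0_4, E0_5, E0_6, E0_7, E1_0, E1_1, E1_2, E1_3, E1_4, E1_5, E1_6, E1_7,
      F0_0, F0_1, F0_2, F0_3, F0_4, F0_5, F0_6, F0_7, F1_0, F1_1, F1_2, F1_3, F1_4, F1_5, F1_6, F1_7,
      K0_0, K0_1, K0_2, K0_3, K0_4, K0_5, K0_6, K0_7, K1_0, K1_1, K1_2, K1_3, K1_4, K1_5, K1_6, K1_7,
      H0_0, H0_1, H0_2, H0_3, H0_4, H0_5, H0_6, H0_7, H1_0, H1_1, H1_2, H1_3, H1_4, H1_5, H1_6, H1_7] <;>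
    try (match_scalars <;> grind))
theorem serreF10 : F1 c * F1 c * F0 c - c • (F1 c * F0 c * F1 c) + F0 c * F1 c * F1 c = 0 := by
  (refine lin_ext (all8 ?_ ?_ ?_ ?_ ?_ ?_ ?_ ?_) <;>
    simp only [Module.End.mul_apply, LinearMap.add_apply, LinearMap.sub_apply, LinearMap.smul_apply,
      Module.End.one_apply, LinearMap.zero_apply, map_smul, map_zero, smul_zero, add_zero, zero_add, sub_zero,
      zero_sub, smul_smul,
      E0_0, E0_1, E0_2, E0_3, E0_4, E0_5, E0_6, E0_7, E1_0, E1_1, E1_2, E1_3, E1_4, E1_5, E1_6, E1_7,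
      F0_0, F0_1, F0_2, F0_3, F0_4, F0_5, F0_6, F0_7, F1_0, F1_1, F1_2, F1_3, F1_4, F1_5, F1_6, F1_7,
      K0_0, K0_1, K0_2, K0_3, K0_4, K0_5, K0_6, K0_7, K1_0, K1_1, K1_2, K1_3, K1_4, K1_5, K1_6, K1_7,
      H0_0, H0_1, H0_2, H0_3, H0_4, H0_5, H0_6, H0_7, H1_0, H1_1, H1_2, H1_3, H1_4, H1_5, H1_6, H1_7] <;>
    try (match_scalars <;> grind))

theorem H0H1 : H0 * H1 = H1 * H0 := by
  (refine lin_ext (all8 ?_ ?_ ?_ ?_ ?_ ?_ ?_ ?_) <;>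
    simp only [Module.End.mul_apply, LinearMap.add_apply, LinearMap.sub_apply, LinearMap.smul_apply,
      Module.End.one_apply, LinearMap.zero_apply, map_smul, map_zero, smul_zero, add_zero, zero_add, sub_zero,
      zero_sub, smul_smul,
      E0_0, E0_1, E0_2, E0_3, E0_4, E0_5, E0_6, E0_7, E1_0, E1_1, E1_2, E1_3, E1_4, E1_5, E1_6, E1_7,
      F0_0, F0_1, F0_2, F0_3, F0_4, F0_5, F0_6, F0_7, F1_0, F1_1, F1_2, F1_3, F1_4, F1_5, F1_6, F1_7,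
      K0_0, K0_1, K0_2, K0_3, K0_4, K0_5, K0_6, K0_7, K1_0, K1_1, K1_2, K1_3, K1_4, K1_5, K1_6, K1_7,
      H0_0, H0_1, H0_2, H0_3, H0_4, H0_5, H0_6, H0_7, H1_0, H1_1, H1_2, H1_3, H1_4, H1_5, H1_6, H1_7] <;>
    try (match_scalars <;> grind))
theorem H0E0 : H0 * E0 c - E0 c * H0 = (2 : ℂ) • E0 c := by
  (refine lin_ext (all8 ?_ ?_ ?_ ?_ ?_ ?_ ?_ ?_) <;>
    simp only [Module.End.mul_apply, LinearMap.add_apply, LinearMap.sub_apply, LinearMap.smul_apply,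
      Module.End.one_apply, LinearMap.zero_apply, map_smul, map_zero, smul_zero, add_zero, zero_add, sub_zero,
      zero_sub, smul_smul,
      E0_0, E0_1, E0_2, E0_3, E0_4, E0_5, E0_6, E0_7, E1_0, E1_1, E1_2, E1_3, E1_4, E1_5, E1_6, E1_7,
      F0_0, F0_1, F0_2, F0_3, F0_4, F0_5, F0_6, F0_7, F1_0, F1_1, F1_2, F1_3, F1_4, F1_5, F1_6, F1_7,
      K0_0, K0_1, K0_2, K0_3, K0_4, K0_5, K0_6, K0_7, K1_0, K1_1, K1_2, K1_3, K1_4, K1_5, K1_6, K1_7,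
      H0_0, H0_1, H0_2, H0_3, H0_4, H0_5, H0_6, H0_7, H1_0, H1_1, H1_2, H1_3, H1_4, H1_5, H1_6, H1_7] <;>
    try (match_scalars <;> grind))
theorem H0E1 : H0 * E1 c - E1 c * H0 = (-1 : ℂ) • E1 c := by
  (refine lin_ext (all8 ?_ ?_ ?_ ?_ ?_ ?_ ?_ ?_) <;>
    simp only [Module.End.mul_apply, LinearMap.add_apply, LinearMap.sub_apply, LinearMap.smul_apply,
      Module.End.one_apply, LinearMap.zero_apply, map_smul, map_zero, smul_zero, add_zero, zero_add, sub_zero,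
      zero_sub, smul_smul,
      E0_0, E0_1, E0_2, E0_3, E0_4, E0_5, E0_6, E0_7, E1_0, E1_1, E1_2, E1_3, E1_4, E1_5, E1_6, E1_7,
      F0_0, F0_1, F0_2, F0_3, F0_4, F0_5, F0_6, F0_7, F1_0, F1_1, F1_2, F1_3, F1_4, F1_5, F1_6, F1_7,
      K0_0, K0_1, K0_2, K0_3, K0_4, K0_5, K0_6, K0_7, K1_0, K1_1, K1_2, K1_3, K1_4, K1_5, K1_6, K1_7,
      H0_0, H0_1, H0_2, H0_3, H0_4, H0_5, H0_6, H0_7, H1_0, H1_1, H1_2, H1_3, H1_4, H1_5, H1_6, H1_7] <;>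
    try (match_scalars <;> grind))
theorem H1E0 : H1 * E0 c - E0 c * H1 = (-1 : ℂ) • E0 c := by
  (refine lin_ext (all8 ?_ ?_ ?_ ?_ ?_ ?_ ?_ ?_) <;>
    simp only [Module.End.mul_apply, LinearMap.add_apply, LinearMap.sub_apply, LinearMap.smul_apply,
      Module.End.one_apply, LinearMap.zero_apply, map_smul, map_zero, smul_zero, add_zero, zero_add, sub_zero,
      zero_sub, smul_smul,
      E0_0, E0_1, E0_2, E0_3, E0_4, E0_5, E0_6, E0_7, E1_0, E1_1, E1_2, E1_3, E1_4, E1_5, E1_6, E1_7,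
      F0_0, F0_1, F0_2, F0_3, F0_4, F0_5, F0_6, F0_7, F1_0, F1_1, F1_2, F1_3, F1_4, F1_5, F1_6, F1_7,
      K0_0, K0_1, K0_2, K0_3, K0_4, K0_5, K0_6, K0_7, K1_0, K1_1, K1_2, K1_3, K1_4, K1_5, K1_6, K1_7,
      H0_0, H0_1, H0_2, H0_3, H0_4, H0_5, H0_6, H0_7, H1_0, H1_1, H1_2, H1_3, H1_4, H1_5, H1_6, H1_7] <;>
    try (match_scalars <;> grind))
theorem H1E1 : H1 * E1 c - E1 c * H1 = (2 : ℂ) • E1 c := by
  (refine lin_ext (all8 ?_ ?_ ?_ ?_ ?_ ?_ ?_ ?_) <;>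
    simp only [Module.End.mul_apply, LinearMap.add_apply, LinearMap.sub_apply, LinearMap.smul_apply,
      Module.End.one_apply, LinearMap.zero_apply, map_smul, map_zero, smul_zero, add_zero, zero_add, sub_zero,
      zero_sub, smul_smul,
      E0_0, E0_1, E0_2, E0_3, E0_4, E0_5, E0_6, E0_7, E1_0, E1_1, E1_2, E1_3, E1_4, E1_5, E1_6, E1_7,
      F0_0, F0_1, F0_2, F0_3, F0_4, F0_5, F0_6, F0_7, F1_0, F1_1, F1_2, F1_3, F1_4, F1_5, F1_6, F1_7,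
      K0_0, K0_1, K0_2, K0_3, K0_4, K0_5, K0_6, K0_7, K1_0, K1_1, K1_2, K1_3, K1_4, K1_5, K1_6, K1_7,
      H0_0, H0_1, H0_2, H0_3, H0_4, H0_5, H0_6, H0_7, H1_0, H1_1, H1_2, H1_3, H1_4, H1_5, H1_6, H1_7] <;>
    try (match_scalars <;> grind))
theorem H0F0 : H0 * F0 c - F0 c * H0 = (-2 : ℂ) • F0 c := by
  (refine lin_ext (all8 ?_ ?_ ?_ ?_ ?_ ?_ ?_ ?_) <;>
    simp only [Module.End.mul_apply, LinearMap.add_apply, LinearMap.sub_apply, LinearMap.smul_apply,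
      Module.End.one_apply, LinearMap.zero_apply, map_smul, map_zero, smul_zero, add_zero, zero_add, sub_zero,
      zero_sub, smul_smul,
      E0_0, E0_1, E0_2, E0_3, E0_4, E0_5, E0_6, E0_7, E1_0, E1_1, E1_2, E1_3, E1_4, E1_5, E1_6, E1_7,
      F0_0, F0_1, F0_2, F0_3, F0_4, F0_5, F0_6, F0_7, F1_0, F1_1, F1_2, F1_3, F1_4, F1_5, F1_6, F1_7,
      K0_0, K0_1, K0_2, K0_3, K0_4, K0_5, K0_6, K0_7, K1_0, K1_1, K1_2, K1_3, K1_4, K1_5, K1_6, K1_7,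
      H0_0, H0_1, H0_2, H0_3, H0_4, H0_5, H0_6, H0_7, H1_0, H1_1, H1_2, H1_3, H1_4, H1_5, H1_6, H1_7] <;>
    try (match_scalars <;> grind))
theorem H0F1 : H0 * F1 c - F1 c * H0 = (1 : ℂ) • F1 c := by
  (refine lin_ext (all8 ?_ ?_ ?_ ?_ ?_ ?_ ?_ ?_) <;>
    simp only [Module.End.mul_apply, LinearMap.add_apply, LinearMap.sub_apply, LinearMap.smul_apply,
      Module.End.one_apply, LinearMap.zero_apply, map_smul, map_zero, smul_zero, add_zero, zero_add, sub_zero,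
      zero_sub, smul_smul,
      E0_0, E0_1, E0_2, E0_3, E0_4, E0_5, E0_6, E0_7, E1_0, E1_1, E1_2, E1_3, E1_4, E1_5, E1_6, E1_7,
      F0_0, F0_1, F0_2, F0_3, F0_4, F0_5, F0_6, F0_7, F1_0, F1_1, F1_2, F1_3, F1_4, F1_5, F1_6, F1_7,
      K0_0, K0_1, K0_2, K0_3, K0_4, K0_5, K0_6, K0_7, K1_0, K1_1, K1_2, K1_3, K1_4, K1_5, K1_6, K1_7,
      H0_0, H0_1, H0_2, H0_3, H0_4, H0_5, H0_6, H0_7, H1_0, H1_1, H1_2, H1_3, H1_4, H1_5, H1_6, H1_7] <;>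
    try (match_scalars <;> grind))
theorem H1F0 : H1 * F0 c - F0 c * H1 = (1 : ℂ) • F0 c := by
  (refine lin_ext (all8 ?_ ?_ ?_ ?_ ?_ ?_ ?_ ?_) <;>
    simp only [Module.End.mul_apply, LinearMap.add_apply, LinearMap.sub_apply, LinearMap.smul_apply,
      Module.End.one_apply, LinearMap.zero_apply, map_smul, map_zero, smul_zero, add_zero, zero_add, sub_zero,
      zero_sub, smul_smul,
      E0_0, E0_1, E0_2, E0_3, E0_4, E0_5, E0_6, E0_7, E1_0, E1_1, E1_2, E1_3, E1_4, E1_5, E1_6, E1_7,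
      F0_0, F0_1, F0_2, F0_3, F0_4, F0_5, F0_6, F0_7, F1_0, F1_1, F1_2, F1_3, F1_4, F1_5, F1_6, F1_7,
      K0_0, K0_1, K0_2, K0_3, K0_4, K0_5, K0_6, K0_7, K1_0, K1_1, K1_2, K1_3, K1_4, K1_5, K1_6, K1_7,
      H0_0, H0_1, H0_2, H0_3, H0_4, H0_5, H0_6, H0_7, H1_0, H1_1, H1_2, H1_3, H1_4, H1_5, H1_6, H1_7] <;>
    try (match_scalars <;> grind))
theorem H1F1 : H1 * F1 c - F1 c * H1 = (-2 : ℂ) • F1 c := by
  (refine lin_ext (all8 ?_ ?_ ?_ ?_ ?_ ?_ ?_ ?_) <;>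
    simp only [Module.End.mul_apply, LinearMap.add_apply, LinearMap.sub_apply, LinearMap.smul_apply,
      Module.End.one_apply, LinearMap.zero_apply, map_smul, map_zero, smul_zero, add_zero, zero_add, sub_zero,
      zero_sub, smul_smul,
      E0_0, E0_1, E0_2, E0_3, E0_4, E0_5, E0_6, E0_7, E1_0, E1_1, E1_2, E1_3, E1_4, E1_5, E1_6, E1_7,
      F0_0, F0_1, F0_2, F0_3, F0_4, F0_5, F0_6, F0_7, F1_0, F1_1, F1_2, F1_3, F1_4, F1_5, F1_6, F1_7,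
      K0_0, K0_1, K0_2, K0_3, K0_4, K0_5, K0_6, K0_7, K1_0, K1_1, K1_2, K1_3, K1_4, K1_5, K1_6, K1_7,
      H0_0, H0_1, H0_2, H0_3, H0_4, H0_5, H0_6, H0_7, H1_0, H1_1, H1_2, H1_3, H1_4, H1_5, H1_6, H1_7] <;>
    try (match_scalars <;> grind))
theorem cE0F0 : E0 2 * F0 2 - F0 2 * E0 2 = H0 := by
  (refine lin_ext (all8 ?_ ?_ ?_ ?_ ?_ ?_ ?_ ?_) <;>
    simp only [Module.End.mul_apply, LinearMap.add_apply, LinearMap.sub_apply, LinearMap.smul_apply,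
      Module.End.one_apply, LinearMap.zero_apply, map_smul, map_zero, smul_zero, add_zero, zero_add, sub_zero,
      zero_sub, smul_smul,
      E0_0, E0_1, E0_2, E0_3, E0_4, E0_5, E0_6, E0_7, E1_0, E1_1, E1_2, E1_3, E1_4, E1_5, E1_6, E1_7,
      F0_0, F0_1, F0_2, F0_3, F0_4, F0_5, F0_6, F0_7, F1_0, F1_1, F1_2, F1_3, F1_4, F1_5, F1_6, F1_7,
      K0_0, K0_1, K0_2, K0_3, K0_4, K0_5, K0_6, K0_7, K1_0, K1_1, K1_2, K1_3, K1_4, K1_5, K1_6, K1_7,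
      H0_0, H0_1, H0_2, H0_3, H0_4, H0_5, H0_6, H0_7, H1_0, H1_1, H1_2, H1_3, H1_4, H1_5, H1_6, H1_7] <;>
    try (match_scalars <;> grind))
theorem cE1F1 : E1 2 * F1 2 - F1 2 * E1 2 = H1 := by
  (refine lin_ext (all8 ?_ ?_ ?_ ?_ ?_ ?_ ?_ ?_) <;>
    simp only [Module.End.mul_apply, LinearMap.add_apply, LinearMap.sub_apply, LinearMap.smul_apply,
      Module.End.one_apply, LinearMap.zero_apply, map_smul, map_zero, smul_zero, add_zero, zero_add, sub_zero,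
      zero_sub, smul_smul,
      E0_0, E0_1, E0_2, E0_3, E0_4, E0_5, E0_6, E0_7, E1_0, E1_1, E1_2, E1_3, E1_4, E1_5, E1_6, E1_7,
      F0_0, F0_1, F0_2, F0_3, F0_4, F0_5, F0_6, F0_7, F1_0, F1_1, F1_2, F1_3, F1_4, F1_5, F1_6, F1_7,
      K0_0, K0_1, K0_2, K0_3, K0_4, K0_5, K0_6, K0_7, K1_0, K1_1, K1_2, K1_3, K1_4, K1_5, K1_6, K1_7,
      H0_0, H0_1, H0_2, H0_3, H0_4, H0_5, H0_6, H0_7, H1_0, H1_1, H1_2, H1_3, H1_4, H1_5, H1_6, H1_7] <;>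
    try (match_scalars <;> grind))

end rel

theorem isQModule (q : ℝ) (hq0 : 0 < q) (hq1 : q ≠ 1) : IsQModule q (qM q (q : ℂ)⁻¹) := by
  have hqc : (q : ℂ) ≠ 0 := by exact_mod_cast hq0.ne'
  have h : (q : ℂ) * (q : ℂ)⁻¹ = 1 := mul_inv_cancel₀ hqc
  have h' : (q : ℂ)⁻¹ * (q : ℂ) = 1 := inv_mul_cancel₀ hqc
  have hne : (q : ℂ) - (q : ℂ)⁻¹ ≠ 0 := by
    intro h0
    have h1 : (q : ℂ) * (q : ℂ) = 1 := by linear_combination (q : ℂ) * h0 + h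
    have h2 : q * q = 1 := by exact_mod_cast h1
    have h3 : (q - 1) * (q + 1) = 0 := by linear_combination h2
    rcases mul_eq_zero.mp h3 with h4 | h4
    · exact hq1 (by linarith)
    · linarith
  have z2 : (q : ℂ) ^ (2 : ℤ) = (q : ℂ) ^ 2 := by norm_cast
  have zm2 : (q : ℂ) ^ (-2 : ℤ) = (q : ℂ)⁻¹ ^ 2 := by rw [zpow_neg, z2, inv_pow]
  have z1 : (q : ℂ) ^ (1 : ℤ) = (q : ℂ) := zpow_one _
  have zm1 : (q : ℂ) ^ (-1 : ℤ) = (q : ℂ)⁻¹ := zpow_neg_one _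
  have c00 : cartan 0 0 = 2 := rfl
  have c01 : cartan 0 1 = -1 := rfl
  have c10 : cartan 1 0 = -1 := rfl
  have c11 : cartan 1 1 = 2 := rfl
  refine ⟨?_, ?_, ?_, ?_, ?_, ?_, ?_, ?_⟩
  · exact all2 (K0_inv _ _ h) (K1_inv _ _ h)
  · exact all2 (K0_inv _ _ h') (K1_inv _ _ h')
  · exact all2 (all2 rfl (K0K1 _ _)) (all2 (K0K1 _ _).symm rfl)
  · refine all2 (all2 ?_ ?_) (all2 ?_ ?_)
    · rw [c00, z2]; exact K0E0 _ _ _ h
    · rw [c01, zm1]; exact K0E1 _ _ _ h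
    · rw [c10, zm1]; exact K1E0 _ _ _ h
    · rw [c11, z2]; exact K1E1 _ _ _ h
  · refine all2 (all2 ?_ ?_) (all2 ?_ ?_)
    · rw [c00, zm2]; exact K0F0 _ _ _ h
    · rw [c01, neg_neg, z1]; exact K0F1 _ _ _ h
    · rw [c10, neg_neg, z1]; exact K1F0 _ _ _ h
    · rw [c11, zm2]; exact K1F1 _ _ _ h
  · refine all2 (all2 ?_ ?_) (all2 ?_ ?_)
    · rw [if_pos rfl, eq_inv_smul_iff₀ hne]; exact E0F0 _ _ h
    · rw [if_neg (by decide)]; exact E0F1 _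
    · rw [if_neg (by decide)]; exact E1F0 _
    · rw [if_pos rfl, eq_inv_smul_iff₀ hne]; exact E1F1 _ _ h
  · refine all2 (all2 ?_ ?_) (all2 ?_ ?_) <;> intro hij
    · exact absurd rfl hij
    · exact serreE01 _
    · exact serreE10 _
    · exact absurd rfl hij
  · refine all2 (all2 ?_ ?_) (all2 ?_ ?_) <;> intro hij
    · exact absurd rfl hij
    · exact serreF01 _
    · exact serreF10 _
    · exact absurd rfl hij

theorem isCModule : IsCModule cM := by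
  have c00 : cartan 0 0 = 2 := rfl
  have c01 : cartan 0 1 = -1 := rfl
  have c10 : cartan 1 0 = -1 := rfl
  have c11 : cartan 1 1 = 2 := rfl
  have t2 : ((2 : ℤ) : ℂ) = 2 := by norm_num
  have tm1 : ((-1 : ℤ) : ℂ) = -1 := by norm_num
  refine ⟨?_, ?_, ?_, ?_, ?_, ?_⟩
  · exact all2 (all2 rfl H0H1) (all2 H0H1.symm rfl)
  · refine all2 (all2 ?_ ?_) (all2 ?_ ?_)
    · rw [c00, t2]; exact H0E0 _
    · rw [c01, tm1]; exact H0E1 _
    · rw [c10, tm1]; exact H1E0 _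
    · rw [c11, t2]; exact H1E1 _
  · refine all2 (all2 ?_ ?_) (all2 ?_ ?_)
    · rw [c00, t2]; exact H0F0 _
    · rw [c01, tm1, neg_neg]; exact H0F1 _
    · rw [c10, tm1, neg_neg]; exact H1F0 _
    · rw [c11, t2]; exact H1F1 _
  · refine all2 (all2 ?_ ?_) (all2 ?_ ?_)
    · rw [if_pos rfl]; exact cE0F0
    · rw [if_neg (by decide)]; exact E0F1 _
    · rw [if_neg (by decide)]; exact E1F0 _
    · rw [if_pos rfl]; exact cE1F1
  · refine all2 (all2 ?_ ?_) (all2 ?_ ?_) <;> intro hij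
    · exact absurd rfl hij
    · exact serreE01 _
    · exact serreE10 _
    · exact absurd rfl hij
  · refine all2 (all2 ?_ ?_) (all2 ?_ ?_) <;> intro hij
    · exact absurd rfl hij
    · exact serreF01 _
    · exact serreF10 _
    · exact absurd rfl hij

/-- a subspace stable under the raising and lowering operators is trivial -/
theorem stable_trivial (c : ℂ) (hc : c ≠ 0) (hc2 : c ^ 2 ≠ 1) (U : Submodule ℂ V8)
    (hE0 : ∀ u ∈ U, E0 c u ∈ U) (hE1 : ∀ u ∈ U, E1 c u ∈ U) (hF0 : ∀ u ∈ U, F0 c u ∈ U)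
    (hF1 : ∀ u ∈ U, F1 c u ∈ U) : U = ⊥ ∨ U = ⊤ := by
  by_cases hx0 : x 0 ∈ U
  · right
    have h1 : x 1 ∈ U := by simpa using hF1 _ hx0
    have h2 : x 2 ∈ U := by simpa using hF0 _ hx0
    have h3 : x 3 ∈ U := by simpa using hF0 _ h1
    have h4 : x 4 ∈ U := by simpa using hF1 _ h2
    have h5 : x 5 ∈ U := by simpa using hF0 _ h4
    have h6 : x 6 ∈ U := by simpa using hF1 _ h3
    have h7 : x 7 ∈ U := by simpa using hF0 _ h6
    rw [eq_top_iff, ← bas.span_eq, Submodule.span_le]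
    rintro _ ⟨i, rfl⟩
    exact all8 (P := fun i => bas i ∈ (U : Set V8)) hx0 h1 h2 h3 h4 h5 h6 h7 i
  · left
    rw [Submodule.eq_bot_iff]
    intro u hu
    obtain ⟨a, rfl⟩ : ∃ a : Fin 8 → ℂ, u = a 0 • x 0 + a 1 • x 1 + a 2 • x 2 + a 3 • x 3 + a 4 • x 4 + a 5 • x 5 +
        a 6 • x 6 + a 7 • x 7 := by
      refine ⟨fun i => bas.repr u i, ?_⟩
      conv_lhs => rw [← bas.sum_repr u]
      simp only [Fin.sum_univ_eight, bas_eq]
    have key : ∀ r : ℂ, r • x 0 ∈ U → r = 0 := by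
      intro r hr
      by_contra hr0
      exact hx0 ((U.smul_mem_iff hr0).mp hr)
    have a7 : a 7 = 0 := by
      have h := hE0 _ (hE1 _ (hE1 _ (hE0 _ hu)))
      simp only [map_add, map_smul, E0_0, E0_1, E0_2, E0_3, E0_4, E0_5, E0_6, E0_7, E1_0, E1_1, E1_2, E1_3, E1_4,
        E1_5, E1_6, E1_7, smul_zero, map_zero, zero_add, add_zero, smul_smul] at h
      have := key _ h
      exact (mul_eq_zero.mp this).resolve_right hc
    rw [a7] at hu ⊢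
    have a6 : a 6 = 0 := by
      have h := hE0 _ (hE1 _ (hE1 _ hu))
      simp only [map_add, map_smul, E0_0, E0_1, E0_2, E0_3, E0_4, E0_5, E0_6, E0_7, E1_0, E1_1, E1_2, E1_3, E1_4,
        E1_5, E1_6, E1_7, smul_zero, map_zero, zero_add, add_zero, smul_smul, zero_smul] at h
      have := key _ h
      exact (mul_eq_zero.mp this).resolve_right hc
    rw [a6] at hu ⊢
    have a5 : a 5 = 0 := by
      have h := hE1 _ (hE0 _ (hE0 _ hu))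
      simp only [map_add, map_smul, E0_0, E0_1, E0_2, E0_3, E0_4, E0_5, E0_6, E0_7, E1_0, E1_1, E1_2, E1_3, E1_4,
        E1_5, E1_6, E1_7, smul_zero, map_zero, zero_add, add_zero, smul_smul, zero_smul] at h
      have := key _ h
      exact (mul_eq_zero.mp this).resolve_right hc
    rw [a5] at hu ⊢
    have h34 : a 3 + a 4 * c = 0 := by
      have h := hE0 _ (hE1 _ hu)
      simp only [map_add, map_smul, E0_0, E0_1, E0_2, E0_3, E0_4, E0_5, E0_6, E0_7, E1_0, E1_1, E1_2, E1_3, E1_4,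
        E1_5, E1_6, E1_7, smul_zero, map_zero, zero_add, add_zero, smul_smul, zero_smul, ← add_smul] at h
      exact key _ h
    have h43 : a 3 * c + a 4 = 0 := by
      have h := hE1 _ (hE0 _ hu)
      simp only [map_add, map_smul, E0_0, E0_1, E0_2, E0_3, E0_4, E0_5, E0_6, E0_7, E1_0, E1_1, E1_2, E1_3, E1_4,
        E1_5, E1_6, E1_7, smul_zero, map_zero, zero_add, add_zero, smul_smul, zero_smul, ← add_smul] at h
      exact key _ h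
    have hc3 : c ^ 2 - 1 ≠ 0 := sub_ne_zero.mpr hc2
    have a4 : a 4 = 0 := by
      have : (c ^ 2 - 1) * a 4 = 0 := by linear_combination c * h34 - h43
      exact (mul_eq_zero.mp this).resolve_left hc3
    have a3 : a 3 = 0 := by rw [a4] at h34; simpa using h34
    rw [a3, a4] at hu ⊢
    have a2 : a 2 = 0 := by
      have h := hE0 _ hu
      simp only [map_add, map_smul, E0_0, E0_1, E0_2, E0_3, E0_4, E0_5, E0_6, E0_7, E1_0, E1_1, E1_2, E1_3, E1_4,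
        E1_5, E1_6, E1_7, smul_zero, map_zero, zero_add, add_zero, smul_smul, zero_smul] at h
      exact key _ h
    have a1 : a 1 = 0 := by
      have h := hE1 _ hu
      simp only [map_add, map_smul, E0_0, E0_1, E0_2, E0_3, E0_4, E0_5, E0_6, E0_7, E1_0, E1_1, E1_2, E1_3, E1_4,
        E1_5, E1_6, E1_7, smul_zero, map_zero, zero_add, add_zero, smul_smul, zero_smul] at h
      exact key _ h
    rw [a1, a2] at hu ⊢
    simp only [zero_smul, add_zero] at hu ⊢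
    rw [key _ hu, zero_smul]

theorem x_ne_zero (i : Fin 8) : x i ≠ 0 := bas.ne_zero i

theorem form_eq (n : Fin 2 → ℤ) : form ![1, 1] n = ((n 0 + n 1 : ℤ) : ℝ) := by
  simp only [form, Matrix.cons_val_zero, Matrix.cons_val_one]
  push_cast
  ring

theorem qSimple_hw (q : ℝ) (hq0 : 0 < q) (hq1 : q ≠ 1) :
    IsQSimpleOfHighestWeight q (qM q (q : ℂ)⁻¹) ![1, 1] := by
  have hc : (q : ℂ) + (q : ℂ)⁻¹ ≠ 0 := by
    have : (0 : ℝ) < q + q⁻¹ := by positivity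
    exact_mod_cast this.ne'
  have hc2 : ((q : ℂ) + (q : ℂ)⁻¹) ^ 2 ≠ 1 := by
    have : (q + q⁻¹) ^ 2 ≠ 1 := by
      have h1 : q * q⁻¹ = 1 := mul_inv_cancel₀ hq0.ne'
      have : (1 : ℝ) < (q + q⁻¹) ^ 2 := by nlinarith [sq_nonneg (q - q⁻¹)]
      exact this.ne'
    exact_mod_cast this
  refine ⟨isQModule q hq0 hq1, inferInstance, ⟨inferInstance, ?_⟩, x 0, x_ne_zero 0, ?_, ?_⟩
  · intro U hU
    exact stable_trivial _ hc hc2 U (fun u hu => (hU 0 u hu).1) (fun u hu => (hU 1 u hu).1)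
      (fun u hu => (hU 0 u hu).2.1) (fun u hu => (hU 1 u hu).2.1)
  · exact all2 (E0_0 _) (E1_0 _)
  · refine all2 ?_ ?_
    · show K0 _ _ (x 0) = (q : ℂ) ^ (1 : ℤ) • x 0
      rw [K0_0, zpow_one]
    · show K1 _ _ (x 0) = (q : ℂ) ^ (1 : ℤ) • x 0
      rw [K1_0, zpow_one]

theorem cSimple_hw : IsCSimpleOfHighestWeight cM ![1, 1] := by
  refine ⟨isCModule, inferInstance, ⟨inferInstance, ?_⟩, x 0, x_ne_zero 0, ?_, ?_⟩
  · intro U hU
    exact stable_trivial 2 two_ne_zero (by norm_num) U (fun u hu => (hU 0 u hu).1) (fun u hu => (hU 1 u hu).1)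
      (fun u hu => (hU 0 u hu).2.1) (fun u hu => (hU 1 u hu).2.1)
  · exact all2 (E0_0 _) (E1_0 _)
  · refine all2 ?_ ?_
    · show H0 (x 0) = ((1 : ℤ) : ℂ) • x 0
      rw [H0_0, Int.cast_one, one_smul]
    · show H1 (x 0) = ((1 : ℤ) : ℂ) • x 0
      rw [H1_0, Int.cast_one, one_smul]

end Pool.Agent.H630R3.BZ
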