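import Mathlib
import Pool.Agent.H630R3.BZOps

set_option autoImplicit false
set_option maxHeartbeats 4000000
set_option linter.unusedSimpArgs false
set_option linter.unusedVariables false

namespace Pool.Agent.H630R3.BZ

open scoped TensorProduct

noncomputable def lin2 {W : Type} [AddCommGroup W] [Module ℂ W] (f : Fin 8 → Fin 8 → W) : V8 ⊗[ℂ] V8 →ₗ[ℂ] W :=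
  (bas.tensorProduct bas).constr ℂ (fun ij => f ij.1 ij.2)

theorem lin2_x {W : Type} [AddCommGroup W] [Module ℂ W] (f : Fin 8 → Fin 8 → W) (i j : Fin 8) :
    lin2 f (x i ⊗ₜ[ℂ] x j) = f i j := by
  have h := (bas.tensorProduct bas).constr_basis ℂ (fun ij : Fin 8 × Fin 8 => f ij.1 ij.2) (i, j)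
  rw [Module.Basis.tensorProduct_apply] at h
  exact h

noncomputable def Rtab0 (q p : ℂ) : Fin 8 → V8 ⊗[ℂ] V8 :=
  ![(q ^ 2 : ℂ) • (x 0 ⊗ₜ[ℂ] x 0),
    (q : ℂ) • (x 1 ⊗ₜ[ℂ] x 0),
    (q : ℂ) • (x 2 ⊗ₜ[ℂ] x 0),
    (x 3 ⊗ₜ[ℂ] x 0),
    (x 4 ⊗ₜ[ℂ] x 0),
    (p : ℂ) • (x 5 ⊗ₜ[ℂ] x 0),
    (p : ℂ) • (x 6 ⊗ₜ[ℂ] x 0),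
    (p ^ 2 : ℂ) • (x 7 ⊗ₜ[ℂ] x 0)]

noncomputable def Rtab1 (q p : ℂ) : Fin 8 → V8 ⊗[ℂ] V8 :=
  ![(q : ℂ) • (x 0 ⊗ₜ[ℂ] x 1) + (q ^ 2 - 1 : ℂ) • (x 1 ⊗ₜ[ℂ] x 0),
    (q ^ 2 : ℂ) • (x 1 ⊗ₜ[ℂ] x 1),
    (p : ℂ) • (x 2 ⊗ₜ[ℂ] x 1) + (q - p : ℂ) • (x 4 ⊗ₜ[ℂ] x 0),
    (x 3 ⊗ₜ[ℂ] x 1) + (1 - p ^ 2 : ℂ) • (x 6 ⊗ₜ[ℂ] x 0),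
    (x 4 ⊗ₜ[ℂ] x 1) + (q - p ^ 3 : ℂ) • (x 6 ⊗ₜ[ℂ] x 0),
    (p ^ 2 : ℂ) • (x 5 ⊗ₜ[ℂ] x 1) + (p - p ^ 3 : ℂ) • (x 7 ⊗ₜ[ℂ] x 0),
    (q : ℂ) • (x 6 ⊗ₜ[ℂ] x 1),
    (p : ℂ) • (x 7 ⊗ₜ[ℂ] x 1)]

noncomputable def Rtab2 (q p : ℂ) : Fin 8 → V8 ⊗[ℂ] V8 :=
  ![(q : ℂ) • (x 0 ⊗ₜ[ℂ] x 2) + (q ^ 2 - 1 : ℂ) • (x 2 ⊗ₜ[ℂ] x 0),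
    (p : ℂ) • (x 1 ⊗ₜ[ℂ] x 2) + (q - p : ℂ) • (x 3 ⊗ₜ[ℂ] x 0),
    (q ^ 2 : ℂ) • (x 2 ⊗ₜ[ℂ] x 2),
    (x 3 ⊗ₜ[ℂ] x 2) + (q - p ^ 3 : ℂ) • (x 5 ⊗ₜ[ℂ] x 0),
    (x 4 ⊗ₜ[ℂ] x 2) + (1 - p ^ 2 : ℂ) • (x 5 ⊗ₜ[ℂ] x 0),
    (q : ℂ) • (x 5 ⊗ₜ[ℂ] x 2),
    (p ^ 2 : ℂ) • (x 6 ⊗ₜ[ℂ] x 2) + (p - p ^ 3 : ℂ) • (x 7 ⊗ₜ[ℂ] x 0),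
    (p : ℂ) • (x 7 ⊗ₜ[ℂ] x 2)]

noncomputable def Rtab3 (q p : ℂ) : Fin 8 → V8 ⊗[ℂ] V8 :=
  ![(x 0 ⊗ₜ[ℂ] x 3) + (1 - p ^ 2 : ℂ) • (x 1 ⊗ₜ[ℂ] x 2) + (q - p ^ 3 : ℂ) • (x 2 ⊗ₜ[ℂ] x 1) + (q ^ 2 - 1 : ℂ) • (x 3 ⊗ₜ[ℂ] x 0) + (-p + p ^ 3 : ℂ) • (x 4 ⊗ₜ[ℂ] x 0),
    (x 1 ⊗ₜ[ℂ] x 3) + (q ^ 2 - p ^ 2 : ℂ) • (x 3 ⊗ₜ[ℂ] x 1) + (-p ^ 2 + p ^ 4 : ℂ) • (x 6 ⊗ₜ[ℂ] x 0),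
    (x 2 ⊗ₜ[ℂ] x 3) + (q - p : ℂ) • (x 4 ⊗ₜ[ℂ] x 2) + (q - p : ℂ) • (x 5 ⊗ₜ[ℂ] x 0),
    (x 3 ⊗ₜ[ℂ] x 3) + (q + p - p ^ 3 - p ^ 5 : ℂ) • (x 5 ⊗ₜ[ℂ] x 1) + (p - p ^ 3 : ℂ) • (x 6 ⊗ₜ[ℂ] x 2) + (1 - 2 * p ^ 2 + p ^ 6 : ℂ) • (x 7 ⊗ₜ[ℂ] x 0),
    (x 4 ⊗ₜ[ℂ] x 3) + (1 - p ^ 4 : ℂ) • (x 5 ⊗ₜ[ℂ] x 1) + (1 - p ^ 4 : ℂ) • (x 6 ⊗ₜ[ℂ] x 2) + (q - 2 * p ^ 3 + p ^ 5 : ℂ) • (x 7 ⊗ₜ[ℂ] x 0),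
    (x 5 ⊗ₜ[ℂ] x 3) + (1 - p ^ 2 : ℂ) • (x 7 ⊗ₜ[ℂ] x 2),
    (x 6 ⊗ₜ[ℂ] x 3) + (q - p ^ 3 : ℂ) • (x 7 ⊗ₜ[ℂ] x 1),
    (x 7 ⊗ₜ[ℂ] x 3)]

noncomputable def Rtab4 (q p : ℂ) : Fin 8 → V8 ⊗[ℂ] V8 :=
  ![(x 0 ⊗ₜ[ℂ] x 4) + (q - p ^ 3 : ℂ) • (x 1 ⊗ₜ[ℂ] x 2) + (1 - p ^ 2 : ℂ) • (x 2 ⊗ₜ[ℂ] x 1) + (-p + p ^ 3 : ℂ) • (x 3 ⊗ₜ[ℂ] x 0) + (q ^ 2 - 1 : ℂ) • (x 4 ⊗ₜ[ℂ] x 0),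
    (x 1 ⊗ₜ[ℂ] x 4) + (q - p : ℂ) • (x 3 ⊗ₜ[ℂ] x 1) + (q - p : ℂ) • (x 6 ⊗ₜ[ℂ] x 0),
    (x 2 ⊗ₜ[ℂ] x 4) + (q ^ 2 - p ^ 2 : ℂ) • (x 4 ⊗ₜ[ℂ] x 2) + (-p ^ 2 + p ^ 4 : ℂ) • (x 5 ⊗ₜ[ℂ] x 0),
    (x 3 ⊗ₜ[ℂ] x 4) + (1 - p ^ 4 : ℂ) • (x 5 ⊗ₜ[ℂ] x 1) + (1 - p ^ 4 : ℂ) • (x 6 ⊗ₜ[ℂ] x 2) + (q - 2 * p ^ 3 + p ^ 5 : ℂ) • (x 7 ⊗ₜ[ℂ] x 0),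
    (x 4 ⊗ₜ[ℂ] x 4) + (p - p ^ 3 : ℂ) • (x 5 ⊗ₜ[ℂ] x 1) + (q + p - p ^ 3 - p ^ 5 : ℂ) • (x 6 ⊗ₜ[ℂ] x 2) + (1 - 2 * p ^ 2 + p ^ 6 : ℂ) • (x 7 ⊗ₜ[ℂ] x 0),
    (x 5 ⊗ₜ[ℂ] x 4) + (q - p ^ 3 : ℂ) • (x 7 ⊗ₜ[ℂ] x 2),
    (x 6 ⊗ₜ[ℂ] x 4) + (1 - p ^ 2 : ℂ) • (x 7 ⊗ₜ[ℂ] x 1),
    (x 7 ⊗ₜ[ℂ] x 4)]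

noncomputable def Rtab5 (q p : ℂ) : Fin 8 → V8 ⊗[ℂ] V8 :=
  ![(p : ℂ) • (x 0 ⊗ₜ[ℂ] x 5) + (q - p : ℂ) • (x 2 ⊗ₜ[ℂ] x 3) + (q - p : ℂ) • (x 3 ⊗ₜ[ℂ] x 2) + (-1 + p ^ 2 : ℂ) • (x 4 ⊗ₜ[ℂ] x 2) + (q ^ 2 - 2 + p ^ 2 : ℂ) • (x 5 ⊗ₜ[ℂ] x 0),
    (p ^ 2 : ℂ) • (x 1 ⊗ₜ[ℂ] x 5) + (q - p : ℂ) • (x 3 ⊗ₜ[ℂ] x 3) + (q ^ 2 - 1 - p ^ 2 + p ^ 4 : ℂ) • (x 5 ⊗ₜ[ℂ] x 1) + (-p ^ 2 + p ^ 4 : ℂ) • (x 6 ⊗ₜ[ℂ] x 2) + (-p + 2 * p ^ 3 - p ^ 5 : ℂ) • (x 7 ⊗ₜ[ℂ] x 0),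
    (q : ℂ) • (x 2 ⊗ₜ[ℂ] x 5) + (q ^ 2 - 1 : ℂ) • (x 5 ⊗ₜ[ℂ] x 2),
    (x 3 ⊗ₜ[ℂ] x 5) + (q ^ 2 - p ^ 2 : ℂ) • (x 5 ⊗ₜ[ℂ] x 3) + (-p ^ 2 + p ^ 4 : ℂ) • (x 7 ⊗ₜ[ℂ] x 2),
    (x 4 ⊗ₜ[ℂ] x 5) + (q - p : ℂ) • (x 5 ⊗ₜ[ℂ] x 3) + (q - p : ℂ) • (x 7 ⊗ₜ[ℂ] x 2),
    (q ^ 2 : ℂ) • (x 5 ⊗ₜ[ℂ] x 5),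
    (p : ℂ) • (x 6 ⊗ₜ[ℂ] x 5) + (q - p : ℂ) • (x 7 ⊗ₜ[ℂ] x 3),
    (q : ℂ) • (x 7 ⊗ₜ[ℂ] x 5)]

noncomputable def Rtab6 (q p : ℂ) : Fin 8 → V8 ⊗[ℂ] V8 :=
  ![(p : ℂ) • (x 0 ⊗ₜ[ℂ] x 6) + (q - p : ℂ) • (x 1 ⊗ₜ[ℂ] x 4) + (-1 + p ^ 2 : ℂ) • (x 3 ⊗ₜ[ℂ] x 1) + (q - p : ℂ) • (x 4 ⊗ₜ[ℂ] x 1) + (q ^ 2 - 2 + p ^ 2 : ℂ) • (x 6 ⊗ₜ[ℂ] x 0),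
    (q : ℂ) • (x 1 ⊗ₜ[ℂ] x 6) + (q ^ 2 - 1 : ℂ) • (x 6 ⊗ₜ[ℂ] x 1),
    (p ^ 2 : ℂ) • (x 2 ⊗ₜ[ℂ] x 6) + (q - p : ℂ) • (x 4 ⊗ₜ[ℂ] x 4) + (-p ^ 2 + p ^ 4 : ℂ) • (x 5 ⊗ₜ[ℂ] x 1) + (q ^ 2 - 1 - p ^ 2 + p ^ 4 : ℂ) • (x 6 ⊗ₜ[ℂ] x 2) + (-p + 2 * p ^ 3 - p ^ 5 : ℂ) • (x 7 ⊗ₜ[ℂ] x 0),
    (x 3 ⊗ₜ[ℂ] x 6) + (q - p : ℂ) • (x 6 ⊗ₜ[ℂ] x 4) + (q - p : ℂ) • (x 7 ⊗ₜ[ℂ] x 1),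
    (x 4 ⊗ₜ[ℂ] x 6) + (q ^ 2 - p ^ 2 : ℂ) • (x 6 ⊗ₜ[ℂ] x 4) + (-p ^ 2 + p ^ 4 : ℂ) • (x 7 ⊗ₜ[ℂ] x 1),
    (p : ℂ) • (x 5 ⊗ₜ[ℂ] x 6) + (q - p : ℂ) • (x 7 ⊗ₜ[ℂ] x 4),
    (q ^ 2 : ℂ) • (x 6 ⊗ₜ[ℂ] x 6),
    (q : ℂ) • (x 7 ⊗ₜ[ℂ] x 6)]

noncomputable def Rtab7 (q p : ℂ) : Fin 8 → V8 ⊗[ℂ] V8 :=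
  ![(p ^ 2 : ℂ) • (x 0 ⊗ₜ[ℂ] x 7) + (p - p ^ 3 : ℂ) • (x 1 ⊗ₜ[ℂ] x 5) + (p - p ^ 3 : ℂ) • (x 2 ⊗ₜ[ℂ] x 6) + (-1 + p ^ 2 : ℂ) • (x 3 ⊗ₜ[ℂ] x 3) + (q - p : ℂ) • (x 3 ⊗ₜ[ℂ] x 4) + (q - p : ℂ) • (x 4 ⊗ₜ[ℂ] x 3) + (-1 + p ^ 2 : ℂ) • (x 4 ⊗ₜ[ℂ] x 4) + (-p + 2 * p ^ 3 - p ^ 5 : ℂ) • (x 5 ⊗ₜ[ℂ] x 1) + (-p + 2 * p ^ 3 - p ^ 5 : ℂ) • (x 6 ⊗ₜ[ℂ] x 2) + (q ^ 2 - 2 + 2 * p ^ 2 - 2 * p ^ 4 + p ^ 6 : ℂ) • (x 7 ⊗ₜ[ℂ] x 0),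
    (p : ℂ) • (x 1 ⊗ₜ[ℂ] x 7) + (q - p : ℂ) • (x 3 ⊗ₜ[ℂ] x 6) + (q - p : ℂ) • (x 6 ⊗ₜ[ℂ] x 3) + (-1 + p ^ 2 : ℂ) • (x 6 ⊗ₜ[ℂ] x 4) + (q ^ 2 - 2 + p ^ 2 : ℂ) • (x 7 ⊗ₜ[ℂ] x 1),
    (p : ℂ) • (x 2 ⊗ₜ[ℂ] x 7) + (q - p : ℂ) • (x 4 ⊗ₜ[ℂ] x 5) + (-1 + p ^ 2 : ℂ) • (x 5 ⊗ₜ[ℂ] x 3) + (q - p : ℂ) • (x 5 ⊗ₜ[ℂ] x 4) + (q ^ 2 - 2 + p ^ 2 : ℂ) • (x 7 ⊗ₜ[ℂ] x 2),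
    (x 3 ⊗ₜ[ℂ] x 7) + (q - p ^ 3 : ℂ) • (x 5 ⊗ₜ[ℂ] x 6) + (1 - p ^ 2 : ℂ) • (x 6 ⊗ₜ[ℂ] x 5) + (q ^ 2 - 1 : ℂ) • (x 7 ⊗ₜ[ℂ] x 3) + (-p + p ^ 3 : ℂ) • (x 7 ⊗ₜ[ℂ] x 4),
    (x 4 ⊗ₜ[ℂ] x 7) + (1 - p ^ 2 : ℂ) • (x 5 ⊗ₜ[ℂ] x 6) + (q - p ^ 3 : ℂ) • (x 6 ⊗ₜ[ℂ] x 5) + (-p + p ^ 3 : ℂ) • (x 7 ⊗ₜ[ℂ] x 3) + (q ^ 2 - 1 : ℂ) • (x 7 ⊗ₜ[ℂ] x 4),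
    (q : ℂ) • (x 5 ⊗ₜ[ℂ] x 7) + (q ^ 2 - 1 : ℂ) • (x 7 ⊗ₜ[ℂ] x 5),
    (q : ℂ) • (x 6 ⊗ₜ[ℂ] x 7) + (q ^ 2 - 1 : ℂ) • (x 7 ⊗ₜ[ℂ] x 6),
    (q ^ 2 : ℂ) • (x 7 ⊗ₜ[ℂ] x 7)]

noncomputable def Rtab (q p : ℂ) : Fin 8 → Fin 8 → V8 ⊗[ℂ] V8 :=
  ![Rtab0 q p, Rtab1 q p, Rtab2 q p, Rtab3 q p, Rtab4 q p, Rtab5 q p, Rtab6 q p, Rtab7 q p]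

noncomputable def Rq (q p : ℂ) : V8 ⊗[ℂ] V8 →ₗ[ℂ] V8 ⊗[ℂ] V8 := lin2 (Rtab q p)

theorem R_0_0 (q p : ℂ) : Rq q p (x 0 ⊗ₜ[ℂ] x 0) = (q ^ 2 : ℂ) • (x 0 ⊗ₜ[ℂ] x 0) := lin2_x _ _ _
theorem R_0_1 (q p : ℂ) : Rq q p (x 0 ⊗ₜ[ℂ] x 1) = (q : ℂ) • (x 1 ⊗ₜ[ℂ] x 0) := lin2_x _ _ _
theorem R_0_2 (q p : ℂ) : Rq q p (x 0 ⊗ₜ[ℂ] x 2) = (q : ℂ) • (x 2 ⊗ₜ[ℂ] x 0) := lin2_x _ _ _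
theorem R_0_3 (q p : ℂ) : Rq q p (x 0 ⊗ₜ[ℂ] x 3) = (x 3 ⊗ₜ[ℂ] x 0) := lin2_x _ _ _
theorem R_0_4 (q p : ℂ) : Rq q p (x 0 ⊗ₜ[ℂ] x 4) = (x 4 ⊗ₜ[ℂ] x 0) := lin2_x _ _ _
theorem R_0_5 (q p : ℂ) : Rq q p (x 0 ⊗ₜ[ℂ] x 5) = (p : ℂ) • (x 5 ⊗ₜ[ℂ] x 0) := lin2_x _ _ _
theorem R_0_6 (q p : ℂ) : Rq q p (x 0 ⊗ₜ[ℂ] x 6) = (p : ℂ) • (x 6 ⊗ₜ[ℂ] x 0) := lin2_x _ _ _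
theorem R_0_7 (q p : ℂ) : Rq q p (x 0 ⊗ₜ[ℂ] x 7) = (p ^ 2 : ℂ) • (x 7 ⊗ₜ[ℂ] x 0) := lin2_x _ _ _
theorem R_1_0 (q p : ℂ) : Rq q p (x 1 ⊗ₜ[ℂ] x 0) = (q : ℂ) • (x 0 ⊗ₜ[ℂ] x 1) + (q ^ 2 - 1 : ℂ) • (x 1 ⊗ₜ[ℂ] x 0) := lin2_x _ _ _
theorem R_1_1 (q p : ℂ) : Rq q p (x 1 ⊗ₜ[ℂ] x 1) = (q ^ 2 : ℂ) • (x 1 ⊗ₜ[ℂ] x 1) := lin2_x _ _ _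
theorem R_1_2 (q p : ℂ) : Rq q p (x 1 ⊗ₜ[ℂ] x 2) = (p : ℂ) • (x 2 ⊗ₜ[ℂ] x 1) + (q - p : ℂ) • (x 4 ⊗ₜ[ℂ] x 0) := lin2_x _ _ _
theorem R_1_3 (q p : ℂ) : Rq q p (x 1 ⊗ₜ[ℂ] x 3) = (x 3 ⊗ₜ[ℂ] x 1) + (1 - p ^ 2 : ℂ) • (x 6 ⊗ₜ[ℂ] x 0) := lin2_x _ _ _
theorem R_1_4 (q p : ℂ) : Rq q p (x 1 ⊗ₜ[ℂ] x 4) = (x 4 ⊗ₜ[ℂ] x 1) + (q - p ^ 3 : ℂ) • (x 6 ⊗ₜ[ℂ] x 0) := lin2_x _ _ _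
theorem R_1_5 (q p : ℂ) : Rq q p (x 1 ⊗ₜ[ℂ] x 5) = (p ^ 2 : ℂ) • (x 5 ⊗ₜ[ℂ] x 1) + (p - p ^ 3 : ℂ) • (x 7 ⊗ₜ[ℂ] x 0) := lin2_x _ _ _
theorem R_1_6 (q p : ℂ) : Rq q p (x 1 ⊗ₜ[ℂ] x 6) = (q : ℂ) • (x 6 ⊗ₜ[ℂ] x 1) := lin2_x _ _ _
theorem R_1_7 (q p : ℂ) : Rq q p (x 1 ⊗ₜ[ℂ] x 7) = (p : ℂ) • (x 7 ⊗ₜ[ℂ] x 1) := lin2_x _ _ _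
theorem R_2_0 (q p : ℂ) : Rq q p (x 2 ⊗ₜ[ℂ] x 0) = (q : ℂ) • (x 0 ⊗ₜ[ℂ] x 2) + (q ^ 2 - 1 : ℂ) • (x 2 ⊗ₜ[ℂ] x 0) := lin2_x _ _ _
theorem R_2_1 (q p : ℂ) : Rq q p (x 2 ⊗ₜ[ℂ] x 1) = (p : ℂ) • (x 1 ⊗ₜ[ℂ] x 2) + (q - p : ℂ) • (x 3 ⊗ₜ[ℂ] x 0) := lin2_x _ _ _
theorem R_2_2 (q p : ℂ) : Rq q p (x 2 ⊗ₜ[ℂ] x 2) = (q ^ 2 : ℂ) • (x 2 ⊗ₜ[ℂ] x 2) := lin2_x _ _ _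
theorem R_2_3 (q p : ℂ) : Rq q p (x 2 ⊗ₜ[ℂ] x 3) = (x 3 ⊗ₜ[ℂ] x 2) + (q - p ^ 3 : ℂ) • (x 5 ⊗ₜ[ℂ] x 0) := lin2_x _ _ _
theorem R_2_4 (q p : ℂ) : Rq q p (x 2 ⊗ₜ[ℂ] x 4) = (x 4 ⊗ₜ[ℂ] x 2) + (1 - p ^ 2 : ℂ) • (x 5 ⊗ₜ[ℂ] x 0) := lin2_x _ _ _
theorem R_2_5 (q p : ℂ) : Rq q p (x 2 ⊗ₜ[ℂ] x 5) = (q : ℂ) • (x 5 ⊗ₜ[ℂ] x 2) := lin2_x _ _ _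
theorem R_2_6 (q p : ℂ) : Rq q p (x 2 ⊗ₜ[ℂ] x 6) = (p ^ 2 : ℂ) • (x 6 ⊗ₜ[ℂ] x 2) + (p - p ^ 3 : ℂ) • (x 7 ⊗ₜ[ℂ] x 0) := lin2_x _ _ _
theorem R_2_7 (q p : ℂ) : Rq q p (x 2 ⊗ₜ[ℂ] x 7) = (p : ℂ) • (x 7 ⊗ₜ[ℂ] x 2) := lin2_x _ _ _
theorem R_3_0 (q p : ℂ) : Rq q p (x 3 ⊗ₜ[ℂ] x 0) = (x 0 ⊗ₜ[ℂ] x 3) + (1 - p ^ 2 : ℂ) • (x 1 ⊗ₜ[ℂ] x 2) + (q - p ^ 3 : ℂ) • (x 2 ⊗ₜ[ℂ] x 1) + (q ^ 2 - 1 : ℂ) • (x 3 ⊗ₜ[ℂ] x 0) + (-p + p ^ 3 : ℂ) • (x 4 ⊗ₜ[ℂ] x 0) := lin2_x _ _ _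
theorem R_3_1 (q p : ℂ) : Rq q p (x 3 ⊗ₜ[ℂ] x 1) = (x 1 ⊗ₜ[ℂ] x 3) + (q ^ 2 - p ^ 2 : ℂ) • (x 3 ⊗ₜ[ℂ] x 1) + (-p ^ 2 + p ^ 4 : ℂ) • (x 6 ⊗ₜ[ℂ] x 0) := lin2_x _ _ _
theorem R_3_2 (q p : ℂ) : Rq q p (x 3 ⊗ₜ[ℂ] x 2) = (x 2 ⊗ₜ[ℂ] x 3) + (q - p : ℂ) • (x 4 ⊗ₜ[ℂ] x 2) + (q - p : ℂ) • (x 5 ⊗ₜ[ℂ] x 0) := lin2_x _ _ _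
theorem R_3_3 (q p : ℂ) : Rq q p (x 3 ⊗ₜ[ℂ] x 3) = (x 3 ⊗ₜ[ℂ] x 3) + (q + p - p ^ 3 - p ^ 5 : ℂ) • (x 5 ⊗ₜ[ℂ] x 1) + (p - p ^ 3 : ℂ) • (x 6 ⊗ₜ[ℂ] x 2) + (1 - 2 * p ^ 2 + p ^ 6 : ℂ) • (x 7 ⊗ₜ[ℂ] x 0) := lin2_x _ _ _
theorem R_3_4 (q p : ℂ) : Rq q p (x 3 ⊗ₜ[ℂ] x 4) = (x 4 ⊗ₜ[ℂ] x 3) + (1 - p ^ 4 : ℂ) • (x 5 ⊗ₜ[ℂ] x 1) + (1 - p ^ 4 : ℂ) • (x 6 ⊗ₜ[ℂ] x 2) + (q - 2 * p ^ 3 + p ^ 5 : ℂ) • (x 7 ⊗ₜ[ℂ] x 0) := lin2_x _ _ _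
theorem R_3_5 (q p : ℂ) : Rq q p (x 3 ⊗ₜ[ℂ] x 5) = (x 5 ⊗ₜ[ℂ] x 3) + (1 - p ^ 2 : ℂ) • (x 7 ⊗ₜ[ℂ] x 2) := lin2_x _ _ _
theorem R_3_6 (q p : ℂ) : Rq q p (x 3 ⊗ₜ[ℂ] x 6) = (x 6 ⊗ₜ[ℂ] x 3) + (q - p ^ 3 : ℂ) • (x 7 ⊗ₜ[ℂ] x 1) := lin2_x _ _ _
theorem R_3_7 (q p : ℂ) : Rq q p (x 3 ⊗ₜ[ℂ] x 7) = (x 7 ⊗ₜ[ℂ] x 3) := lin2_x _ _ _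
theorem R_4_0 (q p : ℂ) : Rq q p (x 4 ⊗ₜ[ℂ] x 0) = (x 0 ⊗ₜ[ℂ] x 4) + (q - p ^ 3 : ℂ) • (x 1 ⊗ₜ[ℂ] x 2) + (1 - p ^ 2 : ℂ) • (x 2 ⊗ₜ[ℂ] x 1) + (-p + p ^ 3 : ℂ) • (x 3 ⊗ₜ[ℂ] x 0) + (q ^ 2 - 1 : ℂ) • (x 4 ⊗ₜ[ℂ] x 0) := lin2_x _ _ _
theorem R_4_1 (q p : ℂ) : Rq q p (x 4 ⊗ₜ[ℂ] x 1) = (x 1 ⊗ₜ[ℂ] x 4) + (q - p : ℂ) • (x 3 ⊗ₜ[ℂ] x 1) + (q - p : ℂ) • (x 6 ⊗ₜ[ℂ] x 0) := lin2_x _ _ _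
theorem R_4_2 (q p : ℂ) : Rq q p (x 4 ⊗ₜ[ℂ] x 2) = (x 2 ⊗ₜ[ℂ] x 4) + (q ^ 2 - p ^ 2 : ℂ) • (x 4 ⊗ₜ[ℂ] x 2) + (-p ^ 2 + p ^ 4 : ℂ) • (x 5 ⊗ₜ[ℂ] x 0) := lin2_x _ _ _
theorem R_4_3 (q p : ℂ) : Rq q p (x 4 ⊗ₜ[ℂ] x 3) = (x 3 ⊗ₜ[ℂ] x 4) + (1 - p ^ 4 : ℂ) • (x 5 ⊗ₜ[ℂ] x 1) + (1 - p ^ 4 : ℂ) • (x 6 ⊗ₜ[ℂ] x 2) + (q - 2 * p ^ 3 + p ^ 5 : ℂ) • (x 7 ⊗ₜ[ℂ] x 0) := lin2_x _ _ _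
theorem R_4_4 (q p : ℂ) : Rq q p (x 4 ⊗ₜ[ℂ] x 4) = (x 4 ⊗ₜ[ℂ] x 4) + (p - p ^ 3 : ℂ) • (x 5 ⊗ₜ[ℂ] x 1) + (q + p - p ^ 3 - p ^ 5 : ℂ) • (x 6 ⊗ₜ[ℂ] x 2) + (1 - 2 * p ^ 2 + p ^ 6 : ℂ) • (x 7 ⊗ₜ[ℂ] x 0) := lin2_x _ _ _
theorem R_4_5 (q p : ℂ) : Rq q p (x 4 ⊗ₜ[ℂ] x 5) = (x 5 ⊗ₜ[ℂ] x 4) + (q - p ^ 3 : ℂ) • (x 7 ⊗ₜ[ℂ] x 2) := lin2_x _ _ _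
theorem R_4_6 (q p : ℂ) : Rq q p (x 4 ⊗ₜ[ℂ] x 6) = (x 6 ⊗ₜ[ℂ] x 4) + (1 - p ^ 2 : ℂ) • (x 7 ⊗ₜ[ℂ] x 1) := lin2_x _ _ _
theorem R_4_7 (q p : ℂ) : Rq q p (x 4 ⊗ₜ[ℂ] x 7) = (x 7 ⊗ₜ[ℂ] x 4) := lin2_x _ _ _
theorem R_5_0 (q p : ℂ) : Rq q p (x 5 ⊗ₜ[ℂ] x 0) = (p : ℂ) • (x 0 ⊗ₜ[ℂ] x 5) + (q - p : ℂ) • (x 2 ⊗ₜ[ℂ] x 3) + (q - p : ℂ) • (x 3 ⊗ₜ[ℂ] x 2) + (-1 + p ^ 2 : ℂ) • (x 4 ⊗ₜ[ℂ] x 2) + (q ^ 2 - 2 + p ^ 2 : ℂ) • (x 5 ⊗ₜ[ℂ] x 0) := lin2_x _ _ _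
theorem R_5_1 (q p : ℂ) : Rq q p (x 5 ⊗ₜ[ℂ] x 1) = (p ^ 2 : ℂ) • (x 1 ⊗ₜ[ℂ] x 5) + (q - p : ℂ) • (x 3 ⊗ₜ[ℂ] x 3) + (q ^ 2 - 1 - p ^ 2 + p ^ 4 : ℂ) • (x 5 ⊗ₜ[ℂ] x 1) + (-p ^ 2 + p ^ 4 : ℂ) • (x 6 ⊗ₜ[ℂ] x 2) + (-p + 2 * p ^ 3 - p ^ 5 : ℂ) • (x 7 ⊗ₜ[ℂ] x 0) := lin2_x _ _ _
theorem R_5_2 (q p : ℂ) : Rq q p (x 5 ⊗ₜ[ℂ] x 2) = (q : ℂ) • (x 2 ⊗ₜ[ℂ] x 5) + (q ^ 2 - 1 : ℂ) • (x 5 ⊗ₜ[ℂ] x 2) := lin2_x _ _ _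
theorem R_5_3 (q p : ℂ) : Rq q p (x 5 ⊗ₜ[ℂ] x 3) = (x 3 ⊗ₜ[ℂ] x 5) + (q ^ 2 - p ^ 2 : ℂ) • (x 5 ⊗ₜ[ℂ] x 3) + (-p ^ 2 + p ^ 4 : ℂ) • (x 7 ⊗ₜ[ℂ] x 2) := lin2_x _ _ _
theorem R_5_4 (q p : ℂ) : Rq q p (x 5 ⊗ₜ[ℂ] x 4) = (x 4 ⊗ₜ[ℂ] x 5) + (q - p : ℂ) • (x 5 ⊗ₜ[ℂ] x 3) + (q - p : ℂ) • (x 7 ⊗ₜ[ℂ] x 2) := lin2_x _ _ _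
theorem R_5_5 (q p : ℂ) : Rq q p (x 5 ⊗ₜ[ℂ] x 5) = (q ^ 2 : ℂ) • (x 5 ⊗ₜ[ℂ] x 5) := lin2_x _ _ _
theorem R_5_6 (q p : ℂ) : Rq q p (x 5 ⊗ₜ[ℂ] x 6) = (p : ℂ) • (x 6 ⊗ₜ[ℂ] x 5) + (q - p : ℂ) • (x 7 ⊗ₜ[ℂ] x 3) := lin2_x _ _ _
theorem R_5_7 (q p : ℂ) : Rq q p (x 5 ⊗ₜ[ℂ] x 7) = (q : ℂ) • (x 7 ⊗ₜ[ℂ] x 5) := lin2_x _ _ _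
theorem R_6_0 (q p : ℂ) : Rq q p (x 6 ⊗ₜ[ℂ] x 0) = (p : ℂ) • (x 0 ⊗ₜ[ℂ] x 6) + (q - p : ℂ) • (x 1 ⊗ₜ[ℂ] x 4) + (-1 + p ^ 2 : ℂ) • (x 3 ⊗ₜ[ℂ] x 1) + (q - p : ℂ) • (x 4 ⊗ₜ[ℂ] x 1) + (q ^ 2 - 2 + p ^ 2 : ℂ) • (x 6 ⊗ₜ[ℂ] x 0) := lin2_x _ _ _
theorem R_6_1 (q p : ℂ) : Rq q p (x 6 ⊗ₜ[ℂ] x 1) = (q : ℂ) • (x 1 ⊗ₜ[ℂ] x 6) + (q ^ 2 - 1 : ℂ) • (x 6 ⊗ₜ[ℂ] x 1) := lin2_x _ _ _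
theorem R_6_2 (q p : ℂ) : Rq q p (x 6 ⊗ₜ[ℂ] x 2) = (p ^ 2 : ℂ) • (x 2 ⊗ₜ[ℂ] x 6) + (q - p : ℂ) • (x 4 ⊗ₜ[ℂ] x 4) + (-p ^ 2 + p ^ 4 : ℂ) • (x 5 ⊗ₜ[ℂ] x 1) + (q ^ 2 - 1 - p ^ 2 + p ^ 4 : ℂ) • (x 6 ⊗ₜ[ℂ] x 2) + (-p + 2 * p ^ 3 - p ^ 5 : ℂ) • (x 7 ⊗ₜ[ℂ] x 0) := lin2_x _ _ _
theorem R_6_3 (q p : ℂ) : Rq q p (x 6 ⊗ₜ[ℂ] x 3) = (x 3 ⊗ₜ[ℂ] x 6) + (q - p : ℂ) • (x 6 ⊗ₜ[ℂ] x 4) + (q - p : ℂ) • (x 7 ⊗ₜ[ℂ] x 1) := lin2_x _ _ _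
theorem R_6_4 (q p : ℂ) : Rq q p (x 6 ⊗ₜ[ℂ] x 4) = (x 4 ⊗ₜ[ℂ] x 6) + (q ^ 2 - p ^ 2 : ℂ) • (x 6 ⊗ₜ[ℂ] x 4) + (-p ^ 2 + p ^ 4 : ℂ) • (x 7 ⊗ₜ[ℂ] x 1) := lin2_x _ _ _
theorem R_6_5 (q p : ℂ) : Rq q p (x 6 ⊗ₜ[ℂ] x 5) = (p : ℂ) • (x 5 ⊗ₜ[ℂ] x 6) + (q - p : ℂ) • (x 7 ⊗ₜ[ℂ] x 4) := lin2_x _ _ _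
theorem R_6_6 (q p : ℂ) : Rq q p (x 6 ⊗ₜ[ℂ] x 6) = (q ^ 2 : ℂ) • (x 6 ⊗ₜ[ℂ] x 6) := lin2_x _ _ _
theorem R_6_7 (q p : ℂ) : Rq q p (x 6 ⊗ₜ[ℂ] x 7) = (q : ℂ) • (x 7 ⊗ₜ[ℂ] x 6) := lin2_x _ _ _
theorem R_7_0 (q p : ℂ) : Rq q p (x 7 ⊗ₜ[ℂ] x 0) = (p ^ 2 : ℂ) • (x 0 ⊗ₜ[ℂ] x 7) + (p - p ^ 3 : ℂ) • (x 1 ⊗ₜ[ℂ] x 5) + (p - p ^ 3 : ℂ) • (x 2 ⊗ₜ[ℂ] x 6) + (-1 + p ^ 2 : ℂ) • (x 3 ⊗ₜ[ℂ] x 3) + (q - p : ℂ) • (x 3 ⊗ₜ[ℂ] x 4) + (q - p : ℂ) • (x 4 ⊗ₜ[ℂ] x 3) + (-1 + p ^ 2 : ℂ) • (x 4 ⊗ₜ[ℂ] x 4) + (-p + 2 * p ^ 3 - p ^ 5 : ℂ) • (x 5 ⊗ₜ[ℂ] x 1) + (-p + 2 * p ^ 3 - p ^ 5 : ℂ) • (x 6 ⊗ₜ[ℂ]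 x 2) + (q ^ 2 - 2 + 2 * p ^ 2 - 2 * p ^ 4 + p ^ 6 : ℂ) • (x 7 ⊗ₜ[ℂ] x 0) := lin2_x _ _ _
theorem R_7_1 (q p : ℂ) : Rq q p (x 7 ⊗ₜ[ℂ] x 1) = (p : ℂ) • (x 1 ⊗ₜ[ℂ] x 7) + (q - p : ℂ) • (x 3 ⊗ₜ[ℂ] x 6) + (q - p : ℂ) • (x 6 ⊗ₜ[ℂ] x 3) + (-1 + p ^ 2 : ℂ) • (x 6 ⊗ₜ[ℂ] x 4) + (q ^ 2 - 2 + p ^ 2 : ℂ) • (x 7 ⊗ₜ[ℂ] x 1) := lin2_x _ _ _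
theorem R_7_2 (q p : ℂ) : Rq q p (x 7 ⊗ₜ[ℂ] x 2) = (p : ℂ) • (x 2 ⊗ₜ[ℂ] x 7) + (q - p : ℂ) • (x 4 ⊗ₜ[ℂ] x 5) + (-1 + p ^ 2 : ℂ) • (x 5 ⊗ₜ[ℂ] x 3) + (q - p : ℂ) • (x 5 ⊗ₜ[ℂ] x 4) + (q ^ 2 - 2 + p ^ 2 : ℂ) • (x 7 ⊗ₜ[ℂ] x 2) := lin2_x _ _ _
theorem R_7_3 (q p : ℂ) : Rq q p (x 7 ⊗ₜ[ℂ] x 3) = (x 3 ⊗ₜ[ℂ] x 7) + (q - p ^ 3 : ℂ) • (x 5 ⊗ₜ[ℂ] x 6) + (1 - p ^ 2 : ℂ) • (x 6 ⊗ₜ[ℂ] x 5) + (q ^ 2 - 1 : ℂ) • (x 7 ⊗ₜ[ℂ] x 3) + (-p + p ^ 3 : ℂ) • (x 7 ⊗ₜ[ℂ] x 4) := lin2_x _ _ _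
theorem R_7_4 (q p : ℂ) : Rq q p (x 7 ⊗ₜ[ℂ] x 4) = (x 4 ⊗ₜ[ℂ] x 7) + (1 - p ^ 2 : ℂ) • (x 5 ⊗ₜ[ℂ] x 6) + (q - p ^ 3 : ℂ) • (x 6 ⊗ₜ[ℂ] x 5) + (-p + p ^ 3 : ℂ) • (x 7 ⊗ₜ[ℂ] x 3) + (q ^ 2 - 1 : ℂ) • (x 7 ⊗ₜ[ℂ] x 4) := lin2_x _ _ _
theorem R_7_5 (q p : ℂ) : Rq q p (x 7 ⊗ₜ[ℂ] x 5) = (q : ℂ) • (x 5 ⊗ₜ[ℂ] x 7) + (q ^ 2 - 1 : ℂ) • (x 7 ⊗ₜ[ℂ] x 5) := lin2_x _ _ _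
theorem R_7_6 (q p : ℂ) : Rq q p (x 7 ⊗ₜ[ℂ] x 6) = (q : ℂ) • (x 6 ⊗ₜ[ℂ] x 7) + (q ^ 2 - 1 : ℂ) • (x 7 ⊗ₜ[ℂ] x 6) := lin2_x _ _ _
theorem R_7_7 (q p : ℂ) : Rq q p (x 7 ⊗ₜ[ℂ] x 7) = (q ^ 2 : ℂ) • (x 7 ⊗ₜ[ℂ] x 7) := lin2_x _ _ _

end Pool.Agent.H630R3.BZ
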