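import Mathlib
import Pool.Agent.H630R3.BZR
import Pool.Agent.H630R3.BZMod

set_option autoImplicit false
set_option maxHeartbeats 4000000
set_option linter.unusedSimpArgs false
set_option linter.unusedVariables false

namespace Pool.Agent.H630R3.BZ

open scoped TensorProduct

variable (q p : ℂ)

theorem R_K0 (h : q * p = 1) :
    Rq q p * TensorProduct.map (K0 q p) (K0 q p) = TensorProduct.map (K0 q p) (K0 q p) * Rq q p := by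
  (refine lin_ext2 (all8 ?_ ?_ ?_ ?_ ?_ ?_ ?_ ?_) <;> refine all8 ?_ ?_ ?_ ?_ ?_ ?_ ?_ ?_ <;>
    simp only [Module.End.mul_apply, LinearMap.add_apply, LinearMap.sub_apply, LinearMap.smul_apply,
      Module.End.one_apply, LinearMap.zero_apply, map_smul, map_zero, smul_zero, add_zero, zero_add, sub_zero,
      zero_sub, smul_smul, map_add, map_sub, map_neg, smul_add, TensorProduct.map_tmul, LinearMap.id_apply,
      TensorProduct.tmul_add, TensorProduct.add_tmul, TensorProduct.tmul_smul, ← TensorProduct.smul_tmul',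
      TensorProduct.tmul_zero, TensorProduct.zero_tmul,
      E0_0, E0_1, E0_2, E0_3, E0_4, E0_5, E0_6, E0_7, E1_0, E1_1, E1_2, E1_3, E1_4, E1_5, E1_6, E1_7, F0_0, F0_1, F0_2, F0_3, F0_4, F0_5, F0_6, F0_7, F1_0, F1_1, F1_2, F1_3, F1_4, F1_5, F1_6, F1_7, K0_0, K0_1, K0_2, K0_3, K0_4, K0_5, K0_6, K0_7, K1_0, K1_1, K1_2, K1_3, K1_4, K1_5, K1_6, K1_7, H0_0, H0_1, H0_2, H0_3, H0_4, H0_5, H0_6, H0_7, H1_0, H1_1, H1_2, H1_3, H1_4, H1_5, H1_6, H1_7,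
      R_0_0, R_0_1, R_0_2, R_0_3, R_0_4, R_0_5, R_0_6, R_0_7, R_1_0, R_1_1, R_1_2, R_1_3, R_1_4, R_1_5, R_1_6, R_1_7, R_2_0, R_2_1, R_2_2, R_2_3, R_2_4, R_2_5, R_2_6, R_2_7, R_3_0, R_3_1, R_3_2, R_3_3, R_3_4, R_3_5, R_3_6, R_3_7, R_4_0, R_4_1, R_4_2, R_4_3, R_4_4, R_4_5, R_4_6, R_4_7, R_5_0, R_5_1, R_5_2, R_5_3, R_5_4, R_5_5, R_5_6, R_5_7, R_6_0, R_6_1, R_6_2, R_6_3, R_6_4, R_6_5, R_6_6, R_6_7, R_7_0, R_7_1, R_7_2, R_7_3, R_7_4, R_7_5, R_7_6, R_7_7] <;>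
    try (match_scalars <;> grind))

theorem R_K1 (h : q * p = 1) :
    Rq q p * TensorProduct.map (K1 q p) (K1 q p) = TensorProduct.map (K1 q p) (K1 q p) * Rq q p := by
  (refine lin_ext2 (all8 ?_ ?_ ?_ ?_ ?_ ?_ ?_ ?_) <;> refine all8 ?_ ?_ ?_ ?_ ?_ ?_ ?_ ?_ <;>
    simp only [Module.End.mul_apply, LinearMap.add_apply, LinearMap.sub_apply, LinearMap.smul_apply,
      Module.End.one_apply, LinearMap.zero_apply, map_smul, map_zero, smul_zero, add_zero, zero_add, sub_zero,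
      zero_sub, smul_smul, map_add, map_sub, map_neg, smul_add, TensorProduct.map_tmul, LinearMap.id_apply,
      TensorProduct.tmul_add, TensorProduct.add_tmul, TensorProduct.tmul_smul, ← TensorProduct.smul_tmul',
      TensorProduct.tmul_zero, TensorProduct.zero_tmul,
      E0_0, E0_1, E0_2, E0_3, E0_4, E0_5, E0_6, E0_7, E1_0, E1_1, E1_2, E1_3, E1_4, E1_5, E1_6, E1_7, F0_0, F0_1, F0_2, F0_3, F0_4, F0_5, F0_6, F0_7, F1_0, F1_1, F1_2, F1_3, F1_4, F1_5, F1_6, F1_7, K0_0, K0_1, K0_2, K0_3, K0_4, K0_5, K0_6, K0_7, K1_0, K1_1, K1_2, K1_3, K1_4, K1_5, K1_6, K1_7, H0_0, H0_1, H0_2, H0_3, H0_4, H0_5, H0_6, H0_7, H1_0, H1_1, H1_2, H1_3, H1_4, H1_5, H1_6, H1_7,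
      R_0_0, R_0_1, R_0_2, R_0_3, R_0_4, R_0_5, R_0_6, R_0_7, R_1_0, R_1_1, R_1_2, R_1_3, R_1_4, R_1_5, R_1_6, R_1_7, R_2_0, R_2_1, R_2_2, R_2_3, R_2_4, R_2_5, R_2_6, R_2_7, R_3_0, R_3_1, R_3_2, R_3_3, R_3_4, R_3_5, R_3_6, R_3_7, R_4_0, R_4_1, R_4_2, R_4_3, R_4_4, R_4_5, R_4_6, R_4_7, R_5_0, R_5_1, R_5_2, R_5_3, R_5_4, R_5_5, R_5_6, R_5_7, R_6_0, R_6_1, R_6_2, R_6_3, R_6_4, R_6_5, R_6_6, R_6_7, R_7_0, R_7_1, R_7_2, R_7_3, R_7_4, R_7_5, R_7_6, R_7_7] <;>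
    try (match_scalars <;> grind))

theorem R_E0 (h : q * p = 1) :
    Rq q p * (TensorProduct.map (E0 (q + p)) (K0 q p) + TensorProduct.map LinearMap.id (E0 (q + p))) =
      (TensorProduct.map (E0 (q + p)) (K0 q p) + TensorProduct.map LinearMap.id (E0 (q + p))) * Rq q p := by
  (refine lin_ext2 (all8 ?_ ?_ ?_ ?_ ?_ ?_ ?_ ?_) <;> refine all8 ?_ ?_ ?_ ?_ ?_ ?_ ?_ ?_ <;>
    simp only [Module.End.mul_apply, LinearMap.add_apply, LinearMap.sub_apply, LinearMap.smul_apply,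
      Module.End.one_apply, LinearMap.zero_apply, map_smul, map_zero, smul_zero, add_zero, zero_add, sub_zero,
      zero_sub, smul_smul, map_add, map_sub, map_neg, smul_add, TensorProduct.map_tmul, LinearMap.id_apply,
      TensorProduct.tmul_add, TensorProduct.add_tmul, TensorProduct.tmul_smul, ← TensorProduct.smul_tmul',
      TensorProduct.tmul_zero, TensorProduct.zero_tmul,
      E0_0, E0_1, E0_2, E0_3, E0_4, E0_5, E0_6, E0_7, E1_0, E1_1, E1_2, E1_3, E1_4, E1_5, E1_6, E1_7, F0_0, F0_1, F0_2, F0_3, F0_4, F0_5, F0_6, F0_7, F1_0, F1_1, F1_2, F1_3, F1_4, F1_5, F1_6, F1_7, K0_0, K0_1, K0_2, K0_3, K0_4, K0_5, K0_6, K0_7, K1_0, K1_1, K1_2, K1_3, K1_4, K1_5, K1_6, K1_7, H0_0, H0_1, H0_2, H0_3, H0_4, H0_5, H0_6, H0_7, H1_0, H1_1, H1_2, H1_3, H1_4, H1_5, H1_6, H1_7,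
      R_0_0, R_0_1, R_0_2, R_0_3, R_0_4, R_0_5, R_0_6, R_0_7, R_1_0, R_1_1, R_1_2, R_1_3, R_1_4, R_1_5, R_1_6, R_1_7, R_2_0, R_2_1, R_2_2, R_2_3, R_2_4, R_2_5, R_2_6, R_2_7, R_3_0, R_3_1, R_3_2, R_3_3, R_3_4, R_3_5, R_3_6, R_3_7, R_4_0, R_4_1, R_4_2, R_4_3, R_4_4, R_4_5, R_4_6, R_4_7, R_5_0, R_5_1, R_5_2, R_5_3, R_5_4, R_5_5, R_5_6, R_5_7, R_6_0, R_6_1, R_6_2, R_6_3, R_6_4, R_6_5, R_6_6, R_6_7, R_7_0, R_7_1, R_7_2, R_7_3, R_7_4, R_7_5, R_7_6, R_7_7] <;>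
    try (match_scalars <;> grind))

theorem R_E1 (h : q * p = 1) :
    Rq q p * (TensorProduct.map (E1 (q + p)) (K1 q p) + TensorProduct.map LinearMap.id (E1 (q + p))) =
      (TensorProduct.map (E1 (q + p)) (K1 q p) + TensorProduct.map LinearMap.id (E1 (q + p))) * Rq q p := by
  (refine lin_ext2 (all8 ?_ ?_ ?_ ?_ ?_ ?_ ?_ ?_) <;> refine all8 ?_ ?_ ?_ ?_ ?_ ?_ ?_ ?_ <;>
    simp only [Module.End.mul_apply, LinearMap.add_apply, LinearMap.sub_apply, LinearMap.smul_apply,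
      Module.End.one_apply, LinearMap.zero_apply, map_smul, map_zero, smul_zero, add_zero, zero_add, sub_zero,
      zero_sub, smul_smul, map_add, map_sub, map_neg, smul_add, TensorProduct.map_tmul, LinearMap.id_apply,
      TensorProduct.tmul_add, TensorProduct.add_tmul, TensorProduct.tmul_smul, ← TensorProduct.smul_tmul',
      TensorProduct.tmul_zero, TensorProduct.zero_tmul,
      E0_0, E0_1, E0_2, E0_3, E0_4, E0_5, E0_6, E0_7, E1_0, E1_1, E1_2, E1_3, E1_4, E1_5, E1_6, E1_7, F0_0, F0_1, F0_2, F0_3, F0_4, F0_5, F0_6, F0_7, F1_0, F1_1, F1_2, F1_3, F1_4, F1_5, F1_6, F1_7, K0_0, K0_1, K0_2, K0_3, K0_4, K0_5, K0_6, K0_7, K1_0, K1_1, K1_2, K1_3, K1_4, K1_5, K1_6, K1_7, H0_0, H0_1, H0_2, H0_3, H0_4, H0_5, H0_6, H0_7, H1_0, H1_1, H1_2, H1_3, H1_4, H1_5, H1_6, H1_7,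
      R_0_0, R_0_1, R_0_2, R_0_3, R_0_4, R_0_5, R_0_6, R_0_7, R_1_0, R_1_1, R_1_2, R_1_3, R_1_4, R_1_5, R_1_6, R_1_7, R_2_0, R_2_1, R_2_2, R_2_3, R_2_4, R_2_5, R_2_6, R_2_7, R_3_0, R_3_1, R_3_2, R_3_3, R_3_4, R_3_5, R_3_6, R_3_7, R_4_0, R_4_1, R_4_2, R_4_3, R_4_4, R_4_5, R_4_6, R_4_7, R_5_0, R_5_1, R_5_2, R_5_3, R_5_4, R_5_5, R_5_6, R_5_7, R_6_0, R_6_1, R_6_2, R_6_3, R_6_4, R_6_5, R_6_6, R_6_7, R_7_0, R_7_1, R_7_2, R_7_3, R_7_4, R_7_5, R_7_6, R_7_7] <;>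
    try (match_scalars <;> grind))

theorem R_F0 (h : q * p = 1) :
    Rq q p * (TensorProduct.map (F0 (q + p)) LinearMap.id + TensorProduct.map (K0 p q) (F0 (q + p))) =
      (TensorProduct.map (F0 (q + p)) LinearMap.id + TensorProduct.map (K0 p q) (F0 (q + p))) * Rq q p := by
  (refine lin_ext2 (all8 ?_ ?_ ?_ ?_ ?_ ?_ ?_ ?_) <;> refine all8 ?_ ?_ ?_ ?_ ?_ ?_ ?_ ?_ <;>
    simp only [Module.End.mul_apply, LinearMap.add_apply, LinearMap.sub_apply, LinearMap.smul_apply,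
      Module.End.one_apply, LinearMap.zero_apply, map_smul, map_zero, smul_zero, add_zero, zero_add, sub_zero,
      zero_sub, smul_smul, map_add, map_sub, map_neg, smul_add, TensorProduct.map_tmul, LinearMap.id_apply,
      TensorProduct.tmul_add, TensorProduct.add_tmul, TensorProduct.tmul_smul, ← TensorProduct.smul_tmul',
      TensorProduct.tmul_zero, TensorProduct.zero_tmul,
      E0_0, E0_1, E0_2, E0_3, E0_4, E0_5, E0_6, E0_7, E1_0, E1_1, E1_2, E1_3, E1_4, E1_5, E1_6, E1_7, F0_0, F0_1, F0_2, F0_3, F0_4, F0_5, F0_6, F0_7, F1_0, F1_1, F1_2, F1_3, F1_4, F1_5, F1_6, F1_7, K0_0, K0_1, K0_2, K0_3, K0_4, K0_5, K0_6, K0_7, K1_0, K1_1, K1_2, K1_3, K1_4, K1_5, K1_6, K1_7, H0_0, H0_1, H0_2, H0_3, H0_4, H0_5, H0_6, H0_7, H1_0, H1_1, H1_2, H1_3, H1_4, H1_5, H1_6, H1_7,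
      R_0_0, R_0_1, R_0_2, R_0_3, R_0_4, R_0_5, R_0_6, R_0_7, R_1_0, R_1_1, R_1_2, R_1_3, R_1_4, R_1_5, R_1_6, R_1_7, R_2_0, R_2_1, R_2_2, R_2_3, R_2_4, R_2_5, R_2_6, R_2_7, R_3_0, R_3_1, R_3_2, R_3_3, R_3_4, R_3_5, R_3_6, R_3_7, R_4_0, R_4_1, R_4_2, R_4_3, R_4_4, R_4_5, R_4_6, R_4_7, R_5_0, R_5_1, R_5_2, R_5_3, R_5_4, R_5_5, R_5_6, R_5_7, R_6_0, R_6_1, R_6_2, R_6_3, R_6_4, R_6_5, R_6_6, R_6_7, R_7_0, R_7_1, R_7_2, R_7_3, R_7_4, R_7_5, R_7_6, R_7_7] <;>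
    try (match_scalars <;> grind))

theorem R_F1 (h : q * p = 1) :
    Rq q p * (TensorProduct.map (F1 (q + p)) LinearMap.id + TensorProduct.map (K1 p q) (F1 (q + p))) =
      (TensorProduct.map (F1 (q + p)) LinearMap.id + TensorProduct.map (K1 p q) (F1 (q + p))) * Rq q p := by
  (refine lin_ext2 (all8 ?_ ?_ ?_ ?_ ?_ ?_ ?_ ?_) <;> refine all8 ?_ ?_ ?_ ?_ ?_ ?_ ?_ ?_ <;>
    simp only [Module.End.mul_apply, LinearMap.add_apply, LinearMap.sub_apply, LinearMap.smul_apply,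
      Module.End.one_apply, LinearMap.zero_apply, map_smul, map_zero, smul_zero, add_zero, zero_add, sub_zero,
      zero_sub, smul_smul, map_add, map_sub, map_neg, smul_add, TensorProduct.map_tmul, LinearMap.id_apply,
      TensorProduct.tmul_add, TensorProduct.add_tmul, TensorProduct.tmul_smul, ← TensorProduct.smul_tmul',
      TensorProduct.tmul_zero, TensorProduct.zero_tmul,
      E0_0, E0_1, E0_2, E0_3, E0_4, E0_5, E0_6, E0_7, E1_0, E1_1, E1_2, E1_3, E1_4, E1_5, E1_6, E1_7, F0_0, F0_1, F0_2, F0_3, F0_4, F0_5, F0_6, F0_7, F1_0, F1_1, F1_2, F1_3, F1_4, F1_5, F1_6, F1_7, K0_0, K0_1, K0_2, K0_3, K0_4, K0_5, K0_6, K0_7, K1_0, K1_1, K1_2, K1_3, K1_4, K1_5, K1_6, K1_7, H0_0, H0_1, H0_2, H0_3, H0_4, H0_5, H0_6, H0_7, H1_0, H1_1, H1_2, H1_3, H1_4, H1_5, H1_6, H1_7,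
      R_0_0, R_0_1, R_0_2, R_0_3, R_0_4, R_0_5, R_0_6, R_0_7, R_1_0, R_1_1, R_1_2, R_1_3, R_1_4, R_1_5, R_1_6, R_1_7, R_2_0, R_2_1, R_2_2, R_2_3, R_2_4, R_2_5, R_2_6, R_2_7, R_3_0, R_3_1, R_3_2, R_3_3, R_3_4, R_3_5, R_3_6, R_3_7, R_4_0, R_4_1, R_4_2, R_4_3, R_4_4, R_4_5, R_4_6, R_4_7, R_5_0, R_5_1, R_5_2, R_5_3, R_5_4, R_5_5, R_5_6, R_5_7, R_6_0, R_6_1, R_6_2, R_6_3, R_6_4, R_6_5, R_6_6, R_6_7, R_7_0, R_7_1, R_7_2, R_7_3, R_7_4, R_7_5, R_7_6, R_7_7] <;>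
    try (match_scalars <;> grind))

end Pool.Agent.H630R3.BZ
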