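import Mathlib
import Pool.Agent.H630R3.BZComm

set_option autoImplicit false
set_option maxHeartbeats 4000000
set_option linter.unusedSimpArgs false
set_option linter.unusedVariables false

namespace Pool.Agent.H630R3.BZ

open scoped TensorProduct

/-- weights of the basis vectors -/
def wt : Fin 8 → Fin 2 → ℤ :=
  ![![1, 1], ![2, -1], ![-1, 2], ![0, 0], ![0, 0], ![-2, 1], ![1, -2], ![-1, -1]]

theorem z2 (q : ℂ) : q ^ (2 : ℤ) = q ^ 2 := by norm_cast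
theorem zm2 (q : ℂ) : q ^ (-2 : ℤ) = q⁻¹ ^ 2 := by rw [zpow_neg, z2, inv_pow]
theorem z1 (q : ℂ) : q ^ (1 : ℤ) = q := zpow_one _
theorem zm1 (q : ℂ) : q ^ (-1 : ℤ) = q⁻¹ := zpow_neg_one _
theorem z0 (q : ℂ) : q ^ (0 : ℤ) = 1 := zpow_zero _

theorem K_x (q : ℝ) : ∀ i j, (qM q (q : ℂ)⁻¹).K i (x j) = (q : ℂ) ^ wt j i • x j := by
  refine all2 (all8 ?_ ?_ ?_ ?_ ?_ ?_ ?_ ?_) (all8 ?_ ?_ ?_ ?_ ?_ ?_ ?_ ?_)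
  · show K0 _ _ (x 0) = (q : ℂ) ^ (1 : ℤ) • x 0
    rw [K0_0, z1]
  · show K0 _ _ (x 1) = (q : ℂ) ^ (2 : ℤ) • x 1
    rw [K0_1, z2]
  · show K0 _ _ (x 2) = (q : ℂ) ^ (-1 : ℤ) • x 2
    rw [K0_2, zm1]
  · show K0 _ _ (x 3) = (q : ℂ) ^ (0 : ℤ) • x 3
    rw [K0_3, z0, one_smul]
  · show K0 _ _ (x 4) = (q : ℂ) ^ (0 : ℤ) • x 4
    rw [K0_4, z0, one_smul]
  · show K0 _ _ (x 5) = (q : ℂ) ^ (-2 : ℤ) • x 5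
    rw [K0_5, zm2]
  · show K0 _ _ (x 6) = (q : ℂ) ^ (1 : ℤ) • x 6
    rw [K0_6, z1]
  · show K0 _ _ (x 7) = (q : ℂ) ^ (-1 : ℤ) • x 7
    rw [K0_7, zm1]
  · show K1 _ _ (x 0) = (q : ℂ) ^ (1 : ℤ) • x 0
    rw [K1_0, z1]
  · show K1 _ _ (x 1) = (q : ℂ) ^ (-1 : ℤ) • x 1
    rw [K1_1, zm1]
  · show K1 _ _ (x 2) = (q : ℂ) ^ (2 : ℤ) • x 2
    rw [K1_2, z2]
  · show K1 _ _ (x 3) = (q : ℂ) ^ (0 : ℤ) • x 3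
    rw [K1_3, z0, one_smul]
  · show K1 _ _ (x 4) = (q : ℂ) ^ (0 : ℤ) • x 4
    rw [K1_4, z0, one_smul]
  · show K1 _ _ (x 5) = (q : ℂ) ^ (1 : ℤ) • x 5
    rw [K1_5, z1]
  · show K1 _ _ (x 6) = (q : ℂ) ^ (-2 : ℤ) • x 6
    rw [K1_6, zm2]
  · show K1 _ _ (x 7) = (q : ℂ) ^ (-1 : ℤ) • x 7
    rw [K1_7, zm1]

theorem R_x0 (q : ℝ) : ∀ j, Rq q (q : ℂ)⁻¹ (x 0 ⊗ₜ[ℂ] x j) = (q : ℂ) ^ (wt j 0 + wt j 1) • (x j ⊗ₜ[ℂ] x 0) := by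
  refine all8 ?_ ?_ ?_ ?_ ?_ ?_ ?_ ?_
  · rw [R_0_0]; show _ = (q : ℂ) ^ (2 : ℤ) • _; rw [z2]
  · rw [R_0_1]; show _ = (q : ℂ) ^ (1 : ℤ) • _; rw [z1]
  · rw [R_0_2]; show _ = (q : ℂ) ^ (1 : ℤ) • _; rw [z1]
  · rw [R_0_3]; show _ = (q : ℂ) ^ (0 : ℤ) • _; rw [z0, one_smul]
  · rw [R_0_4]; show _ = (q : ℂ) ^ (0 : ℤ) • _; rw [z0, one_smul]
  · rw [R_0_5]; show _ = (q : ℂ) ^ (-1 : ℤ) • _; rw [zm1]
  · rw [R_0_6]; show _ = (q : ℂ) ^ (-1 : ℤ) • _; rw [zm1]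
  · rw [R_0_7]; show _ = (q : ℂ) ^ (-2 : ℤ) • _; rw [zm2]

/-- coordinates of weight vectors -/
theorem coord_weight (q : ℝ) (hq0 : 0 < q) (hq1 : q ≠ 1) (n : Fin 2 → ℤ) (w : V8)
    (hw : QWeight q (qM q (q : ℂ)⁻¹) n w) (j : Fin 8) : bas.repr w j = 0 ∨ wt j = n := by
  by_cases hj : bas.repr w j = 0
  · exact Or.inl hj
  right
  funext i
  have h := hw i
  have e1 : (qM q (q : ℂ)⁻¹).K i w = ∑ k, (bas.repr w k * (q : ℂ) ^ wt k i) • x k := by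
    conv_lhs => rw [← bas.sum_repr w]
    rw [map_sum]
    refine Finset.sum_congr rfl fun k _ => ?_
    rw [map_smul, bas_eq, K_x, smul_smul]
  have e2 : bas.repr ((qM q (q : ℂ)⁻¹).K i w) j = bas.repr w j * (q : ℂ) ^ wt j i := by
    rw [e1, map_sum, Finsupp.finsetSum_apply, Finset.sum_eq_single j]
    · rw [map_smul, ← bas_eq, bas.repr_self]; simp
    · intro k _ hk
      rw [map_smul, ← bas_eq, bas.repr_self]; simp [Finsupp.single_apply, hk]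
    · intro h; exact absurd (Finset.mem_univ _) h
  rw [h, map_smul, Finsupp.smul_apply, smul_eq_mul] at e2
  have e3 : (q : ℂ) ^ n i = (q : ℂ) ^ wt j i := by
    apply mul_right_cancel₀ hj
    rw [e2, mul_comm]
  have e4 : q ^ n i = q ^ wt j i := by exact_mod_cast e3
  exact (zpow_right_injective₀ hq0 hq1 e4).symm

theorem rpow_form (q : ℝ) (hq0 : 0 < q) (n : Fin 2 → ℤ) :
    ((q ^ form ![1, 1] n : ℝ) : ℂ) = (q : ℂ) ^ (n 0 + n 1) := by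
  rw [form_eq, Real.rpow_intCast]
  push_cast
  rfl

theorem isBraiding (q : ℝ) (hq0 : 0 < q) (hq1 : q ≠ 1) :
    IsBraiding q (qM q (q : ℂ)⁻¹) ![1, 1] (Rq q (q : ℂ)⁻¹) := by
  have hqc : (q : ℂ) ≠ 0 := by exact_mod_cast hq0.ne'
  have h : (q : ℂ) * (q : ℂ)⁻¹ = 1 := mul_inv_cancel₀ hqc
  refine ⟨all2 (R_E0 _ _ h) (R_E1 _ _ h), all2 (R_F0 _ _ h) (R_F1 _ _ h), all2 (R_K0 _ _ h) (R_K1 _ _ h), ?_⟩
  intro v w n hv hw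
  -- `v` is a multiple of `x 0`
  have hv0 : v = bas.repr v 0 • x 0 := by
    have hc : ∀ j : Fin 8, j ≠ 0 → bas.repr v j = 0 := by
      intro j hj
      rcases coord_weight q hq0 hq1 _ v hv.2.2 j with h1 | h1
      · exact h1
      · exfalso
        revert hj h1
        revert j
        decide
    conv_lhs => rw [← bas.sum_repr v]
    rw [Finset.sum_eq_single 0]
    · rfl
    · intro k _ hk; rw [hc k hk, zero_smul]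
    · intro h; exact absurd (Finset.mem_univ _) h
  rw [hv0, rpow_form q hq0]
  generalize bas.repr v 0 = a
  have key : Rq q (q : ℂ)⁻¹ (x 0 ⊗ₜ[ℂ] w) = (q : ℂ) ^ (n 0 + n 1) • (w ⊗ₜ[ℂ] x 0) := by
    conv_lhs => rw [← bas.sum_repr w]
    conv_rhs => rw [← bas.sum_repr w]
    rw [TensorProduct.tmul_sum, TensorProduct.sum_tmul, map_sum, Finset.smul_sum]
    refine Finset.sum_congr rfl fun k _ => ?_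
    rw [TensorProduct.tmul_smul, map_smul, bas_eq, R_x0, ← TensorProduct.smul_tmul', smul_comm]
    rcases coord_weight q hq0 hq1 n w hw k with h1 | h1
    · rw [h1]; simp only [zero_smul, smul_zero, TensorProduct.zero_tmul]
    · rw [h1]
  rw [← TensorProduct.smul_tmul', map_smul, key, TensorProduct.tmul_smul, smul_comm]

/-- the braiding is unique -/
theorem braiding_unique (q : ℝ) (hq0 : 0 < q) (hq1 : q ≠ 1) (R : Module.End ℂ (V8 ⊗[ℂ] V8))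
    (hR : IsBraiding q (qM q (q : ℂ)⁻¹) ![1, 1] R) : R = Rq q (q : ℂ)⁻¹ := by
  have hS := isBraiding q hq0 hq1
  have h0 : ∀ w, R (x 0 ⊗ₜ[ℂ] w) = Rq q (q : ℂ)⁻¹ (x 0 ⊗ₜ[ℂ] w) := by
    intro w
    have h1 : ∀ j, R (x 0 ⊗ₜ[ℂ] x j) = Rq q (q : ℂ)⁻¹ (x 0 ⊗ₜ[ℂ] x j) := by
      intro j
      have hhw : QHighest q (qM q (q : ℂ)⁻¹) ![1, 1] (x 0) := by
        refine ⟨x_ne_zero 0, all2 (E0_0 _) (E1_0 _), ?_⟩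
        intro i
        rw [K_x]
        rfl
      rw [hR.highest (x 0) (x j) (wt j) hhw (fun i => K_x q i j),
        hS.highest (x 0) (x j) (wt j) hhw (fun i => K_x q i j)]
    rw [← bas.sum_repr w, TensorProduct.tmul_sum, map_sum, map_sum]
    refine Finset.sum_congr rfl fun k _ => ?_
    rw [TensorProduct.tmul_smul, map_smul, map_smul, bas_eq, h1]
  -- propagation by the lowering operators
  have step : ∀ (g : Fin 2) (v : V8), (∀ w, R (v ⊗ₜ[ℂ] w) = Rq q (q : ℂ)⁻¹ (v ⊗ₜ[ℂ] w)) →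
      (∀ w, R ((qM q (q : ℂ)⁻¹).Kinv g v ⊗ₜ[ℂ] w) = Rq q (q : ℂ)⁻¹ ((qM q (q : ℂ)⁻¹).Kinv g v ⊗ₜ[ℂ] w)) →
      ∀ w, R ((qM q (q : ℂ)⁻¹).F g v ⊗ₜ[ℂ] w) = Rq q (q : ℂ)⁻¹ ((qM q (q : ℂ)⁻¹).F g v ⊗ₜ[ℂ] w) := by
    intro g v hv hKv w
    have e1 := LinearMap.congr_fun (hR.comm_F g) (v ⊗ₜ[ℂ] w)
    have e2 := LinearMap.congr_fun (hS.comm_F g) (v ⊗ₜ[ℂ] w)
    simp only [Module.End.mul_apply] at e1 e2
    rw [← hv w] at e2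
    have e3 := e1.trans e2.symm
    simp only [QOps.tensor, LinearMap.add_apply, TensorProduct.map_tmul, LinearMap.id_apply, map_add] at e3
    rw [hKv] at e3
    exact add_right_cancel e3
  have smulP : ∀ (v : V8) (a : ℂ), (∀ w, R (v ⊗ₜ[ℂ] w) = Rq q (q : ℂ)⁻¹ (v ⊗ₜ[ℂ] w)) →
      ∀ w, R ((a • v) ⊗ₜ[ℂ] w) = Rq q (q : ℂ)⁻¹ ((a • v) ⊗ₜ[ℂ] w) := by
    intro v a hv w
    rw [← TensorProduct.smul_tmul', map_smul, map_smul, hv]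
  have k0 : ∀ j, ∃ a : ℂ, (qM q (q : ℂ)⁻¹).Kinv 0 (x j) = a • x j :=
    all8 ⟨_, K0_0 _ _⟩ ⟨_, K0_1 _ _⟩ ⟨_, K0_2 _ _⟩ ⟨1, by rw [one_smul]; exact K0_3 _ _⟩
      ⟨1, by rw [one_smul]; exact K0_4 _ _⟩ ⟨_, K0_5 _ _⟩ ⟨_, K0_6 _ _⟩ ⟨_, K0_7 _ _⟩
  have k1 : ∀ j, ∃ a : ℂ, (qM q (q : ℂ)⁻¹).Kinv 1 (x j) = a • x j :=
    all8 ⟨_, K1_0 _ _⟩ ⟨_, K1_1 _ _⟩ ⟨_, K1_2 _ _⟩ ⟨1, by rw [one_smul]; exact K1_3 _ _⟩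
      ⟨1, by rw [one_smul]; exact K1_4 _ _⟩ ⟨_, K1_5 _ _⟩ ⟨_, K1_6 _ _⟩ ⟨_, K1_7 _ _⟩
  have step' : ∀ (g : Fin 2) (j : Fin 8), (∀ w, R (x j ⊗ₜ[ℂ] w) = Rq q (q : ℂ)⁻¹ (x j ⊗ₜ[ℂ] w)) →
      ∀ w, R ((qM q (q : ℂ)⁻¹).F g (x j) ⊗ₜ[ℂ] w) = Rq q (q : ℂ)⁻¹ ((qM q (q : ℂ)⁻¹).F g (x j) ⊗ₜ[ℂ] w) := by
    intro g j hj
    refine step g _ hj ?_
    obtain ⟨a, ha⟩ := (all2 (P := fun g => ∃ a : ℂ, (qM q (q : ℂ)⁻¹).Kinv g (x j) = a • x j) (k0 j) (k1 j)) g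
    rw [ha]
    exact smulP _ _ hj
  have f0 : ∀ v, (qM q (q : ℂ)⁻¹).F 0 v = F0 ((q : ℂ) + (q : ℂ)⁻¹) v := fun v => rfl
  have f1 : ∀ v, (qM q (q : ℂ)⁻¹).F 1 v = F1 ((q : ℂ) + (q : ℂ)⁻¹) v := fun v => rfl
  have h1 : ∀ w, R (x 1 ⊗ₜ[ℂ] w) = Rq q (q : ℂ)⁻¹ (x 1 ⊗ₜ[ℂ] w) := by
    have := step' 1 0 h0; simpa only [f1, F1_0] using this
  have h2 : ∀ w, R (x 2 ⊗ₜ[ℂ] w) = Rq q (q : ℂ)⁻¹ (x 2 ⊗ₜ[ℂ] w) := by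
    have := step' 0 0 h0; simpa only [f0, F0_0] using this
  have h3 : ∀ w, R (x 3 ⊗ₜ[ℂ] w) = Rq q (q : ℂ)⁻¹ (x 3 ⊗ₜ[ℂ] w) := by
    have := step' 0 1 h1; simpa only [f0, F0_1] using this
  have h4 : ∀ w, R (x 4 ⊗ₜ[ℂ] w) = Rq q (q : ℂ)⁻¹ (x 4 ⊗ₜ[ℂ] w) := by
    have := step' 1 2 h2; simpa only [f1, F1_2] using this
  have h5 : ∀ w, R (x 5 ⊗ₜ[ℂ] w) = Rq q (q : ℂ)⁻¹ (x 5 ⊗ₜ[ℂ] w) := by
    have := step' 0 4 h4; simpa only [f0, F0_4] using this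
  have h6 : ∀ w, R (x 6 ⊗ₜ[ℂ] w) = Rq q (q : ℂ)⁻¹ (x 6 ⊗ₜ[ℂ] w) := by
    have := step' 1 3 h3; simpa only [f1, F1_3] using this
  have h7 : ∀ w, R (x 7 ⊗ₜ[ℂ] w) = Rq q (q : ℂ)⁻¹ (x 7 ⊗ₜ[ℂ] w) := by
    have := step' 0 6 h6; simpa only [f0, F0_6] using this
  apply lin_ext2
  intro i j
  exact all8 (P := fun i => ∀ w, R (x i ⊗ₜ[ℂ] w) = Rq q (q : ℂ)⁻¹ (x i ⊗ₜ[ℂ] w)) h0 h1 h2 h3 h4 h5 h6 h7 i (x j)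

end Pool.Agent.H630R3.BZ
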