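import Mathlib
import Pool.Agent.H630R3.BZComm

set_option autoImplicit false
set_option maxHeartbeats 4000000
set_option linter.unusedSimpArgs false
set_option linter.unusedVariables false

namespace Pool.Agent.H630R3.BZ

open scoped TensorProduct

/-- equivariant maps `V → V ⊗ V` -/
noncomputable def Jtab (q p s : ℂ) : Fin 8 → V8 ⊗[ℂ] V8 :=
  ![((q ^ 3) * s : ℂ) • (x 0 ⊗ₜ[ℂ] x 3) + (q ^ 3 : ℂ) • (x 0 ⊗ₜ[ℂ] x 4) + (-q ^ 2 - 1 + (-q) * s : ℂ) • (x 1 ⊗ₜ[ℂ] x 2) + (-q + (-q ^ 2 - 1) * s : ℂ) • (x 2 ⊗ₜ[ℂ] x 1) + (x 3 ⊗ₜ[ℂ] x 0) + ((1) * s : ℂ) • (x 4 ⊗ₜ[ℂ] x 0),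
    (q ^ 3 + q + (q ^ 2) * s : ℂ) • (x 0 ⊗ₜ[ℂ] x 6) + ((q ^ 3) * s : ℂ) • (x 1 ⊗ₜ[ℂ] x 3) + (-q + (-q ^ 2) * s : ℂ) • (x 1 ⊗ₜ[ℂ] x 4) + (x 3 ⊗ₜ[ℂ] x 1) + (-q + (-q ^ 2) * s : ℂ) • (x 4 ⊗ₜ[ℂ] x 1) + (1 + (q + p) * s : ℂ) • (x 6 ⊗ₜ[ℂ] x 0),
    (q ^ 2 + (q ^ 3 + q) * s : ℂ) • (x 0 ⊗ₜ[ℂ] x 5) + (-q ^ 2 + (-q) * s : ℂ) • (x 2 ⊗ₜ[ℂ] x 3) + (q ^ 3 : ℂ) • (x 2 ⊗ₜ[ℂ] x 4) + (-q ^ 2 + (-q) * s : ℂ) • (x 3 ⊗ₜ[ℂ] x 2) + ((1) * s : ℂ) • (x 4 ⊗ₜ[ℂ] x 2) + (q + p + (1) * s : ℂ) • (x 5 ⊗ₜ[ℂ] x 0),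
    (q ^ 2 + 1 + (q) * s : ℂ) • (x 0 ⊗ₜ[ℂ] x 7) + (-p + (q ^ 2) * s : ℂ) • (x 1 ⊗ₜ[ℂ] x 5) + (q ^ 3 + q + (q ^ 2) * s : ℂ) • (x 2 ⊗ₜ[ℂ] x 6) + (1 + (q ^ 3) * s : ℂ) • (x 3 ⊗ₜ[ℂ] x 3) + (-q + (-q ^ 2) * s : ℂ) • (x 3 ⊗ₜ[ℂ] x 4) + (-q + (-q ^ 2) * s : ℂ) • (x 4 ⊗ₜ[ℂ] x 3) + (p + (-q ^ 2) * s : ℂ) • (x 5 ⊗ₜ[ℂ] x 1) + (p + (1 + p ^ 2) * s : ℂ) • (x 6 ⊗ₜ[ℂ] x 2) + (1 + (q + p) * s : ℂ) • (x 7 ⊗ₜ[ℂ] x 0),
    (q + (q ^ 2 + 1) * s : ℂ) • (x 0 ⊗ₜ[ℂ] x 7) + (q ^ 2 + (q ^ 3 + q) * s : ℂ) • (x 1 ⊗ₜ[ℂ] x 5) + (q ^ 2 + (-p) * s : ℂ) • (x 2 ⊗ₜ[ℂ] x 6) + (-q ^ 2 + (-q) * s : ℂ) • (x 3 ⊗ₜ[ℂ] x 4) + (-q ^ 2 + (-q) * s : ℂ) • (x 4 ⊗ₜ[ℂ] x 3) + (q ^ 3 + (1) * s : ℂ) • (x 4 ⊗ₜ[ℂ] x 4) + (1 + p ^ 2 + (p) * s : ℂ) • (x 5 ⊗ₜ[ℂ] x 1) + (-q ^ 2 + (p) * s : ℂ) • (x 6 ⊗ₜ[ℂ] x 2) + (q + p + (1) * s : ℂ) • (x 7 ⊗ₜ[ℂ] x 0),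
    (q ^ 3 + q + (q ^ 2) * s : ℂ) • (x 2 ⊗ₜ[ℂ] x 7) + ((q ^ 3) * s : ℂ) • (x 3 ⊗ₜ[ℂ] x 5) + (-q + (-q ^ 2) * s : ℂ) • (x 4 ⊗ₜ[ℂ] x 5) + (x 5 ⊗ₜ[ℂ] x 3) + (-q + (-q ^ 2) * s : ℂ) • (x 5 ⊗ₜ[ℂ] x 4) + (1 + (q + p) * s : ℂ) • (x 7 ⊗ₜ[ℂ] x 2),
    (q ^ 2 + (q ^ 3 + q) * s : ℂ) • (x 1 ⊗ₜ[ℂ] x 7) + (-q ^ 2 + (-q) * s : ℂ) • (x 3 ⊗ₜ[ℂ] x 6) + (q ^ 3 : ℂ) • (x 4 ⊗ₜ[ℂ] x 6) + (-q ^ 2 + (-q) * s : ℂ) • (x 6 ⊗ₜ[ℂ] x 3) + ((1) * s : ℂ) • (x 6 ⊗ₜ[ℂ] x 4) + (q + p + (1) * s : ℂ) • (x 7 ⊗ₜ[ℂ] x 1),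
    ((q ^ 3) * s : ℂ) • (x 3 ⊗ₜ[ℂ] x 7) + (q ^ 3 : ℂ) • (x 4 ⊗ₜ[ℂ] x 7) + (-q + (-q ^ 2 - 1) * s : ℂ) • (x 5 ⊗ₜ[ℂ] x 6) + (-q ^ 2 - 1 + (-q) * s : ℂ) • (x 6 ⊗ₜ[ℂ] x 5) + (x 7 ⊗ₜ[ℂ] x 3) + ((1) * s : ℂ) • (x 7 ⊗ₜ[ℂ] x 4)]

noncomputable def J (q p s : ℂ) : V8 →ₗ[ℂ] V8 ⊗[ℂ] V8 := lin (Jtab q p s)

theorem J_0 (q p s : ℂ) : J q p s (x 0) = ((q ^ 3) * s : ℂ) • (x 0 ⊗ₜ[ℂ] x 3) + (q ^ 3 : ℂ) • (x 0 ⊗ₜ[ℂ] x 4) + (-q ^ 2 - 1 + (-q) * s : ℂ) • (x 1 ⊗ₜ[ℂ] x 2) + (-q + (-q ^ 2 - 1) * s : ℂ) • (x 2 ⊗ₜ[ℂ] x 1) + (x 3 ⊗ₜ[ℂ] x 0) + ((1) * s : ℂ) • (x 4 ⊗ₜ[ℂ] x 0) := lin_x _ _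
theorem J_1 (q p s : ℂ) : J q p s (x 1) = (q ^ 3 + q + (q ^ 2) * s : ℂ) • (x 0 ⊗ₜ[ℂ] x 6) + ((q ^ 3) * s : ℂ) • (x 1 ⊗ₜ[ℂ] x 3) + (-q + (-q ^ 2) * s : ℂ) • (x 1 ⊗ₜ[ℂ] x 4) + (x 3 ⊗ₜ[ℂ] x 1) + (-q + (-q ^ 2) * s : ℂ) • (x 4 ⊗ₜ[ℂ] x 1) + (1 + (q + p) * s : ℂ) • (x 6 ⊗ₜ[ℂ] x 0) := lin_x _ _
theorem J_2 (q p s : ℂ) : J q p s (x 2) = (q ^ 2 + (q ^ 3 + q) * s : ℂ) • (x 0 ⊗ₜ[ℂ] x 5) + (-q ^ 2 + (-q) * s : ℂ) • (x 2 ⊗ₜ[ℂ] x 3) + (q ^ 3 : ℂ) • (x 2 ⊗ₜ[ℂ] x 4) + (-q ^ 2 + (-q) * s : ℂ) • (x 3 ⊗ₜ[ℂ] x 2) + ((1) * s : ℂ) • (x 4 ⊗ₜ[ℂ] x 2) + (q + p + (1) * s : ℂ) • (x 5 ⊗ₜ[ℂ] x 0) := lin_x _ _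
theorem J_3 (q p s : ℂ) : J q p s (x 3) = (q ^ 2 + 1 + (q) * s : ℂ) • (x 0 ⊗ₜ[ℂ] x 7) + (-p + (q ^ 2) * s : ℂ) • (x 1 ⊗ₜ[ℂ] x 5) + (q ^ 3 + q + (q ^ 2) * s : ℂ) • (x 2 ⊗ₜ[ℂ] x 6) + (1 + (q ^ 3) * s : ℂ) • (x 3 ⊗ₜ[ℂ] x 3) + (-q + (-q ^ 2) * s : ℂ) • (x 3 ⊗ₜ[ℂ] x 4) + (-q + (-q ^ 2) * s : ℂ) • (x 4 ⊗ₜ[ℂ] x 3) + (p + (-q ^ 2) * s : ℂ) • (x 5 ⊗ₜ[ℂ] x 1) + (p + (1 + p ^ 2) * s : ℂ) • (x 6 ⊗ₜ[ℂ] x 2) + (1 + (q + p) * s : ℂ) • (x 7 ⊗ₜ[ℂ] x 0) := lin_x _ _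
theorem J_4 (q p s : ℂ) : J q p s (x 4) = (q + (q ^ 2 + 1) * s : ℂ) • (x 0 ⊗ₜ[ℂ] x 7) + (q ^ 2 + (q ^ 3 + q) * s : ℂ) • (x 1 ⊗ₜ[ℂ] x 5) + (q ^ 2 + (-p) * s : ℂ) • (x 2 ⊗ₜ[ℂ] x 6) + (-q ^ 2 + (-q) * s : ℂ) • (x 3 ⊗ₜ[ℂ] x 4) + (-q ^ 2 + (-q) * s : ℂ) • (x 4 ⊗ₜ[ℂ] x 3) + (q ^ 3 + (1) * s : ℂ) • (x 4 ⊗ₜ[ℂ] x 4) + (1 + p ^ 2 + (p) * s : ℂ) • (x 5 ⊗ₜ[ℂ] x 1) + (-q ^ 2 + (p) * s : ℂ) • (x 6 ⊗ₜ[ℂ] x 2) + (q + p + (1) * s : ℂ) • (x 7 ⊗ₜ[ℂ] x 0) := lin_x _ _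
theorem J_5 (q p s : ℂ) : J q p s (x 5) = (q ^ 3 + q + (q ^ 2) * s : ℂ) • (x 2 ⊗ₜ[ℂ] x 7) + ((q ^ 3) * s : ℂ) • (x 3 ⊗ₜ[ℂ] x 5) + (-q + (-q ^ 2) * s : ℂ) • (x 4 ⊗ₜ[ℂ] x 5) + (x 5 ⊗ₜ[ℂ] x 3) + (-q + (-q ^ 2) * s : ℂ) • (x 5 ⊗ₜ[ℂ] x 4) + (1 + (q + p) * s : ℂ) • (x 7 ⊗ₜ[ℂ] x 2) := lin_x _ _
theorem J_6 (q p s : ℂ) : J q p s (x 6) = (q ^ 2 + (q ^ 3 + q) * s : ℂ) • (x 1 ⊗ₜ[ℂ] x 7) + (-q ^ 2 + (-q) * s : ℂ) • (x 3 ⊗ₜ[ℂ] x 6) + (q ^ 3 : ℂ) • (x 4 ⊗ₜ[ℂ] x 6) + (-q ^ 2 + (-q) * s : ℂ) • (x 6 ⊗ₜ[ℂ] x 3) + ((1) * s : ℂ) • (x 6 ⊗ₜ[ℂ] x 4) + (q + p + (1) * s : ℂ) • (x 7 ⊗ₜ[ℂ] x 1) := lin_x _ _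
theorem J_7 (q p s : ℂ) : J q p s (x 7) = ((q ^ 3) * s : ℂ) • (x 3 ⊗ₜ[ℂ] x 7) + (q ^ 3 : ℂ) • (x 4 ⊗ₜ[ℂ] x 7) + (-q + (-q ^ 2 - 1) * s : ℂ) • (x 5 ⊗ₜ[ℂ] x 6) + (-q ^ 2 - 1 + (-q) * s : ℂ) • (x 6 ⊗ₜ[ℂ] x 5) + (x 7 ⊗ₜ[ℂ] x 3) + ((1) * s : ℂ) • (x 7 ⊗ₜ[ℂ] x 4) := lin_x _ _

/-- the invariant of `V ⊗ V` -/
noncomputable def cv (q p : ℂ) : V8 ⊗[ℂ] V8 :=
  (q ^ 6 + q ^ 4 + q ^ 2 : ℂ) • (x 0 ⊗ₜ[ℂ] x 7) + (-q ^ 5 - q ^ 3 - q : ℂ) • (x 1 ⊗ₜ[ℂ] x 5) + (-q ^ 5 - q ^ 3 - q : ℂ) • (x 2 ⊗ₜ[ℂ] x 6) + (q ^ 4 + q ^ 2 : ℂ) • (x 3 ⊗ₜ[ℂ] x 3) + (-q ^ 3 : ℂ) • (x 3 ⊗ₜ[ℂ] x 4) + (-q ^ 3 : ℂ) • (x 4 ⊗ₜ[ℂ] x 3) + (q ^ 4 + q ^ 2 : ℂ) • (x 4 ⊗ₜ[ℂ] x 4) + (-q ^ 3 - q - p : ℂ) • (x 5 ⊗ₜ[ℂ] x 1) + (-q ^ 3 - q - p : ℂ) • (x 6 ⊗ₜ[ℂ] x 2) + (q ^ 2 + 1 + p ^ 2 : ℂ) • (x 7 ⊗ₜ[ℂ] x 0)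

variable (q p s : ℂ)

theorem J_E0 (h : q * p = 1) :
    (TensorProduct.map (E0 (q + p)) (K0 q p) + TensorProduct.map LinearMap.id (E0 (q + p))) ∘ₗ J q p s =
      J q p s ∘ₗ E0 (q + p) := by
  (refine lin_ext (all8 ?_ ?_ ?_ ?_ ?_ ?_ ?_ ?_) <;>
    simp only [Module.End.mul_apply, LinearMap.add_apply, LinearMap.sub_apply, LinearMap.smul_apply,
      Module.End.one_apply, LinearMap.zero_apply, map_smul, map_zero, smul_zero, add_zero, zero_add, sub_zero,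
      zero_sub, smul_smul, map_add, map_sub, map_neg, smul_add, TensorProduct.map_tmul, LinearMap.id_apply,
      LinearMap.comp_apply, TensorProduct.comm_tmul, LinearEquiv.coe_coe,
      TensorProduct.tmul_add, TensorProduct.add_tmul, TensorProduct.tmul_smul, ← TensorProduct.smul_tmul',
      TensorProduct.tmul_zero, TensorProduct.zero_tmul,
      E0_0, E0_1, E0_2, E0_3, E0_4, E0_5, E0_6, E0_7, E1_0, E1_1, E1_2, E1_3, E1_4, E1_5, E1_6, E1_7, F0_0, F0_1, F0_2, F0_3, F0_4, F0_5, F0_6, F0_7, F1_0, F1_1, F1_2, F1_3, F1_4, F1_5, F1_6, F1_7, K0_0, K0_1, K0_2, K0_3, K0_4, K0_5, K0_6, K0_7, K1_0, K1_1, K1_2, K1_3, K1_4, K1_5, K1_6, K1_7, H0_0, H0_1, H0_2, H0_3, H0_4, H0_5, H0_6, H0_7, H1_0, H1_1, H1_2, H1_3, H1_4, H1_5, H1_6, H1_7,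
      J_0, J_1, J_2, J_3, J_4, J_5, J_6, J_7,
      R_0_0, R_0_1, R_0_2, R_0_3, R_0_4, R_0_5, R_0_6, R_0_7, R_1_0, R_1_1, R_1_2, R_1_3, R_1_4, R_1_5, R_1_6, R_1_7, R_2_0, R_2_1, R_2_2, R_2_3, R_2_4, R_2_5, R_2_6, R_2_7, R_3_0, R_3_1, R_3_2, R_3_3, R_3_4, R_3_5, R_3_6, R_3_7, R_4_0, R_4_1, R_4_2, R_4_3, R_4_4, R_4_5, R_4_6, R_4_7, R_5_0, R_5_1, R_5_2, R_5_3, R_5_4, R_5_5, R_5_6, R_5_7, R_6_0, R_6_1, R_6_2, R_6_3, R_6_4, R_6_5, R_6_6, R_6_7, R_7_0, R_7_1, R_7_2, R_7_3, R_7_4, R_7_5, R_7_6, R_7_7] <;>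
    try (match_scalars <;> grind))
theorem J_E1 (h : q * p = 1) :
    (TensorProduct.map (E1 (q + p)) (K1 q p) + TensorProduct.map LinearMap.id (E1 (q + p))) ∘ₗ J q p s =
      J q p s ∘ₗ E1 (q + p) := by
  (refine lin_ext (all8 ?_ ?_ ?_ ?_ ?_ ?_ ?_ ?_) <;>
    simp only [Module.End.mul_apply, LinearMap.add_apply, LinearMap.sub_apply, LinearMap.smul_apply,
      Module.End.one_apply, LinearMap.zero_apply, map_smul, map_zero, smul_zero, add_zero, zero_add, sub_zero,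
      zero_sub, smul_smul, map_add, map_sub, map_neg, smul_add, TensorProduct.map_tmul, LinearMap.id_apply,
      LinearMap.comp_apply, TensorProduct.comm_tmul, LinearEquiv.coe_coe,
      TensorProduct.tmul_add, TensorProduct.add_tmul, TensorProduct.tmul_smul, ← TensorProduct.smul_tmul',
      TensorProduct.tmul_zero, TensorProduct.zero_tmul,
      E0_0, E0_1, E0_2, E0_3, E0_4, E0_5, E0_6, E0_7, E1_0, E1_1, E1_2, E1_3, E1_4, E1_5, E1_6, E1_7, F0_0, F0_1, F0_2, F0_3, F0_4, F0_5, F0_6, F0_7, F1_0, F1_1, F1_2, F1_3, F1_4, F1_5, F1_6, F1_7, K0_0, K0_1, K0_2, K0_3, K0_4, K0_5, K0_6, K0_7, K1_0, K1_1, K1_2, K1_3, K1_4, K1_5, K1_6, K1_7, H0_0, H0_1, H0_2, H0_3, H0_4, H0_5, H0_6, H0_7, H1_0, H1_1, H1_2, H1_3, H1_4, H1_5, H1_6, H1_7,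
      J_0, J_1, J_2, J_3, J_4, J_5, J_6, J_7,
      R_0_0, R_0_1, R_0_2, R_0_3, R_0_4, R_0_5, R_0_6, R_0_7, R_1_0, R_1_1, R_1_2, R_1_3, R_1_4, R_1_5, R_1_6, R_1_7, R_2_0, R_2_1, R_2_2, R_2_3, R_2_4, R_2_5, R_2_6, R_2_7, R_3_0, R_3_1, R_3_2, R_3_3, R_3_4, R_3_5, R_3_6, R_3_7, R_4_0, R_4_1, R_4_2, R_4_3, R_4_4, R_4_5, R_4_6, R_4_7, R_5_0, R_5_1, R_5_2, R_5_3, R_5_4, R_5_5, R_5_6, R_5_7, R_6_0, R_6_1, R_6_2, R_6_3, R_6_4, R_6_5, R_6_6, R_6_7, R_7_0, R_7_1, R_7_2, R_7_3, R_7_4, R_7_5, R_7_6, R_7_7] <;>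
    try (match_scalars <;> grind))
theorem J_F0 (h : q * p = 1) :
    (TensorProduct.map (F0 (q + p)) LinearMap.id + TensorProduct.map (K0 p q) (F0 (q + p))) ∘ₗ J q p s =
      J q p s ∘ₗ F0 (q + p) := by
  (refine lin_ext (all8 ?_ ?_ ?_ ?_ ?_ ?_ ?_ ?_) <;>
    simp only [Module.End.mul_apply, LinearMap.add_apply, LinearMap.sub_apply, LinearMap.smul_apply,
      Module.End.one_apply, LinearMap.zero_apply, map_smul, map_zero, smul_zero, add_zero, zero_add, sub_zero,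
      zero_sub, smul_smul, map_add, map_sub, map_neg, smul_add, TensorProduct.map_tmul, LinearMap.id_apply,
      LinearMap.comp_apply, TensorProduct.comm_tmul, LinearEquiv.coe_coe,
      TensorProduct.tmul_add, TensorProduct.add_tmul, TensorProduct.tmul_smul, ← TensorProduct.smul_tmul',
      TensorProduct.tmul_zero, TensorProduct.zero_tmul,
      E0_0, E0_1, E0_2, E0_3, E0_4, E0_5, E0_6, E0_7, E1_0, E1_1, E1_2, E1_3, E1_4, E1_5, E1_6, E1_7, F0_0, F0_1, F0_2, F0_3, F0_4, F0_5, F0_6, F0_7, F1_0, F1_1, F1_2, F1_3, F1_4, F1_5, F1_6, F1_7, K0_0, K0_1, K0_2, K0_3, K0_4, K0_5, K0_6, K0_7, K1_0, K1_1, K1_2, K1_3, K1_4, K1_5, K1_6, K1_7, H0_0, H0_1, H0_2, H0_3, H0_4, H0_5, H0_6, H0_7, H1_0, H1_1, H1_2, H1_3, H1_4, H1_5, H1_6, H1_7,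
      J_0, J_1, J_2, J_3, J_4, J_5, J_6, J_7,
      R_0_0, R_0_1, R_0_2, R_0_3, R_0_4, R_0_5, R_0_6, R_0_7, R_1_0, R_1_1, R_1_2, R_1_3, R_1_4, R_1_5, R_1_6, R_1_7, R_2_0, R_2_1, R_2_2, R_2_3, R_2_4, R_2_5, R_2_6, R_2_7, R_3_0, R_3_1, R_3_2, R_3_3, R_3_4, R_3_5, R_3_6, R_3_7, R_4_0, R_4_1, R_4_2, R_4_3, R_4_4, R_4_5, R_4_6, R_4_7, R_5_0, R_5_1, R_5_2, R_5_3, R_5_4, R_5_5, R_5_6, R_5_7, R_6_0, R_6_1, R_6_2, R_6_3, R_6_4, R_6_5, R_6_6, R_6_7, R_7_0, R_7_1, R_7_2, R_7_3, R_7_4, R_7_5, R_7_6, R_7_7] <;>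
    try (match_scalars <;> grind))
theorem J_F1 (h : q * p = 1) :
    (TensorProduct.map (F1 (q + p)) LinearMap.id + TensorProduct.map (K1 p q) (F1 (q + p))) ∘ₗ J q p s =
      J q p s ∘ₗ F1 (q + p) := by
  (refine lin_ext (all8 ?_ ?_ ?_ ?_ ?_ ?_ ?_ ?_) <;>
    simp only [Module.End.mul_apply, LinearMap.add_apply, LinearMap.sub_apply, LinearMap.smul_apply,
      Module.End.one_apply, LinearMap.zero_apply, map_smul, map_zero, smul_zero, add_zero, zero_add, sub_zero,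
      zero_sub, smul_smul, map_add, map_sub, map_neg, smul_add, TensorProduct.map_tmul, LinearMap.id_apply,
      LinearMap.comp_apply, TensorProduct.comm_tmul, LinearEquiv.coe_coe,
      TensorProduct.tmul_add, TensorProduct.add_tmul, TensorProduct.tmul_smul, ← TensorProduct.smul_tmul',
      TensorProduct.tmul_zero, TensorProduct.zero_tmul,
      E0_0, E0_1, E0_2, E0_3, E0_4, E0_5, E0_6, E0_7, E1_0, E1_1, E1_2, E1_3, E1_4, E1_5, E1_6, E1_7, F0_0, F0_1, F0_2, F0_3, F0_4, F0_5, F0_6, F0_7, F1_0, F1_1, F1_2, F1_3, F1_4, F1_5, F1_6, F1_7, K0_0, K0_1, K0_2, K0_3, K0_4, K0_5, K0_6, K0_7, K1_0, K1_1, K1_2, K1_3, K1_4, K1_5, K1_6, K1_7, H0_0, H0_1, H0_2, H0_3, H0_4, H0_5, H0_6, H0_7, H1_0, H1_1, H1_2, H1_3, H1_4, H1_5, H1_6, H1_7,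
      J_0, J_1, J_2, J_3, J_4, J_5, J_6, J_7,
      R_0_0, R_0_1, R_0_2, R_0_3, R_0_4, R_0_5, R_0_6, R_0_7, R_1_0, R_1_1, R_1_2, R_1_3, R_1_4, R_1_5, R_1_6, R_1_7, R_2_0, R_2_1, R_2_2, R_2_3, R_2_4, R_2_5, R_2_6, R_2_7, R_3_0, R_3_1, R_3_2, R_3_3, R_3_4, R_3_5, R_3_6, R_3_7, R_4_0, R_4_1, R_4_2, R_4_3, R_4_4, R_4_5, R_4_6, R_4_7, R_5_0, R_5_1, R_5_2, R_5_3, R_5_4, R_5_5, R_5_6, R_5_7, R_6_0, R_6_1, R_6_2, R_6_3, R_6_4, R_6_5, R_6_6, R_6_7, R_7_0, R_7_1, R_7_2, R_7_3, R_7_4, R_7_5, R_7_6, R_7_7] <;>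
    try (match_scalars <;> grind))
theorem J_K0 (h : q * p = 1) :
    TensorProduct.map (K0 q p) (K0 q p) ∘ₗ J q p s = J q p s ∘ₗ K0 q p := by
  (refine lin_ext (all8 ?_ ?_ ?_ ?_ ?_ ?_ ?_ ?_) <;>
    simp only [Module.End.mul_apply, LinearMap.add_apply, LinearMap.sub_apply, LinearMap.smul_apply,
      Module.End.one_apply, LinearMap.zero_apply, map_smul, map_zero, smul_zero, add_zero, zero_add, sub_zero,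
      zero_sub, smul_smul, map_add, map_sub, map_neg, smul_add, TensorProduct.map_tmul, LinearMap.id_apply,
      LinearMap.comp_apply, TensorProduct.comm_tmul, LinearEquiv.coe_coe,
      TensorProduct.tmul_add, TensorProduct.add_tmul, TensorProduct.tmul_smul, ← TensorProduct.smul_tmul',
      TensorProduct.tmul_zero, TensorProduct.zero_tmul,
      E0_0, E0_1, E0_2, E0_3, E0_4, E0_5, E0_6, E0_7, E1_0, E1_1, E1_2, E1_3, E1_4, E1_5, E1_6, E1_7, F0_0, F0_1, F0_2, F0_3, F0_4, F0_5, F0_6, F0_7, F1_0, F1_1, F1_2, F1_3, F1_4, F1_5, F1_6, F1_7, K0_0, K0_1, K0_2, K0_3, K0_4, K0_5, K0_6, K0_7, K1_0, K1_1, K1_2, K1_3, K1_4, K1_5, K1_6, K1_7, H0_0, H0_1, H0_2, H0_3, H0_4, H0_5, H0_6, H0_7, H1_0, H1_1, H1_2, H1_3, H1_4, H1_5, H1_6, H1_7,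
      J_0, J_1, J_2, J_3, J_4, J_5, J_6, J_7,
      R_0_0, R_0_1, R_0_2, R_0_3, R_0_4, R_0_5, R_0_6, R_0_7, R_1_0, R_1_1, R_1_2, R_1_3, R_1_4, R_1_5, R_1_6, R_1_7, R_2_0, R_2_1, R_2_2, R_2_3, R_2_4, R_2_5, R_2_6, R_2_7, R_3_0, R_3_1, R_3_2, R_3_3, R_3_4, R_3_5, R_3_6, R_3_7, R_4_0, R_4_1, R_4_2, R_4_3, R_4_4, R_4_5, R_4_6, R_4_7, R_5_0, R_5_1, R_5_2, R_5_3, R_5_4, R_5_5, R_5_6, R_5_7, R_6_0, R_6_1, R_6_2, R_6_3, R_6_4, R_6_5, R_6_6, R_6_7, R_7_0, R_7_1, R_7_2, R_7_3, R_7_4, R_7_5, R_7_6, R_7_7] <;>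
    try (match_scalars <;> grind))
theorem J_K1 (h : q * p = 1) :
    TensorProduct.map (K1 q p) (K1 q p) ∘ₗ J q p s = J q p s ∘ₗ K1 q p := by
  (refine lin_ext (all8 ?_ ?_ ?_ ?_ ?_ ?_ ?_ ?_) <;>
    simp only [Module.End.mul_apply, LinearMap.add_apply, LinearMap.sub_apply, LinearMap.smul_apply,
      Module.End.one_apply, LinearMap.zero_apply, map_smul, map_zero, smul_zero, add_zero, zero_add, sub_zero,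
      zero_sub, smul_smul, map_add, map_sub, map_neg, smul_add, TensorProduct.map_tmul, LinearMap.id_apply,
      LinearMap.comp_apply, TensorProduct.comm_tmul, LinearEquiv.coe_coe,
      TensorProduct.tmul_add, TensorProduct.add_tmul, TensorProduct.tmul_smul, ← TensorProduct.smul_tmul',
      TensorProduct.tmul_zero, TensorProduct.zero_tmul,
      E0_0, E0_1, E0_2, E0_3, E0_4, E0_5, E0_6, E0_7, E1_0, E1_1, E1_2, E1_3, E1_4, E1_5, E1_6, E1_7, F0_0, F0_1, F0_2, F0_3, F0_4, F0_5, F0_6, F0_7, F1_0, F1_1, F1_2, F1_3, F1_4, F1_5, F1_6, F1_7, K0_0, K0_1, K0_2, K0_3, K0_4, K0_5, K0_6, K0_7, K1_0, K1_1, K1_2, K1_3, K1_4, K1_5, K1_6, K1_7, H0_0, H0_1, H0_2, H0_3, H0_4, H0_5, H0_6, H0_7, H1_0, H1_1, H1_2, H1_3, H1_4, H1_5, H1_6, H1_7,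
      J_0, J_1, J_2, J_3, J_4, J_5, J_6, J_7,
      R_0_0, R_0_1, R_0_2, R_0_3, R_0_4, R_0_5, R_0_6, R_0_7, R_1_0, R_1_1, R_1_2, R_1_3, R_1_4, R_1_5, R_1_6, R_1_7, R_2_0, R_2_1, R_2_2, R_2_3, R_2_4, R_2_5, R_2_6, R_2_7, R_3_0, R_3_1, R_3_2, R_3_3, R_3_4, R_3_5, R_3_6, R_3_7, R_4_0, R_4_1, R_4_2, R_4_3, R_4_4, R_4_5, R_4_6, R_4_7, R_5_0, R_5_1, R_5_2, R_5_3, R_5_4, R_5_5, R_5_6, R_5_7, R_6_0, R_6_1, R_6_2, R_6_3, R_6_4, R_6_5, R_6_6, R_6_7, R_7_0, R_7_1, R_7_2, R_7_3, R_7_4, R_7_5, R_7_6, R_7_7] <;>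
    try (match_scalars <;> grind))
theorem J_L0 (h : q * p = 1) :
    TensorProduct.map (K0 p q) (K0 p q) ∘ₗ J q p s = J q p s ∘ₗ K0 p q := by
  (refine lin_ext (all8 ?_ ?_ ?_ ?_ ?_ ?_ ?_ ?_) <;>
    simp only [Module.End.mul_apply, LinearMap.add_apply, LinearMap.sub_apply, LinearMap.smul_apply,
      Module.End.one_apply, LinearMap.zero_apply, map_smul, map_zero, smul_zero, add_zero, zero_add, sub_zero,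
      zero_sub, smul_smul, map_add, map_sub, map_neg, smul_add, TensorProduct.map_tmul, LinearMap.id_apply,
      LinearMap.comp_apply, TensorProduct.comm_tmul, LinearEquiv.coe_coe,
      TensorProduct.tmul_add, TensorProduct.add_tmul, TensorProduct.tmul_smul, ← TensorProduct.smul_tmul',
      TensorProduct.tmul_zero, TensorProduct.zero_tmul,
      E0_0, E0_1, E0_2, E0_3, E0_4, E0_5, E0_6, E0_7, E1_0, E1_1, E1_2, E1_3, E1_4, E1_5, E1_6, E1_7, F0_0, F0_1, F0_2, F0_3, F0_4, F0_5, F0_6, F0_7, F1_0, F1_1, F1_2, F1_3, F1_4, F1_5, F1_6, F1_7, K0_0, K0_1, K0_2, K0_3, K0_4, K0_5, K0_6, K0_7, K1_0, K1_1, K1_2, K1_3, K1_4, K1_5, K1_6, K1_7, H0_0, H0_1, H0_2, H0_3, H0_4, H0_5, H0_6, H0_7, H1_0, H1_1, H1_2, H1_3, H1_4, H1_5, H1_6, H1_7,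
      J_0, J_1, J_2, J_3, J_4, J_5, J_6, J_7,
      R_0_0, R_0_1, R_0_2, R_0_3, R_0_4, R_0_5, R_0_6, R_0_7, R_1_0, R_1_1, R_1_2, R_1_3, R_1_4, R_1_5, R_1_6, R_1_7, R_2_0, R_2_1, R_2_2, R_2_3, R_2_4, R_2_5, R_2_6, R_2_7, R_3_0, R_3_1, R_3_2, R_3_3, R_3_4, R_3_5, R_3_6, R_3_7, R_4_0, R_4_1, R_4_2, R_4_3, R_4_4, R_4_5, R_4_6, R_4_7, R_5_0, R_5_1, R_5_2, R_5_3, R_5_4, R_5_5, R_5_6, R_5_7, R_6_0, R_6_1, R_6_2, R_6_3, R_6_4, R_6_5, R_6_6, R_6_7, R_7_0, R_7_1, R_7_2, R_7_3, R_7_4, R_7_5, R_7_6, R_7_7] <;>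
    try (match_scalars <;> grind))
theorem J_L1 (h : q * p = 1) :
    TensorProduct.map (K1 p q) (K1 p q) ∘ₗ J q p s = J q p s ∘ₗ K1 p q := by
  (refine lin_ext (all8 ?_ ?_ ?_ ?_ ?_ ?_ ?_ ?_) <;>
    simp only [Module.End.mul_apply, LinearMap.add_apply, LinearMap.sub_apply, LinearMap.smul_apply,
      Module.End.one_apply, LinearMap.zero_apply, map_smul, map_zero, smul_zero, add_zero, zero_add, sub_zero,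
      zero_sub, smul_smul, map_add, map_sub, map_neg, smul_add, TensorProduct.map_tmul, LinearMap.id_apply,
      LinearMap.comp_apply, TensorProduct.comm_tmul, LinearEquiv.coe_coe,
      TensorProduct.tmul_add, TensorProduct.add_tmul, TensorProduct.tmul_smul, ← TensorProduct.smul_tmul',
      TensorProduct.tmul_zero, TensorProduct.zero_tmul,
      E0_0, E0_1, E0_2, E0_3, E0_4, E0_5, E0_6, E0_7, E1_0, E1_1, E1_2, E1_3, E1_4, E1_5, E1_6, E1_7, F0_0, F0_1, F0_2, F0_3, F0_4, F0_5, F0_6, F0_7, F1_0, F1_1, F1_2, F1_3, F1_4, F1_5, F1_6, F1_7, K0_0, K0_1, K0_2, K0_3, K0_4, K0_5, K0_6, K0_7, K1_0, K1_1, K1_2, K1_3, K1_4, K1_5, K1_6, K1_7, H0_0, H0_1, H0_2, H0_3, H0_4, H0_5, H0_6, H0_7, H1_0, H1_1, H1_2, H1_3, H1_4, H1_5, H1_6, H1_7,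
      J_0, J_1, J_2, J_3, J_4, J_5, J_6, J_7,
      R_0_0, R_0_1, R_0_2, R_0_3, R_0_4, R_0_5, R_0_6, R_0_7, R_1_0, R_1_1, R_1_2, R_1_3, R_1_4, R_1_5, R_1_6, R_1_7, R_2_0, R_2_1, R_2_2, R_2_3, R_2_4, R_2_5, R_2_6, R_2_7, R_3_0, R_3_1, R_3_2, R_3_3, R_3_4, R_3_5, R_3_6, R_3_7, R_4_0, R_4_1, R_4_2, R_4_3, R_4_4, R_4_5, R_4_6, R_4_7, R_5_0, R_5_1, R_5_2, R_5_3, R_5_4, R_5_5, R_5_6, R_5_7, R_6_0, R_6_1, R_6_2, R_6_3, R_6_4, R_6_5, R_6_6, R_6_7, R_7_0, R_7_1, R_7_2, R_7_3, R_7_4, R_7_5, R_7_6, R_7_7] <;>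
    try (match_scalars <;> grind))
theorem J_H0 :
    (TensorProduct.map H0 LinearMap.id + TensorProduct.map LinearMap.id H0) ∘ₗ J q p s = J q p s ∘ₗ H0 := by
  (refine lin_ext (all8 ?_ ?_ ?_ ?_ ?_ ?_ ?_ ?_) <;>
    simp only [Module.End.mul_apply, LinearMap.add_apply, LinearMap.sub_apply, LinearMap.smul_apply,
      Module.End.one_apply, LinearMap.zero_apply, map_smul, map_zero, smul_zero, add_zero, zero_add, sub_zero,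
      zero_sub, smul_smul, map_add, map_sub, map_neg, smul_add, TensorProduct.map_tmul, LinearMap.id_apply,
      LinearMap.comp_apply, TensorProduct.comm_tmul, LinearEquiv.coe_coe,
      TensorProduct.tmul_add, TensorProduct.add_tmul, TensorProduct.tmul_smul, ← TensorProduct.smul_tmul',
      TensorProduct.tmul_zero, TensorProduct.zero_tmul,
      E0_0, E0_1, E0_2, E0_3, E0_4, E0_5, E0_6, E0_7, E1_0, E1_1, E1_2, E1_3, E1_4, E1_5, E1_6, E1_7, F0_0, F0_1, F0_2, F0_3, F0_4, F0_5, F0_6, F0_7, F1_0, F1_1, F1_2, F1_3, F1_4, F1_5, F1_6, F1_7, K0_0, K0_1, K0_2, K0_3, K0_4, K0_5, K0_6, K0_7, K1_0, K1_1, K1_2, K1_3, K1_4, K1_5, K1_6, K1_7, H0_0, H0_1, H0_2, H0_3, H0_4, H0_5, H0_6, H0_7, H1_0, H1_1, H1_2, H1_3, H1_4, H1_5, H1_6, H1_7,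
      J_0, J_1, J_2, J_3, J_4, J_5, J_6, J_7,
      R_0_0, R_0_1, R_0_2, R_0_3, R_0_4, R_0_5, R_0_6, R_0_7, R_1_0, R_1_1, R_1_2, R_1_3, R_1_4, R_1_5, R_1_6, R_1_7, R_2_0, R_2_1, R_2_2, R_2_3, R_2_4, R_2_5, R_2_6, R_2_7, R_3_0, R_3_1, R_3_2, R_3_3, R_3_4, R_3_5, R_3_6, R_3_7, R_4_0, R_4_1, R_4_2, R_4_3, R_4_4, R_4_5, R_4_6, R_4_7, R_5_0, R_5_1, R_5_2, R_5_3, R_5_4, R_5_5, R_5_6, R_5_7, R_6_0, R_6_1, R_6_2, R_6_3, R_6_4, R_6_5, R_6_6, R_6_7, R_7_0, R_7_1, R_7_2, R_7_3, R_7_4, R_7_5, R_7_6, R_7_7] <;>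
    try (match_scalars <;> grind))
theorem J_H1 :
    (TensorProduct.map H1 LinearMap.id + TensorProduct.map LinearMap.id H1) ∘ₗ J q p s = J q p s ∘ₗ H1 := by
  (refine lin_ext (all8 ?_ ?_ ?_ ?_ ?_ ?_ ?_ ?_) <;>
    simp only [Module.End.mul_apply, LinearMap.add_apply, LinearMap.sub_apply, LinearMap.smul_apply,
      Module.End.one_apply, LinearMap.zero_apply, map_smul, map_zero, smul_zero, add_zero, zero_add, sub_zero,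
      zero_sub, smul_smul, map_add, map_sub, map_neg, smul_add, TensorProduct.map_tmul, LinearMap.id_apply,
      LinearMap.comp_apply, TensorProduct.comm_tmul, LinearEquiv.coe_coe,
      TensorProduct.tmul_add, TensorProduct.add_tmul, TensorProduct.tmul_smul, ← TensorProduct.smul_tmul',
      TensorProduct.tmul_zero, TensorProduct.zero_tmul,
      E0_0, E0_1, E0_2, E0_3, E0_4, E0_5, E0_6, E0_7, E1_0, E1_1, E1_2, E1_3, E1_4, E1_5, E1_6, E1_7, F0_0, F0_1, F0_2, F0_3, F0_4, F0_5, F0_6, F0_7, F1_0, F1_1, F1_2, F1_3, F1_4, F1_5, F1_6, F1_7, K0_0, K0_1, K0_2, K0_3, K0_4, K0_5, K0_6, K0_7, K1_0, K1_1, K1_2, K1_3, K1_4, K1_5, K1_6, K1_7, H0_0, H0_1, H0_2, H0_3, H0_4, H0_5, H0_6, H0_7, H1_0, H1_1, H1_2, H1_3, H1_4, H1_5, H1_6, H1_7,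
      J_0, J_1, J_2, J_3, J_4, J_5, J_6, J_7,
      R_0_0, R_0_1, R_0_2, R_0_3, R_0_4, R_0_5, R_0_6, R_0_7, R_1_0, R_1_1, R_1_2, R_1_3, R_1_4, R_1_5, R_1_6, R_1_7, R_2_0, R_2_1, R_2_2, R_2_3, R_2_4, R_2_5, R_2_6, R_2_7, R_3_0, R_3_1, R_3_2, R_3_3, R_3_4, R_3_5, R_3_6, R_3_7, R_4_0, R_4_1, R_4_2, R_4_3, R_4_4, R_4_5, R_4_6, R_4_7, R_5_0, R_5_1, R_5_2, R_5_3, R_5_4, R_5_5, R_5_6, R_5_7, R_6_0, R_6_1, R_6_2, R_6_3, R_6_4, R_6_5, R_6_6, R_6_7, R_7_0, R_7_1, R_7_2, R_7_3, R_7_4, R_7_5, R_7_6, R_7_7] <;>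
    try (match_scalars <;> grind))

theorem R_J (h : q * p = 1) (hs : s ^ 2 = 1) : Rq q p ∘ₗ J q p s = (s * p ^ 3) • J q p s := by
  (refine lin_ext (all8 ?_ ?_ ?_ ?_ ?_ ?_ ?_ ?_) <;>
    simp only [Module.End.mul_apply, LinearMap.add_apply, LinearMap.sub_apply, LinearMap.smul_apply,
      Module.End.one_apply, LinearMap.zero_apply, map_smul, map_zero, smul_zero, add_zero, zero_add, sub_zero,
      zero_sub, smul_smul, map_add, map_sub, map_neg, smul_add, TensorProduct.map_tmul, LinearMap.id_apply,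
      LinearMap.comp_apply, TensorProduct.comm_tmul, LinearEquiv.coe_coe,
      TensorProduct.tmul_add, TensorProduct.add_tmul, TensorProduct.tmul_smul, ← TensorProduct.smul_tmul',
      TensorProduct.tmul_zero, TensorProduct.zero_tmul,
      E0_0, E0_1, E0_2, E0_3, E0_4, E0_5, E0_6, E0_7, E1_0, E1_1, E1_2, E1_3, E1_4, E1_5, E1_6, E1_7, F0_0, F0_1, F0_2, F0_3, F0_4, F0_5, F0_6, F0_7, F1_0, F1_1, F1_2, F1_3, F1_4, F1_5, F1_6, F1_7, K0_0, K0_1, K0_2, K0_3, K0_4, K0_5, K0_6, K0_7, K1_0, K1_1, K1_2, K1_3, K1_4, K1_5, K1_6, K1_7, H0_0, H0_1, H0_2, H0_3, H0_4, H0_5, H0_6, H0_7, H1_0, H1_1, H1_2, H1_3, H1_4, H1_5, H1_6, H1_7,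
      J_0, J_1, J_2, J_3, J_4, J_5, J_6, J_7,
      R_0_0, R_0_1, R_0_2, R_0_3, R_0_4, R_0_5, R_0_6, R_0_7, R_1_0, R_1_1, R_1_2, R_1_3, R_1_4, R_1_5, R_1_6, R_1_7, R_2_0, R_2_1, R_2_2, R_2_3, R_2_4, R_2_5, R_2_6, R_2_7, R_3_0, R_3_1, R_3_2, R_3_3, R_3_4, R_3_5, R_3_6, R_3_7, R_4_0, R_4_1, R_4_2, R_4_3, R_4_4, R_4_5, R_4_6, R_4_7, R_5_0, R_5_1, R_5_2, R_5_3, R_5_4, R_5_5, R_5_6, R_5_7, R_6_0, R_6_1, R_6_2, R_6_3, R_6_4, R_6_5, R_6_6, R_6_7, R_7_0, R_7_1, R_7_2, R_7_3, R_7_4, R_7_5, R_7_6, R_7_7] <;>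
    try (match_scalars <;> grind))

theorem comm_J (hs : s ^ 2 = 1) :
    (TensorProduct.comm ℂ V8 V8).toLinearMap ∘ₗ J 1 1 s = s • J 1 1 s := by
  (refine lin_ext (all8 ?_ ?_ ?_ ?_ ?_ ?_ ?_ ?_) <;>
    simp only [Module.End.mul_apply, LinearMap.add_apply, LinearMap.sub_apply, LinearMap.smul_apply,
      Module.End.one_apply, LinearMap.zero_apply, map_smul, map_zero, smul_zero, add_zero, zero_add, sub_zero,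
      zero_sub, smul_smul, map_add, map_sub, map_neg, smul_add, TensorProduct.map_tmul, LinearMap.id_apply,
      LinearMap.comp_apply, TensorProduct.comm_tmul, LinearEquiv.coe_coe,
      TensorProduct.tmul_add, TensorProduct.add_tmul, TensorProduct.tmul_smul, ← TensorProduct.smul_tmul',
      TensorProduct.tmul_zero, TensorProduct.zero_tmul,
      E0_0, E0_1, E0_2, E0_3, E0_4, E0_5, E0_6, E0_7, E1_0, E1_1, E1_2, E1_3, E1_4, E1_5, E1_6, E1_7, F0_0, F0_1, F0_2, F0_3, F0_4, F0_5, F0_6, F0_7, F1_0, F1_1, F1_2, F1_3, F1_4, F1_5, F1_6, F1_7, K0_0, K0_1, K0_2, K0_3, K0_4, K0_5, K0_6, K0_7, K1_0, K1_1, K1_2, K1_3, K1_4, K1_5, K1_6, K1_7, H0_0, H0_1, H0_2, H0_3, H0_4, H0_5, H0_6, H0_7, H1_0, H1_1, H1_2, H1_3, H1_4, H1_5, H1_6, H1_7,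
      J_0, J_1, J_2, J_3, J_4, J_5, J_6, J_7,
      R_0_0, R_0_1, R_0_2, R_0_3, R_0_4, R_0_5, R_0_6, R_0_7, R_1_0, R_1_1, R_1_2, R_1_3, R_1_4, R_1_5, R_1_6, R_1_7, R_2_0, R_2_1, R_2_2, R_2_3, R_2_4, R_2_5, R_2_6, R_2_7, R_3_0, R_3_1, R_3_2, R_3_3, R_3_4, R_3_5, R_3_6, R_3_7, R_4_0, R_4_1, R_4_2, R_4_3, R_4_4, R_4_5, R_4_6, R_4_7, R_5_0, R_5_1, R_5_2, R_5_3, R_5_4, R_5_5, R_5_6, R_5_7, R_6_0, R_6_1, R_6_2, R_6_3, R_6_4, R_6_5, R_6_6, R_6_7, R_7_0, R_7_1, R_7_2, R_7_3, R_7_4, R_7_5, R_7_6, R_7_7] <;>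
    try (match_scalars <;> grind))

theorem cv_E0 (h : q * p = 1) :
    (TensorProduct.map (E0 (q + p)) (K0 q p) + TensorProduct.map LinearMap.id (E0 (q + p)) :
      V8 ⊗[ℂ] V8 →ₗ[ℂ] V8 ⊗[ℂ] V8) (cv q p) = 0 := by
  (    simp only [cv, Module.End.mul_apply, LinearMap.add_apply, LinearMap.sub_apply, LinearMap.smul_apply,
      Module.End.one_apply, LinearMap.zero_apply, map_smul, map_zero, smul_zero, add_zero, zero_add, sub_zero,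
      zero_sub, smul_smul, map_add, map_sub, map_neg, smul_add, TensorProduct.map_tmul, LinearMap.id_apply,
      LinearMap.comp_apply, TensorProduct.comm_tmul, LinearEquiv.coe_coe,
      TensorProduct.tmul_add, TensorProduct.add_tmul, TensorProduct.tmul_smul, ← TensorProduct.smul_tmul',
      TensorProduct.tmul_zero, TensorProduct.zero_tmul,
      E0_0, E0_1, E0_2, E0_3, E0_4, E0_5, E0_6, E0_7, E1_0, E1_1, E1_2, E1_3, E1_4, E1_5, E1_6, E1_7, F0_0, F0_1, F0_2, F0_3, F0_4, F0_5, F0_6, F0_7, F1_0, F1_1, F1_2, F1_3, F1_4, F1_5, F1_6, F1_7, K0_0, K0_1, K0_2, K0_3, K0_4, K0_5, K0_6, K0_7, K1_0, K1_1, K1_2, K1_3, K1_4, K1_5, K1_6, K1_7, H0_0, H0_1, H0_2, H0_3, H0_4, H0_5, H0_6, H0_7, H1_0, H1_1, H1_2, H1_3, H1_4, H1_5, H1_6, H1_7] <;>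
    try (match_scalars <;> grind))
theorem cv_E1 (h : q * p = 1) :
    (TensorProduct.map (E1 (q + p)) (K1 q p) + TensorProduct.map LinearMap.id (E1 (q + p)) :
      V8 ⊗[ℂ] V8 →ₗ[ℂ] V8 ⊗[ℂ] V8) (cv q p) = 0 := by
  (    simp only [cv, Module.End.mul_apply, LinearMap.add_apply, LinearMap.sub_apply, LinearMap.smul_apply,
      Module.End.one_apply, LinearMap.zero_apply, map_smul, map_zero, smul_zero, add_zero, zero_add, sub_zero,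
      zero_sub, smul_smul, map_add, map_sub, map_neg, smul_add, TensorProduct.map_tmul, LinearMap.id_apply,
      LinearMap.comp_apply, TensorProduct.comm_tmul, LinearEquiv.coe_coe,
      TensorProduct.tmul_add, TensorProduct.add_tmul, TensorProduct.tmul_smul, ← TensorProduct.smul_tmul',
      TensorProduct.tmul_zero, TensorProduct.zero_tmul,
      E0_0, E0_1, E0_2, E0_3, E0_4, E0_5, E0_6, E0_7, E1_0, E1_1, E1_2, E1_3, E1_4, E1_5, E1_6, E1_7, F0_0, F0_1, F0_2, F0_3, F0_4, F0_5, F0_6, F0_7, F1_0, F1_1, F1_2, F1_3, F1_4, F1_5, F1_6, F1_7, K0_0, K0_1, K0_2, K0_3, K0_4, K0_5, K0_6, K0_7, K1_0, K1_1, K1_2, K1_3, K1_4, K1_5, K1_6, K1_7, H0_0, H0_1, H0_2, H0_3, H0_4, H0_5, H0_6, H0_7, H1_0, H1_1, H1_2, H1_3, H1_4, H1_5, H1_6, H1_7] <;>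
    try (match_scalars <;> grind))
theorem cv_F0 (h : q * p = 1) :
    (TensorProduct.map (F0 (q + p)) LinearMap.id + TensorProduct.map (K0 p q) (F0 (q + p)) :
      V8 ⊗[ℂ] V8 →ₗ[ℂ] V8 ⊗[ℂ] V8) (cv q p) = 0 := by
  (    simp only [cv, Module.End.mul_apply, LinearMap.add_apply, LinearMap.sub_apply, LinearMap.smul_apply,
      Module.End.one_apply, LinearMap.zero_apply, map_smul, map_zero, smul_zero, add_zero, zero_add, sub_zero,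
      zero_sub, smul_smul, map_add, map_sub, map_neg, smul_add, TensorProduct.map_tmul, LinearMap.id_apply,
      LinearMap.comp_apply, TensorProduct.comm_tmul, LinearEquiv.coe_coe,
      TensorProduct.tmul_add, TensorProduct.add_tmul, TensorProduct.tmul_smul, ← TensorProduct.smul_tmul',
      TensorProduct.tmul_zero, TensorProduct.zero_tmul,
      E0_0, E0_1, E0_2, E0_3, E0_4, E0_5, E0_6, E0_7, E1_0, E1_1, E1_2, E1_3, E1_4, E1_5, E1_6, E1_7, F0_0, F0_1, F0_2, F0_3, F0_4, F0_5, F0_6, F0_7, F1_0, F1_1, F1_2, F1_3, F1_4, F1_5, F1_6, F1_7, K0_0, K0_1, K0_2, K0_3, K0_4, K0_5, K0_6, K0_7, K1_0, K1_1, K1_2, K1_3, K1_4, K1_5, K1_6, K1_7, H0_0, H0_1, H0_2, H0_3, H0_4, H0_5, H0_6, H0_7, H1_0, H1_1, H1_2, H1_3, H1_4, H1_5, H1_6, H1_7] <;>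
    try (match_scalars <;> grind))
theorem cv_F1 (h : q * p = 1) :
    (TensorProduct.map (F1 (q + p)) LinearMap.id + TensorProduct.map (K1 p q) (F1 (q + p)) :
      V8 ⊗[ℂ] V8 →ₗ[ℂ] V8 ⊗[ℂ] V8) (cv q p) = 0 := by
  (    simp only [cv, Module.End.mul_apply, LinearMap.add_apply, LinearMap.sub_apply, LinearMap.smul_apply,
      Module.End.one_apply, LinearMap.zero_apply, map_smul, map_zero, smul_zero, add_zero, zero_add, sub_zero,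
      zero_sub, smul_smul, map_add, map_sub, map_neg, smul_add, TensorProduct.map_tmul, LinearMap.id_apply,
      LinearMap.comp_apply, TensorProduct.comm_tmul, LinearEquiv.coe_coe,
      TensorProduct.tmul_add, TensorProduct.add_tmul, TensorProduct.tmul_smul, ← TensorProduct.smul_tmul',
      TensorProduct.tmul_zero, TensorProduct.zero_tmul,
      E0_0, E0_1, E0_2, E0_3, E0_4, E0_5, E0_6, E0_7, E1_0, E1_1, E1_2, E1_3, E1_4, E1_5, E1_6, E1_7, F0_0, F0_1, F0_2, F0_3, F0_4, F0_5, F0_6, F0_7, F1_0, F1_1, F1_2, F1_3, F1_4, F1_5, F1_6, F1_7, K0_0, K0_1, K0_2, K0_3, K0_4, K0_5, K0_6, K0_7, K1_0, K1_1, K1_2, K1_3, K1_4, K1_5, K1_6, K1_7, H0_0, H0_1, H0_2, H0_3, H0_4, H0_5, H0_6, H0_7, H1_0, H1_1, H1_2, H1_3, H1_4, H1_5, H1_6, H1_7] <;>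
    try (match_scalars <;> grind))
theorem cv_K0 (h : q * p = 1) : TensorProduct.map (K0 q p) (K0 q p) (cv q p) = cv q p := by
  (    simp only [cv, Module.End.mul_apply, LinearMap.add_apply, LinearMap.sub_apply, LinearMap.smul_apply,
      Module.End.one_apply, LinearMap.zero_apply, map_smul, map_zero, smul_zero, add_zero, zero_add, sub_zero,
      zero_sub, smul_smul, map_add, map_sub, map_neg, smul_add, TensorProduct.map_tmul, LinearMap.id_apply,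
      LinearMap.comp_apply, TensorProduct.comm_tmul, LinearEquiv.coe_coe,
      TensorProduct.tmul_add, TensorProduct.add_tmul, TensorProduct.tmul_smul, ← TensorProduct.smul_tmul',
      TensorProduct.tmul_zero, TensorProduct.zero_tmul,
      E0_0, E0_1, E0_2, E0_3, E0_4, E0_5, E0_6, E0_7, E1_0, E1_1, E1_2, E1_3, E1_4, E1_5, E1_6, E1_7, F0_0, F0_1, F0_2, F0_3, F0_4, F0_5, F0_6, F0_7, F1_0, F1_1, F1_2, F1_3, F1_4, F1_5, F1_6, F1_7, K0_0, K0_1, K0_2, K0_3, K0_4, K0_5, K0_6, K0_7, K1_0, K1_1, K1_2, K1_3, K1_4, K1_5, K1_6, K1_7, H0_0, H0_1, H0_2, H0_3, H0_4, H0_5, H0_6, H0_7, H1_0, H1_1, H1_2, H1_3, H1_4, H1_5, H1_6, H1_7] <;>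
    try (match_scalars <;> grind))
theorem cv_K1 (h : q * p = 1) : TensorProduct.map (K1 q p) (K1 q p) (cv q p) = cv q p := by
  (    simp only [cv, Module.End.mul_apply, LinearMap.add_apply, LinearMap.sub_apply, LinearMap.smul_apply,
      Module.End.one_apply, LinearMap.zero_apply, map_smul, map_zero, smul_zero, add_zero, zero_add, sub_zero,
      zero_sub, smul_smul, map_add, map_sub, map_neg, smul_add, TensorProduct.map_tmul, LinearMap.id_apply,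
      LinearMap.comp_apply, TensorProduct.comm_tmul, LinearEquiv.coe_coe,
      TensorProduct.tmul_add, TensorProduct.add_tmul, TensorProduct.tmul_smul, ← TensorProduct.smul_tmul',
      TensorProduct.tmul_zero, TensorProduct.zero_tmul,
      E0_0, E0_1, E0_2, E0_3, E0_4, E0_5, E0_6, E0_7, E1_0, E1_1, E1_2, E1_3, E1_4, E1_5, E1_6, E1_7, F0_0, F0_1, F0_2, F0_3, F0_4, F0_5, F0_6, F0_7, F1_0, F1_1, F1_2, F1_3, F1_4, F1_5, F1_6, F1_7, K0_0, K0_1, K0_2, K0_3, K0_4, K0_5, K0_6, K0_7, K1_0, K1_1, K1_2, K1_3, K1_4, K1_5, K1_6, K1_7, H0_0, H0_1, H0_2, H0_3, H0_4, H0_5, H0_6, H0_7, H1_0, H1_1, H1_2, H1_3, H1_4, H1_5, H1_6, H1_7] <;>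
    try (match_scalars <;> grind))
theorem cv_H0 :
    (TensorProduct.map H0 LinearMap.id + TensorProduct.map LinearMap.id H0 :
      V8 ⊗[ℂ] V8 →ₗ[ℂ] V8 ⊗[ℂ] V8) (cv q p) = 0 := by
  (    simp only [cv, Module.End.mul_apply, LinearMap.add_apply, LinearMap.sub_apply, LinearMap.smul_apply,
      Module.End.one_apply, LinearMap.zero_apply, map_smul, map_zero, smul_zero, add_zero, zero_add, sub_zero,
      zero_sub, smul_smul, map_add, map_sub, map_neg, smul_add, TensorProduct.map_tmul, LinearMap.id_apply,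
      LinearMap.comp_apply, TensorProduct.comm_tmul, LinearEquiv.coe_coe,
      TensorProduct.tmul_add, TensorProduct.add_tmul, TensorProduct.tmul_smul, ← TensorProduct.smul_tmul',
      TensorProduct.tmul_zero, TensorProduct.zero_tmul,
      E0_0, E0_1, E0_2, E0_3, E0_4, E0_5, E0_6, E0_7, E1_0, E1_1, E1_2, E1_3, E1_4, E1_5, E1_6, E1_7, F0_0, F0_1, F0_2, F0_3, F0_4, F0_5, F0_6, F0_7, F1_0, F1_1, F1_2, F1_3, F1_4, F1_5, F1_6, F1_7, K0_0, K0_1, K0_2, K0_3, K0_4, K0_5, K0_6, K0_7, K1_0, K1_1, K1_2, K1_3, K1_4, K1_5, K1_6, K1_7, H0_0, H0_1, H0_2, H0_3, H0_4, H0_5, H0_6, H0_7, H1_0, H1_1, H1_2, H1_3, H1_4, H1_5, H1_6, H1_7] <;>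
    try (match_scalars <;> grind))
theorem cv_H1 :
    (TensorProduct.map H1 LinearMap.id + TensorProduct.map LinearMap.id H1 :
      V8 ⊗[ℂ] V8 →ₗ[ℂ] V8 ⊗[ℂ] V8) (cv q p) = 0 := by
  (    simp only [cv, Module.End.mul_apply, LinearMap.add_apply, LinearMap.sub_apply, LinearMap.smul_apply,
      Module.End.one_apply, LinearMap.zero_apply, map_smul, map_zero, smul_zero, add_zero, zero_add, sub_zero,
      zero_sub, smul_smul, map_add, map_sub, map_neg, smul_add, TensorProduct.map_tmul, LinearMap.id_apply,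
      LinearMap.comp_apply, TensorProduct.comm_tmul, LinearEquiv.coe_coe,
      TensorProduct.tmul_add, TensorProduct.add_tmul, TensorProduct.tmul_smul, ← TensorProduct.smul_tmul',
      TensorProduct.tmul_zero, TensorProduct.zero_tmul,
      E0_0, E0_1, E0_2, E0_3, E0_4, E0_5, E0_6, E0_7, E1_0, E1_1, E1_2, E1_3, E1_4, E1_5, E1_6, E1_7, F0_0, F0_1, F0_2, F0_3, F0_4, F0_5, F0_6, F0_7, F1_0, F1_1, F1_2, F1_3, F1_4, F1_5, F1_6, F1_7, K0_0, K0_1, K0_2, K0_3, K0_4, K0_5, K0_6, K0_7, K1_0, K1_1, K1_2, K1_3, K1_4, K1_5, K1_6, K1_7, H0_0, H0_1, H0_2, H0_3, H0_4, H0_5, H0_6, H0_7, H1_0, H1_1, H1_2, H1_3, H1_4, H1_5, H1_6, H1_7] <;>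
    try (match_scalars <;> grind))

theorem cv_assoc (h : q * p = 1) :
    TensorProduct.assoc ℂ V8 V8 V8 ((J q p s).rTensor V8 (cv q p)) = (J q p s).lTensor V8 (cv q p) := by
  simp only [cv, LinearMap.rTensor_tmul, LinearMap.lTensor_tmul, TensorProduct.assoc_tmul,
      Module.End.mul_apply, LinearMap.add_apply, LinearMap.sub_apply, LinearMap.smul_apply,
      Module.End.one_apply, LinearMap.zero_apply, map_smul, map_zero, smul_zero, add_zero, zero_add, sub_zero,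
      zero_sub, smul_smul, map_add, map_sub, map_neg, smul_add, TensorProduct.map_tmul, LinearMap.id_apply,
      LinearMap.comp_apply, TensorProduct.comm_tmul, LinearEquiv.coe_coe,
      TensorProduct.tmul_add, TensorProduct.add_tmul, TensorProduct.tmul_smul, ← TensorProduct.smul_tmul',
      TensorProduct.tmul_zero, TensorProduct.zero_tmul,
      J_0, J_1, J_2, J_3, J_4, J_5, J_6, J_7]
  match_scalars <;> grind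

end Pool.Agent.H630R3.BZ
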