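import Mathlib
import Pool.Agent.H630R3.BZJ
import Pool.Agent.H630R3.BZBraid

set_option autoImplicit false
set_option maxHeartbeats 4000000
set_option linter.unusedSimpArgs false
set_option linter.unusedVariables false

namespace Pool.Agent.H630R3.BZ

open scoped TensorProduct

/-- contraction of the last factor -/
noncomputable def pk (f : V8 →ₗ[ℂ] ℂ) : (V8 ⊗[ℂ] V8) ⊗[ℂ] V8 →ₗ[ℂ] V8 ⊗[ℂ] V8 :=
  (TensorProduct.rid ℂ (V8 ⊗[ℂ] V8)).toLinearMap ∘ₗ LinearMap.lTensor (V8 ⊗[ℂ] V8) f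

theorem pk_tmul (f : V8 →ₗ[ℂ] ℂ) (y : V8 ⊗[ℂ] V8) (v : V8) : pk f (y ⊗ₜ v) = f v • y := by
  simp [pk]

theorem pk_add (f g : V8 →ₗ[ℂ] ℂ) (t : (V8 ⊗[ℂ] V8) ⊗[ℂ] V8) : pk (f + g) t = pk f t + pk g t := by
  simp [pk, LinearMap.lTensor_add]

theorem pk_smul (a : ℂ) (f : V8 →ₗ[ℂ] ℂ) (t : (V8 ⊗[ℂ] V8) ⊗[ℂ] V8) : pk (a • f) t = a • pk f t := by
  simp [pk, LinearMap.lTensor_smul]

theorem pk_zero (t : (V8 ⊗[ℂ] V8) ⊗[ℂ] V8) : pk 0 t = 0 := by
  simp [pk]

/-- coordinates -/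
noncomputable def co (k : Fin 8) : V8 →ₗ[ℂ] ℂ := bas.coord k

theorem co_x (k j : Fin 8) : co k (x j) = if j = k then 1 else 0 := by
  rw [co, x, Module.Basis.coord_apply, Module.Basis.repr_self_apply]

noncomputable def ph (i j : Fin 8) : V8 ⊗[ℂ] V8 →ₗ[ℂ] ℂ := (bas.tensorProduct bas).coord (i, j)

theorem ph_x (i j k l : Fin 8) : ph i j (x k ⊗ₜ x l) = if k = i ∧ l = j then 1 else 0 := by
  have h : (x k ⊗ₜ[ℂ] x l) = (bas.tensorProduct bas) (k, l) := by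
    rw [Module.Basis.tensorProduct_apply]; rfl
  rw [ph, h, Module.Basis.coord_apply, Module.Basis.repr_self_apply]
  simp only [Prod.mk.injEq]

theorem eq_zero_of_ph (u : V8 ⊗[ℂ] V8) (h : ∀ i j, ph i j u = 0) : u = 0 := by
  rw [← (bas.tensorProduct bas).forall_coord_eq_zero_iff]
  rintro ⟨i, j⟩
  exact h i j

theorem decomp (t : (V8 ⊗[ℂ] V8) ⊗[ℂ] V8) : t = ∑ k, pk (co k) t ⊗ₜ x k := by
  induction t using TensorProduct.induction_on with
  | zero => simp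
  | tmul y v =>
    simp only [pk_tmul, TensorProduct.smul_tmul]
    rw [← TensorProduct.tmul_sum]
    congr 1
    exact (bas.sum_repr v).symm
  | add a b ha hb =>
    simp only [map_add, TensorProduct.add_tmul, Finset.sum_add_distrib]
    rw [← ha, ← hb]

theorem pk_map_left (f : V8 →ₗ[ℂ] ℂ) (A : V8 ⊗[ℂ] V8 →ₗ[ℂ] V8 ⊗[ℂ] V8) (t : (V8 ⊗[ℂ] V8) ⊗[ℂ] V8) :
    pk f (TensorProduct.map A LinearMap.id t) = A (pk f t) := by
  induction t using TensorProduct.induction_on with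
  | zero => simp
  | tmul y v => simp only [TensorProduct.map_tmul, pk_tmul, LinearMap.id_apply, map_smul]
  | add a b ha hb => simp only [map_add, ha, hb]

theorem pk_map_right (f : V8 →ₗ[ℂ] ℂ) (B : V8 →ₗ[ℂ] V8) (t : (V8 ⊗[ℂ] V8) ⊗[ℂ] V8) :
    pk f (TensorProduct.map LinearMap.id B t) = pk (f ∘ₗ B) t := by
  induction t using TensorProduct.induction_on with
  | zero => simp
  | tmul y v => simp only [TensorProduct.map_tmul, pk_tmul, LinearMap.id_apply, LinearMap.comp_apply]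
  | add a b ha hb => simp only [map_add, ha, hb]

theorem pk_mem (f : V8 →ₗ[ℂ] ℂ) (S : Submodule ℂ (V8 ⊗[ℂ] V8)) (t : (V8 ⊗[ℂ] V8) ⊗[ℂ] V8) (ht : t ∈ leftPart S) :
    pk f t ∈ S := by
  obtain ⟨t', rfl⟩ := ht
  induction t' using TensorProduct.induction_on with
  | zero => simp
  | tmul y v =>
    rw [LinearMap.rTensor_tmul, pk_tmul]
    exact S.smul_mem _ y.2
  | add a b ha hb =>
    rw [map_add, map_add]
    exact S.add_mem ha hb

theorem co7E0 : co 7 ∘ₗ E0 2 = 0 := by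
  (refine lin_ext (all8 ?_ ?_ ?_ ?_ ?_ ?_ ?_ ?_) <;>
    simp [co_x])
theorem co7E1 : co 7 ∘ₗ E1 2 = 0 := by
  (refine lin_ext (all8 ?_ ?_ ?_ ?_ ?_ ?_ ?_ ?_) <;>
    simp [co_x])
theorem co7H0 : co 7 ∘ₗ H0 = (-1 : ℂ) • co 7 := by
  (refine lin_ext (all8 ?_ ?_ ?_ ?_ ?_ ?_ ?_ ?_) <;>
    simp [co_x])
theorem co7H1 : co 7 ∘ₗ H1 = (-1 : ℂ) • co 7 := by
  (refine lin_ext (all8 ?_ ?_ ?_ ?_ ?_ ?_ ?_ ?_) <;>
    simp [co_x])
theorem co7F0 : co 7 ∘ₗ F0 2 = co 6 := by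
  (refine lin_ext (all8 ?_ ?_ ?_ ?_ ?_ ?_ ?_ ?_) <;>
    simp [co_x])
theorem co7F1 : co 7 ∘ₗ F1 2 = co 5 := by
  (refine lin_ext (all8 ?_ ?_ ?_ ?_ ?_ ?_ ?_ ?_) <;>
    simp [co_x])
theorem co5F0 : co 5 ∘ₗ F0 2 = (2 : ℂ) • co 3 + co 4 := by
  (refine lin_ext (all8 ?_ ?_ ?_ ?_ ?_ ?_ ?_ ?_) <;>
    simp [co_x])
theorem co6F1 : co 6 ∘ₗ F1 2 = (2 : ℂ) • co 4 + co 3 := by
  (refine lin_ext (all8 ?_ ?_ ?_ ?_ ?_ ?_ ?_ ?_) <;>
    simp [co_x])
theorem co3F0 : co 3 ∘ₗ F0 2 = co 1 := by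
  (refine lin_ext (all8 ?_ ?_ ?_ ?_ ?_ ?_ ?_ ?_) <;>
    simp [co_x])
theorem co4F1 : co 4 ∘ₗ F1 2 = co 2 := by
  (refine lin_ext (all8 ?_ ?_ ?_ ?_ ?_ ?_ ?_ ?_) <;>
    simp [co_x])
theorem co1F1 : co 1 ∘ₗ F1 2 = co 0 := by
  (refine lin_ext (all8 ?_ ?_ ?_ ?_ ?_ ?_ ?_ ?_) <;>
    simp [co_x])

/-- the action of one generator on `V ⊗ V` in the classical case -/
noncomputable abbrev dd (A : V8 →ₗ[ℂ] V8) : V8 ⊗[ℂ] V8 →ₗ[ℂ] V8 ⊗[ℂ] V8 :=
  TensorProduct.map A LinearMap.id + TensorProduct.map LinearMap.id A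

theorem H0_x : ∀ j, H0 (x j) = (wt j 0 : ℂ) • x j :=
  all8 (by simp [wt]) (by simp [wt]) (by simp [wt]) (by simp [wt]) (by simp [wt]) (by simp [wt]) (by simp [wt])
    (by simp [wt])

theorem H1_x : ∀ j, H1 (x j) = (wt j 1 : ℂ) • x j :=
  all8 (by simp [wt]) (by simp [wt]) (by simp [wt]) (by simp [wt]) (by simp [wt]) (by simp [wt]) (by simp [wt])
    (by simp [wt])

theorem ph_H0 (i j : Fin 8) (u : V8 ⊗[ℂ] V8) : ph i j (dd H0 u) = ((wt i 0 : ℂ) + wt j 0) * ph i j u := by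
  have h : ph i j ∘ₗ dd H0 = ((wt i 0 : ℂ) + wt j 0) • ph i j := by
    apply lin_ext2
    intro k l
    simp only [LinearMap.comp_apply, LinearMap.add_apply, TensorProduct.map_tmul, LinearMap.id_apply, H0_x,
      ← TensorProduct.smul_tmul', TensorProduct.tmul_smul, map_add, map_smul, LinearMap.smul_apply, smul_eq_mul, ph_x]
    split_ifs with h1
    · obtain ⟨rfl, rfl⟩ := h1; ring
    · ring
  exact LinearMap.congr_fun h u

theorem ph_H1 (i j : Fin 8) (u : V8 ⊗[ℂ] V8) : ph i j (dd H1 u) = ((wt i 1 : ℂ) + wt j 1) * ph i j u := by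
  have h : ph i j ∘ₗ dd H1 = ((wt i 1 : ℂ) + wt j 1) • ph i j := by
    apply lin_ext2
    intro k l
    simp only [LinearMap.comp_apply, LinearMap.add_apply, TensorProduct.map_tmul, LinearMap.id_apply, H1_x,
      ← TensorProduct.smul_tmul', TensorProduct.tmul_smul, map_add, map_smul, LinearMap.smul_apply, smul_eq_mul, ph_x]
    split_ifs with h1
    · obtain ⟨rfl, rfl⟩ := h1; ring
    · ring
  exact LinearMap.congr_fun h u

theorem ph_comm (i j : Fin 8) (u : V8 ⊗[ℂ] V8) : ph i j (TensorProduct.comm ℂ V8 V8 u) = ph j i u := by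
  have h : ph i j ∘ₗ (TensorProduct.comm ℂ V8 V8).toLinearMap = ph j i := by
    apply lin_ext2
    intro k l
    simp only [LinearMap.comp_apply, LinearEquiv.coe_coe, TensorProduct.comm_tmul, ph_x]
    simp only [and_comm]
  exact LinearMap.congr_fun h u

theorem ph01 : ph 0 1 ∘ₗ dd (E0 2) = (2 : ℂ) • ph 0 3 + ph 0 4 + ph 2 1 := by
  (refine lin_ext2 (all8 ?_ ?_ ?_ ?_ ?_ ?_ ?_ ?_) <;> refine all8 ?_ ?_ ?_ ?_ ?_ ?_ ?_ ?_ <;>
    simp [ph_x, ← TensorProduct.smul_tmul'])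
theorem ph10 : ph 1 0 ∘ₗ dd (E0 2) = (2 : ℂ) • ph 3 0 + ph 4 0 + ph 1 2 := by
  (refine lin_ext2 (all8 ?_ ?_ ?_ ?_ ?_ ?_ ?_ ?_) <;> refine all8 ?_ ?_ ?_ ?_ ?_ ?_ ?_ ?_ <;>
    simp [ph_x, ← TensorProduct.smul_tmul'])
theorem ph02 : ph 0 2 ∘ₗ dd (E1 2) = (2 : ℂ) • ph 0 4 + ph 0 3 + ph 1 2 := by
  (refine lin_ext2 (all8 ?_ ?_ ?_ ?_ ?_ ?_ ?_ ?_) <;> refine all8 ?_ ?_ ?_ ?_ ?_ ?_ ?_ ?_ <;>
    simp [ph_x, ← TensorProduct.smul_tmul'])
theorem ph20 : ph 2 0 ∘ₗ dd (E1 2) = (2 : ℂ) • ph 4 0 + ph 3 0 + ph 2 1 := by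
  (refine lin_ext2 (all8 ?_ ?_ ?_ ?_ ?_ ?_ ?_ ?_) <;> refine all8 ?_ ?_ ?_ ?_ ?_ ?_ ?_ ?_ <;>
    simp [ph_x, ← TensorProduct.smul_tmul'])

/-- a (skew-)symmetric highest weight vector of weight `θ` vanishes if its `x 3 ⊗ x 0` coordinate does -/
theorem hw_zero (s : ℂ) (hs : s = 1 ∨ s = -1) (u : V8 ⊗[ℂ] V8) (hsym : TensorProduct.comm ℂ V8 V8 u = s • u)
    (hh0 : dd H0 u = u) (hh1 : dd H1 u = u) (he0 : dd (E0 2) u = 0) (he1 : dd (E1 2) u = 0)
    (h0 : ph 3 0 u = 0) : u = 0 := by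
  have sym : ∀ i j, ph j i u = s * ph i j u := by
    intro i j
    rw [← ph_comm, hsym, map_smul, smul_eq_mul]
  have e01 := LinearMap.congr_fun ph01 u
  have e10 := LinearMap.congr_fun ph10 u
  have e02 := LinearMap.congr_fun ph02 u
  have e20 := LinearMap.congr_fun ph20 u
  simp only [LinearMap.comp_apply, he0, he1, map_zero, LinearMap.add_apply (f := _ + _), LinearMap.add_apply,
    LinearMap.smul_apply, smul_eq_mul, h0] at e01 e10 e02 e20
  have s03 : ph 0 3 u = 0 := by rw [sym 3 0, h0, mul_zero]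
  have s04 := sym 4 0
  have s21 := sym 1 2
  rw [s04, s03, s21] at e01
  rw [s04, s03] at e02
  rw [s21] at e20
  have h12 : ph 1 2 u = 0 := by
    rcases hs with rfl | rfl
    · linear_combination (-2 : ℂ) * e10 + e02
    · linear_combination (-2 / 3 : ℂ) * e10 + (1 / 3 : ℂ) * e20
  have h40 : ph 4 0 u = 0 := by rw [h12] at e10; linear_combination -e10
  have s04' : ph 0 4 u = 0 := by rw [s04, h40, mul_zero]
  have s21' : ph 2 1 u = 0 := by rw [s21, h12, mul_zero]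
  apply eq_zero_of_ph
  intro i j
  have c0 := ph_H0 i j u
  have c1 := ph_H1 i j u
  rw [hh0] at c0
  rw [hh1] at c1
  by_cases hij : wt i 0 + wt j 0 = 1 ∧ wt i 1 + wt j 1 = 1
  · revert hij
    revert i j
    intro i j c0 c1 hij
    have hcases : (i = 0 ∧ j = 3) ∨ (i = 0 ∧ j = 4) ∨ (i = 1 ∧ j = 2) ∨ (i = 2 ∧ j = 1) ∨ (i = 3 ∧ j = 0) ∨
        (i = 4 ∧ j = 0) := by
      clear c0 c1
      revert hij
      revert i j
      decide
    rcases hcases with ⟨rfl, rfl⟩ | ⟨rfl, rfl⟩ | ⟨rfl, rfl⟩ | ⟨rfl, rfl⟩ | ⟨rfl, rfl⟩ | ⟨rfl, rfl⟩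
    · exact s03
    · exact s04'
    · exact h12
    · exact s21'
    · exact h0
    · exact h40
  · by_contra hne
    apply hij
    constructor
    · have : (wt i 0 : ℂ) + wt j 0 = 1 := by
        apply mul_right_cancel₀ hne
        rw [← c0, one_mul]
      exact_mod_cast this
    · have : (wt i 1 : ℂ) + wt j 1 = 1 := by
        apply mul_right_cancel₀ hne
        rw [← c1, one_mul]
      exact_mod_cast this

theorem classical_inj (s : ℂ) (hs : s = 1 ∨ s = -1) (t : (V8 ⊗[ℂ] V8) ⊗[ℂ] V8)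
    (ht : t ∈ leftPart (Module.End.eigenspace (TensorProduct.comm ℂ V8 V8).toLinearMap s))
    (hinv : t ∈ cInv ((cM.tensor cM).tensor cM)) (h0 : ph 3 0 (pk (co 7) t) = 0) : t = 0 := by
  have E0t : TensorProduct.map (dd (E0 2)) LinearMap.id t + TensorProduct.map LinearMap.id (E0 2) t = 0 :=
    (hinv 0).1
  have E1t : TensorProduct.map (dd (E1 2)) LinearMap.id t + TensorProduct.map LinearMap.id (E1 2) t = 0 :=
    (hinv 1).1
  have F0t : TensorProduct.map (dd (F0 2)) LinearMap.id t + TensorProduct.map LinearMap.id (F0 2) t = 0 :=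
    (hinv 0).2.1
  have F1t : TensorProduct.map (dd (F1 2)) LinearMap.id t + TensorProduct.map LinearMap.id (F1 2) t = 0 :=
    (hinv 1).2.1
  have H0t : TensorProduct.map (dd H0) LinearMap.id t + TensorProduct.map LinearMap.id H0 t = 0 :=
    (hinv 0).2.2
  have H1t : TensorProduct.map (dd H1) LinearMap.id t + TensorProduct.map LinearMap.id H1 t = 0 :=
    (hinv 1).2.2
  have gen : ∀ (A : V8 →ₗ[ℂ] V8) (f : V8 →ₗ[ℂ] ℂ),
      TensorProduct.map (dd A) LinearMap.id t + TensorProduct.map LinearMap.id A t = 0 →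
      dd A (pk f t) + pk (f ∘ₗ A) t = 0 := by
    intro A f hA
    have := congrArg (pk f) hA
    rwa [map_add, pk_map_left, pk_map_right, map_zero] at this
  have u7 : pk (co 7) t = 0 := by
    apply hw_zero s hs _ _ _ _ _ _ h0
    · have := pk_mem (co 7) _ t ht
      rw [Module.End.mem_eigenspace_iff] at this
      exact this
    · have := gen _ (co 7) H0t
      rw [co7H0, pk_smul] at this
      apply eq_of_sub_eq_zero
      rw [← this]; module
    · have := gen _ (co 7) H1t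
      rw [co7H1, pk_smul] at this
      apply eq_of_sub_eq_zero
      rw [← this]; module
    · have := gen _ (co 7) E0t
      rwa [co7E0, pk_zero, add_zero] at this
    · have := gen _ (co 7) E1t
      rwa [co7E1, pk_zero, add_zero] at this
  have u6 : pk (co 6) t = 0 := by
    have := gen _ (co 7) F0t
    rwa [u7, map_zero, zero_add, co7F0] at this
  have u5 : pk (co 5) t = 0 := by
    have := gen _ (co 7) F1t
    rwa [u7, map_zero, zero_add, co7F1] at this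
  have u34 : (2 : ℂ) • pk (co 3) t + pk (co 4) t = 0 := by
    have := gen _ (co 5) F0t
    rwa [u5, map_zero, zero_add, co5F0, pk_add, pk_smul] at this
  have u43 : (2 : ℂ) • pk (co 4) t + pk (co 3) t = 0 := by
    have := gen _ (co 6) F1t
    rwa [u6, map_zero, zero_add, co6F1, pk_add, pk_smul] at this
  have u3 : pk (co 3) t = 0 := by
    have h4 : pk (co 4) t = -((2 : ℂ) • pk (co 3) t) := by rw [eq_neg_iff_add_eq_zero, add_comm]; exact u34
    rw [h4] at u43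
    have h5 : (-3 : ℂ) • pk (co 3) t = 0 := by
      rw [← u43]; module
    exact (smul_eq_zero.mp h5).resolve_left (by norm_num)
  have u4 : pk (co 4) t = 0 := by rw [u3, smul_zero, zero_add] at u34; exact u34
  have u1 : pk (co 1) t = 0 := by
    have := gen _ (co 3) F0t
    rwa [u3, map_zero, zero_add, co3F0] at this
  have u2 : pk (co 2) t = 0 := by
    have := gen _ (co 4) F1t
    rwa [u4, map_zero, zero_add, co4F1] at this
  have u0 : pk (co 0) t = 0 := by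
    have := gen _ (co 1) F1t
    rwa [u1, map_zero, zero_add, co1F1] at this
  rw [decomp t]
  apply Finset.sum_eq_zero
  intro k _
  rw [all8 (P := fun k => pk (co k) t = 0) u0 u1 u2 u3 u4 u5 u6 u7 k, TensorProduct.zero_tmul]

/-- pushing invariants through an equivariant map -/
theorem push (A : V8 ⊗[ℂ] V8 →ₗ[ℂ] V8 ⊗[ℂ] V8) (A' B : V8 →ₗ[ℂ] V8) (T : V8 →ₗ[ℂ] V8 ⊗[ℂ] V8)
    (hA : A ∘ₗ T = T ∘ₗ A') (y : V8 ⊗[ℂ] V8) :
    TensorProduct.map A B (T.rTensor V8 y) = T.rTensor V8 (TensorProduct.map A' B y) := by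
  induction y using TensorProduct.induction_on with
  | zero => simp
  | tmul a b =>
    simp only [LinearMap.rTensor_tmul, TensorProduct.map_tmul]
    have := LinearMap.congr_fun hA a
    simp only [LinearMap.comp_apply] at this
    rw [this]
  | add a b ha hb => simp only [map_add, ha, hb]

theorem mem_leftPart (T : V8 →ₗ[ℂ] V8 ⊗[ℂ] V8) (S : Submodule ℂ (V8 ⊗[ℂ] V8)) (h : ∀ v, T v ∈ S)
    (y : V8 ⊗[ℂ] V8) : T.rTensor V8 y ∈ leftPart S := by
  refine ⟨(T.codRestrict S h).rTensor V8 y, ?_⟩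
  rw [← LinearMap.comp_apply, ← LinearMap.rTensor_comp]
  rfl

theorem mem_rightPart (T : V8 →ₗ[ℂ] V8 ⊗[ℂ] V8) (S : Submodule ℂ (V8 ⊗[ℂ] V8)) (h : ∀ v, T v ∈ S)
    (y : V8 ⊗[ℂ] V8) (t : (V8 ⊗[ℂ] V8) ⊗[ℂ] V8) (ht : TensorProduct.assoc ℂ V8 V8 V8 t = T.lTensor V8 y) :
    t ∈ rightPart S := by
  refine ⟨(T.codRestrict S h).lTensor V8 y, ?_⟩
  rw [← LinearMap.comp_apply, ← LinearMap.lTensor_comp]
  exact ht.symm

/-- the invariant cubic tensor -/
noncomputable def tt (q p s : ℂ) : (V8 ⊗[ℂ] V8) ⊗[ℂ] V8 := (J q p s).rTensor V8 (cv q p)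

theorem tt_coord (q p s : ℂ) (h : q * p = 1) : ph 3 0 (pk (co 7) (tt q p s)) = q ^ 2 + q ^ 4 + q ^ 6 := by
  simp only [tt, cv, map_add, map_smul, LinearMap.rTensor_tmul, pk_tmul, co_x, J_0, ph_x]
  simp
  ring

theorem tt_inv (q p s : ℂ) (h : q * p = 1) : tt q p s ∈ qInv (((qM q p).tensor (qM q p)).tensor (qM q p)) := by
  refine all2 ⟨?_, ?_, ?_⟩ ⟨?_, ?_, ?_⟩
  · show TensorProduct.map (TensorProduct.map (E0 (q + p)) (K0 q p) + TensorProduct.map LinearMap.id (E0 (q + p)))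
      (K0 q p) (tt q p s) + TensorProduct.map LinearMap.id (E0 (q + p)) (tt q p s) = 0
    rw [tt, push _ _ _ _ (J_E0 q p s h), push _ LinearMap.id _ _ rfl, ← map_add,
      ← LinearMap.add_apply, cv_E0 q p h, map_zero]
  · show TensorProduct.map (TensorProduct.map (F0 (q + p)) LinearMap.id + TensorProduct.map (K0 p q) (F0 (q + p)))
      LinearMap.id (tt q p s) + TensorProduct.map (TensorProduct.map (K0 p q) (K0 p q)) (F0 (q + p)) (tt q p s) = 0
    rw [tt, push _ _ _ _ (J_F0 q p s h), push _ _ _ _ (J_L0 q p s h),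
      ← map_add, ← LinearMap.add_apply, cv_F0 q p h, map_zero]
  · show TensorProduct.map (TensorProduct.map (K0 q p) (K0 q p)) (K0 q p) (tt q p s) = tt q p s
    rw [tt, push _ _ _ _ (J_K0 q p s h), cv_K0 q p h]
  · show TensorProduct.map (TensorProduct.map (E1 (q + p)) (K1 q p) + TensorProduct.map LinearMap.id (E1 (q + p)))
      (K1 q p) (tt q p s) + TensorProduct.map LinearMap.id (E1 (q + p)) (tt q p s) = 0
    rw [tt, push _ _ _ _ (J_E1 q p s h), push _ LinearMap.id _ _ rfl, ← map_add,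
      ← LinearMap.add_apply, cv_E1 q p h, map_zero]
  · show TensorProduct.map (TensorProduct.map (F1 (q + p)) LinearMap.id + TensorProduct.map (K1 p q) (F1 (q + p)))
      LinearMap.id (tt q p s) + TensorProduct.map (TensorProduct.map (K1 p q) (K1 p q)) (F1 (q + p)) (tt q p s) = 0
    rw [tt, push _ _ _ _ (J_F1 q p s h), push _ _ _ _ (J_L1 q p s h),
      ← map_add, ← LinearMap.add_apply, cv_F1 q p h, map_zero]
  · show TensorProduct.map (TensorProduct.map (K1 q p) (K1 q p)) (K1 q p) (tt q p s) = tt q p s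
    rw [tt, push _ _ _ _ (J_K1 q p s h), cv_K1 q p h]

end Pool.Agent.H630R3.BZ
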