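import Mathlib
import Pool.Agent.H630R3.BZFinal

set_option autoImplicit false
set_option maxHeartbeats 4000000
set_option linter.unusedSimpArgs false
set_option linter.unusedVariables false

namespace Pool.Agent.H630R3.BZ

open scoped TensorProduct

theorem finrank_ne_zero_of_mem {X : Type} [AddCommGroup X] [Module ℂ X] [FiniteDimensional ℂ X]
    (W : Submodule ℂ X) (t : X) (ht : t ∈ W) (hne : t ≠ 0) : Module.finrank ℂ ↥W ≠ 0 := by
  apply ne_of_gt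
  rw [Module.finrank_pos_iff_exists_ne_zero]
  exact ⟨⟨t, ht⟩, fun h => hne (congrArg Subtype.val h)⟩

theorem finrank_le_one_of_functional {X : Type} [AddCommGroup X] [Module ℂ X] [FiniteDimensional ℂ X]
    (W : Submodule ℂ X) (f : X →ₗ[ℂ] ℂ) (h : ∀ t ∈ W, f t = 0 → t = 0) : Module.finrank ℂ ↥W ≤ 1 := by
  have hf : Function.Injective (f ∘ₗ W.subtype) := by
    rw [← LinearMap.ker_eq_bot, LinearMap.ker_eq_bot']
    intro m hm
    exact Subtype.ext (h m m.2 hm)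
  have := LinearMap.finrank_le_finrank_of_injective hf
  rwa [Module.finrank_self] at this

theorem cMult0_le_one {X : Type} [AddCommGroup X] [Module ℂ X] [FiniteDimensional ℂ X] (M : COps X)
    (S : Submodule ℂ X) (f : X →ₗ[ℂ] ℂ) (h : ∀ t, t ∈ S → t ∈ cInv M → f t = 0 → t = 0) : cMult0 M S ≤ 1 :=
  finrank_le_one_of_functional _ f (fun t ht h0 => h t ht.1 ht.2 h0)

theorem cMult0_ne_zero {X : Type} [AddCommGroup X] [Module ℂ X] [FiniteDimensional ℂ X] (M : COps X)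
    (S : Submodule ℂ X) (t : X) (h1 : t ∈ S) (h2 : t ∈ cInv M) (hne : t ≠ 0) : cMult0 M S ≠ 0 :=
  finrank_ne_zero_of_mem _ t ⟨h1, h2⟩ hne

theorem qMult0_ne_zero {X : Type} [AddCommGroup X] [Module ℂ X] [FiniteDimensional ℂ X] (M : QOps X)
    (S : Submodule ℂ X) (t : X) (h1 : t ∈ S) (h2 : t ∈ qInv M) (hne : t ≠ 0) : qMult0 M S ≠ 0 :=
  finrank_ne_zero_of_mem _ t ⟨h1, h2⟩ hne

theorem K0_one : K0 1 1 = LinearMap.id := by
  refine lin_ext (all8 ?_ ?_ ?_ ?_ ?_ ?_ ?_ ?_) <;> simp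

theorem K1_one : K1 1 1 = LinearMap.id := by
  refine lin_ext (all8 ?_ ?_ ?_ ?_ ?_ ?_ ?_ ?_) <;> simp

theorem tt_cinv (s : ℂ) : tt 1 1 s ∈ cInv ((cM.tensor cM).tensor cM) := by
  have h := tt_inv 1 1 s (one_mul 1)
  have h2 : (1 : ℂ) + 1 = 2 := one_add_one_eq_two
  have hE0 : TensorProduct.map (TensorProduct.map (E0 (1 + 1)) (K0 1 1) + TensorProduct.map LinearMap.id (E0 (1 + 1)))
      (K0 1 1) (tt 1 1 s) + TensorProduct.map LinearMap.id (E0 (1 + 1)) (tt 1 1 s) = 0 := (h 0).1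
  have hF0 : TensorProduct.map (TensorProduct.map (F0 (1 + 1)) LinearMap.id + TensorProduct.map (K0 1 1) (F0 (1 + 1)))
      LinearMap.id (tt 1 1 s) + TensorProduct.map (TensorProduct.map (K0 1 1) (K0 1 1)) (F0 (1 + 1)) (tt 1 1 s) = 0 :=
    (h 0).2.1
  have hE1 : TensorProduct.map (TensorProduct.map (E1 (1 + 1)) (K1 1 1) + TensorProduct.map LinearMap.id (E1 (1 + 1)))
      (K1 1 1) (tt 1 1 s) + TensorProduct.map LinearMap.id (E1 (1 + 1)) (tt 1 1 s) = 0 := (h 1).1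
  have hF1 : TensorProduct.map (TensorProduct.map (F1 (1 + 1)) LinearMap.id + TensorProduct.map (K1 1 1) (F1 (1 + 1)))
      LinearMap.id (tt 1 1 s) + TensorProduct.map (TensorProduct.map (K1 1 1) (K1 1 1)) (F1 (1 + 1)) (tt 1 1 s) = 0 :=
    (h 1).2.1
  rw [K0_one, h2] at hE0 hF0
  rw [K1_one, h2] at hE1 hF1
  rw [TensorProduct.map_id] at hF0 hF1
  refine all2 ⟨hE0, hF0, ?_⟩ ⟨hE1, hF1, ?_⟩
  · show TensorProduct.map (dd H0) LinearMap.id (tt 1 1 s) + TensorProduct.map LinearMap.id H0 (tt 1 1 s) = 0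
    rw [tt, push _ _ _ _ (J_H0 1 1 s), push _ LinearMap.id _ _ rfl, ← map_add, ← LinearMap.add_apply, cv_H0, map_zero]
  · show TensorProduct.map (dd H1) LinearMap.id (tt 1 1 s) + TensorProduct.map LinearMap.id H1 (tt 1 1 s) = 0
    rw [tt, push _ _ _ _ (J_H1 1 1 s), push _ LinearMap.id _ _ rfl, ← map_add, ← LinearMap.add_apply, cv_H1, map_zero]

/-- multiplicity one in the classical case -/
theorem classical_one (s : ℂ) (hs : s = 1 ∨ s = -1) :
    cMult0 ((cM.tensor cM).tensor cM)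
      (leftPart (Module.End.eigenspace (TensorProduct.comm ℂ V8 V8).toLinearMap s)) = 1 := by
  have hs2 : s ^ 2 = 1 := by rcases hs with rfl | rfl <;> norm_num
  apply le_antisymm
  · exact cMult0_le_one _ _ (ph 3 0 ∘ₗ pk (co 7)) (fun t h1 h2 h0 => classical_inj s hs t h1 h2 h0)
  · apply Nat.one_le_iff_ne_zero.mpr
    have hmem : tt 1 1 s ∈ leftPart (Module.End.eigenspace (TensorProduct.comm ℂ V8 V8).toLinearMap s) := by
      refine mem_leftPart _ _ ?_ _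
      intro v
      rw [Module.End.mem_eigenspace_iff]
      exact LinearMap.congr_fun (comm_J s hs2) v
    have hne : tt 1 1 s ≠ 0 := by
      intro h
      have := tt_coord 1 1 s (one_mul 1)
      rw [h, map_zero, map_zero] at this
      norm_num at this
    exact cMult0_ne_zero _ _ _ hmem (tt_cinv s) hne

/-- the invariant cubic tensors in the quantum case -/
theorem quantum_mem (q : ℝ) (hq0 : 0 < q) (s : ℝ) (hs : s ^ 2 = 1) (S : Submodule ℂ (V8 ⊗[ℂ] V8))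
    (hS : Module.End.eigenspace (Rq q (q : ℂ)⁻¹) ((s * q⁻¹ ^ 3 : ℝ) : ℂ) ≤ S) :
    tt q (q : ℂ)⁻¹ s ∈ leftPart S ⊓ rightPart S := by
  have hqc : (q : ℂ) ≠ 0 := by exact_mod_cast hq0.ne'
  have h : (q : ℂ) * (q : ℂ)⁻¹ = 1 := mul_inv_cancel₀ hqc
  have hs' : (s : ℂ) ^ 2 = 1 := by exact_mod_cast hs
  have hJ : ∀ v, J q (q : ℂ)⁻¹ s v ∈ S := by
    intro v
    apply hS
    rw [Module.End.mem_eigenspace_iff]
    have := LinearMap.congr_fun (R_J _ _ _ h hs') v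
    rw [LinearMap.comp_apply, LinearMap.smul_apply] at this
    rw [this]
    push_cast
    rfl
  exact ⟨mem_leftPart _ _ hJ _, mem_rightPart _ _ hJ _ _ (cv_assoc _ _ _ h)⟩

theorem quantum_pos (q : ℝ) (hq0 : 0 < q) (s : ℝ) (hs : s ^ 2 = 1) (S : Submodule ℂ (V8 ⊗[ℂ] V8))
    (hS : Module.End.eigenspace (Rq q (q : ℂ)⁻¹) ((s * q⁻¹ ^ 3 : ℝ) : ℂ) ≤ S) :
    qMult0 (((qM q (q : ℂ)⁻¹).tensor (qM q (q : ℂ)⁻¹)).tensor (qM q (q : ℂ)⁻¹)) (leftPart S ⊓ rightPart S) ≠ 0 := by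
  have hqc : (q : ℂ) ≠ 0 := by exact_mod_cast hq0.ne'
  have h : (q : ℂ) * (q : ℂ)⁻¹ = 1 := mul_inv_cancel₀ hqc
  have hmem := quantum_mem q hq0 s hs S hS
  have hinv := tt_inv q (q : ℂ)⁻¹ s h
  have hne : tt q (q : ℂ)⁻¹ s ≠ 0 := by
    intro h0
    have := tt_coord q (q : ℂ)⁻¹ s h
    rw [h0, map_zero, map_zero] at this
    have h1 : (0 : ℝ) = q ^ 2 + q ^ 4 + q ^ 6 := by exact_mod_cast this
    have h2 : 0 < q ^ 2 + q ^ 4 + q ^ 6 := by positivity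
    linarith
  exact qMult0_ne_zero _ _ _ hmem hinv hne

theorem main (q : ℝ) (hq0 : 0 < q) (hq1 : q ≠ 1) :
    IsQSimpleOfHighestWeight q (qM q (q : ℂ)⁻¹) ![1, 1] ∧
    IsCSimpleOfHighestWeight cM ![1, 1] ∧
    (∃! R, IsBraiding q (qM q (q : ℂ)⁻¹) ![1, 1] R) ∧
    (∀ R, IsBraiding q (qM q (q : ℂ)⁻¹) ![1, 1] R →
      0 < qMult0 (((qM q (q : ℂ)⁻¹).tensor (qM q (q : ℂ)⁻¹)).tensor (qM q (q : ℂ)⁻¹)) (qSym3 R) ∧
      0 < qMult0 (((qM q (q : ℂ)⁻¹).tensor (qM q (q : ℂ)⁻¹)).tensor (qM q (q : ℂ)⁻¹)) (qExt3 R)) ∧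
    symLow0 cM = 0 ∧ extLow0 cM = 0 := by
  refine ⟨qSimple_hw q hq0 hq1, cSimple_hw, ⟨Rq q (q : ℂ)⁻¹, isBraiding q hq0 hq1, braiding_unique q hq0 hq1⟩,
    ?_, ?_, ?_⟩
  · intro R hR
    obtain rfl := braiding_unique q hq0 hq1 R hR
    have hq3 : 0 < q⁻¹ ^ 3 := by positivity
    constructor
    · apply Nat.pos_of_ne_zero
      apply quantum_pos q hq0 1 (by norm_num)
      exact le_iSup₂_of_le (1 * q⁻¹ ^ 3) (by linarith) le_rfl
    · apply Nat.pos_of_ne_zero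
      apply quantum_pos q hq0 (-1) (by norm_num)
      exact le_iSup₂_of_le (-1 * q⁻¹ ^ 3) (by linarith) le_rfl
  · have h1 := classical_one 1 (Or.inl rfl)
    have h2 := classical_one (-1) (Or.inr rfl)
    rw [symLow0, cSym2, cExt2, h1, h2]
    rfl
  · have h1 := classical_one 1 (Or.inl rfl)
    have h2 := classical_one (-1) (Or.inr rfl)
    rw [extLow0, cSym2, cExt2, h1, h2]
    rfl

end Pool.Agent.H630R3.BZ
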