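import Mathlib

set_option autoImplicit false

namespace Pool.Agent.H630R3.Latin

/-- `T` is a quasigroup: both equations `a * x = b` and `y * a = b` have exactly one solution. -/
def IsQuasigroup (T : Type) [Mul T] : Prop :=
  (∀ a b : T, ∃! x : T, a * x = b) ∧ (∀ a b : T, ∃! y : T, y * a = b)

/-- The Latin square of `T`: the set of cells `(x, y, x * y)` in `T ^ 3`. -/
def Cells (T : Type) [Mul T] : Set (Fin 3 → T) := {c | c 2 = c 0 * c 1}

/-- `T` and `S` are isotopic. -/
def Isotopic (T S : Type) [Mul T] [Mul S] : Prop :=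
  ∃ α β γ : T ≃ S, ∀ x y : T, γ (x * y) = α x * β y

/-- A map of `T ^ 3` obtained by applying a bijection of `T` to each coordinate and then permuting the
three coordinates. -/
def IsParatopism {T : Type} (g : (Fin 3 → T) → (Fin 3 → T)) : Prop :=
  ∃ (f : Fin 3 → Equiv.Perm T) (s : Equiv.Perm (Fin 3)), ∀ c i, g c i = f (s i) (c (s i))

/-- A paratopism mapping the set of cells onto itself. -/
def IsAutoparatopism (T : Type) [Mul T] (g : (Fin 3 → T) → (Fin 3 → T)) : Prop :=
  IsParatopism g ∧ g '' Cells T = Cells T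

/-- The autoparatopism group acts primitively on the cells: it is transitive, and the only invariant equivalence
relations on the set of cells are equality and the relation with one class. -/
def PrimitiveOnCells (T : Type) [Mul T] : Prop :=
  (∀ c ∈ Cells T, ∀ d ∈ Cells T, ∃ g, IsAutoparatopism T g ∧ g c = d) ∧
  ∀ r : Setoid (Cells T),
    (∀ g, IsAutoparatopism T g → ∀ c d c' d' : Cells T,
      (c' : Fin 3 → T) = g c → (d' : Fin 3 → T) = g d → r c d → r c' d') →
    r = ⊥ ∨ r = ⊤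

/-- Zorn's vector matrices `(a, u; v, b)` over `F`: the split octonion algebra. -/
@[ext] structure Zorn (F : Type) where
  a : F
  b : F
  u1 : F
  u2 : F
  u3 : F
  v1 : F
  v2 : F
  v3 : F

namespace Zorn

variable {F : Type} [Field F]

/-- Zorn's product `(a, u; v, b) (a', u'; v', b') = (a a' + u . v', a u' + b' u - v x v'; a' v + b v' + u x u',
b b' + v . u')`. -/
instance : Mul (Zorn F) := ⟨fun x y =>
  { a := x.a * y.a + (x.u1 * y.v1 + x.u2 * y.v2 + x.u3 * y.v3)
    b := x.b * y.b + (x.v1 * y.u1 + x.v2 * y.u2 + x.v3 * y.u3)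
    u1 := x.a * y.u1 + y.b * x.u1 - (x.v2 * y.v3 - x.v3 * y.v2)
    u2 := x.a * y.u2 + y.b * x.u2 - (x.v3 * y.v1 - x.v1 * y.v3)
    u3 := x.a * y.u3 + y.b * x.u3 - (x.v1 * y.v2 - x.v2 * y.v1)
    v1 := y.a * x.v1 + x.b * y.v1 + (x.u2 * y.u3 - x.u3 * y.u2)
    v2 := y.a * x.v2 + x.b * y.v2 + (x.u3 * y.u1 - x.u1 * y.u3)
    v3 := y.a * x.v3 + x.b * y.v3 + (x.u1 * y.u2 - x.u2 * y.u1) }⟩

instance : Neg (Zorn F) := ⟨fun x => ⟨-x.a, -x.b, -x.u1, -x.u2, -x.u3, -x.v1, -x.v2, -x.v3⟩⟩

/-- the norm form `a b - u . v` -/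
def norm (x : Zorn F) : F := x.a * x.b - (x.u1 * x.v1 + x.u2 * x.v2 + x.u3 * x.v3)

theorem mul_def (x y : Zorn F) : x * y =
  { a := x.a * y.a + (x.u1 * y.v1 + x.u2 * y.v2 + x.u3 * y.v3)
    b := x.b * y.b + (x.v1 * y.u1 + x.v2 * y.u2 + x.v3 * y.u3)
    u1 := x.a * y.u1 + y.b * x.u1 - (x.v2 * y.v3 - x.v3 * y.v2)
    u2 := x.a * y.u2 + y.b * x.u2 - (x.v3 * y.v1 - x.v1 * y.v3)
    u3 := x.a * y.u3 + y.b * x.u3 - (x.v1 * y.v2 - x.v2 * y.v1)
    v1 := y.a * x.v1 + x.b * y.v1 + (x.u2 * y.u3 - x.u3 * y.u2)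
    v2 := y.a * x.v2 + x.b * y.v2 + (x.u3 * y.u1 - x.u1 * y.u3)
    v3 := y.a * x.v3 + x.b * y.v3 + (x.u1 * y.u2 - x.u2 * y.u1) } := rfl

theorem neg_def (x : Zorn F) : -x = ⟨-x.a, -x.b, -x.u1, -x.u2, -x.u3, -x.v1, -x.v2, -x.v3⟩ := rfl

theorem norm_mul (x y : Zorn F) : norm (x * y) = norm x * norm y := by
  simp only [norm, mul_def]; ring

theorem neg_mul' (x y : Zorn F) : (-x) * y = -(x * y) := by
  ext <;> simp only [mul_def, neg_def] <;> ring

theorem mul_neg' (x y : Zorn F) : x * (-y) = -(x * y) := by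
  ext <;> simp only [mul_def, neg_def] <;> ring

theorem neg_neg' (x : Zorn F) : -(-x) = x := by
  ext <;> simp only [neg_def, neg_neg]

end Zorn

/-- `x` and `y` agree up to sign (for norm-one elements of the split octonions) -/
instance paigeSetoid (F : Type) [Field F] : Setoid {x : Zorn F // x.norm = 1} where
  r x y := y.1 = x.1 ∨ y.1 = -x.1
  iseqv := by
    refine ⟨fun x => Or.inl rfl, ?_, ?_⟩
    · rintro x y (h | h)
      · exact Or.inl h.symm
      · right; rw [h, Zorn.neg_neg']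
    · rintro x y z (h | h) (h' | h')
      · left; rw [h', h]
      · right; rw [h', h]
      · right; rw [h', h]
      · left; rw [h', h, Zorn.neg_neg']

/-- The Paige loop `M*(F)`: norm-one elements of the split octonion algebra over `F`, modulo sign. -/
def PaigeLoop (F : Type) [Field F] : Type := Quotient (paigeSetoid F)

instance (F : Type) [Field F] : Mul (PaigeLoop F) :=
  ⟨Quotient.map₂ (fun x y => ⟨x.1 * y.1, by rw [Zorn.norm_mul, x.2, y.2, mul_one]⟩) (by
    rintro x x' (hx | hx) y y' (hy | hy)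
    · left; simp only [hx, hy]
    · right; simp only [hx, hy, Zorn.mul_neg']
    · right; simp only [hx, hy, Zorn.neg_mul']
    · left; simp only [hx, hy, Zorn.mul_neg', Zorn.neg_mul', Zorn.neg_neg'])⟩

end Pool.Agent.H630R3.Latin
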