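import Pool.Agent.H630R3.LatinDefs

set_option autoImplicit false

namespace Pool.Agent.H630R3.Latin

/-- the abstract properties used in the primitivity proof -/
structure MData (T : Type) [Mul T] [One T] [Inv T] : Prop where
  one_mul : ∀ x : T, 1 * x = x
  mul_one : ∀ x : T, x * 1 = x
  inv_mul : ∀ x y : T, x⁻¹ * (x * y) = y
  mul_inv : ∀ x y : T, (y * x) * x⁻¹ = y
  rev : ∀ x y : T, (x * y)⁻¹ = y⁻¹ * x⁻¹
  lm : ∀ a u w : T, ((a * u) * a) * w = a * (u * (a * w))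
  cube : ∀ x : T, ∃ y : T, (y * y) * y = x
  simple : ∀ X : T → Prop, (∀ x y, X x → X y → X (x * y)) → (∀ x, X x → X x⁻¹) →
    (∀ φ : T ≃ T, (∀ x y, φ (x * y) = φ x * φ y) → ∀ x, X x → X (φ x)) →
    (∃ x, X x ∧ x ≠ 1) → ∀ x, X x

namespace MData

variable {T : Type} [Mul T] [One T] [Inv T] (h : MData T)

include h

theorem inv_self (x : T) : x⁻¹ * x = 1 := by
  have := h.inv_mul x 1; rwa [h.mul_one] at this

theorem inv_inv' (x : T) : (x⁻¹)⁻¹ = x := by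
  have := h.inv_mul x⁻¹ x
  rwa [h.inv_self, h.mul_one] at this

theorem mul_inv_self (x : T) : x * x⁻¹ = 1 := by
  have := h.inv_self x⁻¹; rwa [h.inv_inv'] at this

theorem inv_one' : (1 : T)⁻¹ = 1 := by
  have := h.inv_self 1; rwa [h.mul_one] at this

theorem mul_inv_mul (x y : T) : x * (x⁻¹ * y) = y := by
  have := h.inv_mul x⁻¹ y; rwa [h.inv_inv'] at this

theorem mul_mul_inv (x y : T) : (y * x⁻¹) * x = y := by
  have := h.mul_inv x⁻¹ y; rwa [h.inv_inv'] at this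

theorem flex (a u : T) : (a * u) * a = a * (u * a) := by
  have := h.lm a u 1; rwa [h.mul_one, h.mul_one] at this

/-- left multiplication as a permutation -/
def Lp (a : T) : Equiv.Perm T := ⟨fun x => a * x, fun x => a⁻¹ * x, h.inv_mul a, h.mul_inv_mul a⟩
/-- right multiplication as a permutation -/
def Rp (a : T) : Equiv.Perm T := ⟨fun x => x * a, fun x => x * a⁻¹, h.mul_inv a, h.mul_mul_inv a⟩
/-- inversion as a permutation -/
def Ip : Equiv.Perm T := ⟨fun x => x⁻¹, fun x => x⁻¹, h.inv_inv', h.inv_inv'⟩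

theorem isQuasigroup : IsQuasigroup T := by
  constructor
  · intro a b
    refine ⟨a⁻¹ * b, h.mul_inv_mul a b, ?_⟩
    intro y hy
    rw [← hy, h.inv_mul]
  · intro a b
    refine ⟨b * a⁻¹, h.mul_mul_inv a b, ?_⟩
    intro y hy
    rw [← hy, h.mul_inv]

end MData

/-- autotopisms -/
structure Atp (T : Type) [Mul T] where
  f0 : Equiv.Perm T
  f1 : Equiv.Perm T
  f2 : Equiv.Perm T
  hom : ∀ x y : T, f2 (x * y) = f0 x * f1 y

namespace Atp

variable {T : Type} [Mul T]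

def comp (A B : Atp T) : Atp T where
  f0 := B.f0.trans A.f0
  f1 := B.f1.trans A.f1
  f2 := B.f2.trans A.f2
  hom x y := by simp only [Equiv.trans_apply, B.hom, A.hom]

def act (A : Atp T) (c : Fin 3 → T) : Fin 3 → T := ![A.f0 (c 0), A.f1 (c 1), A.f2 (c 2)]

theorem isAuto (A : Atp T) : IsAutoparatopism T A.act := by
  constructor
  · refine ⟨![A.f0, A.f1, A.f2], Equiv.refl _, ?_⟩
    intro c i
    fin_cases i <;> rfl
  · apply Set.Subset.antisymm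
    · rintro _ ⟨c, hc, rfl⟩
      show A.f2 (c 2) = A.f0 (c 0) * A.f1 (c 1)
      rw [show c 2 = c 0 * c 1 from hc, A.hom]
    · intro c hc
      refine ⟨![A.f0.symm (c 0), A.f1.symm (c 1), A.f0.symm (c 0) * A.f1.symm (c 1)], rfl, ?_⟩
      funext i
      fin_cases i
      · show A.f0 (A.f0.symm (c 0)) = c 0; simp
      · show A.f1 (A.f1.symm (c 1)) = c 1; simp
      · show A.f2 (A.f0.symm (c 0) * A.f1.symm (c 1)) = c 2
        rw [A.hom]; simp only [Equiv.apply_symm_apply]; exact (show c 2 = c 0 * c 1 from hc).symm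

end Atp

namespace MData

variable {T : Type} [Mul T] [One T] [Inv T] (h : MData T)

include h

theorem bol (a x y : T) : ((a * x) * a) * (a⁻¹ * y) = a * (x * y) := by
  rw [h.lm, h.mul_inv_mul]

theorem bol' (b x y : T) : (x * b⁻¹) * (b * (y * b)) = (x * y) * b := by
  have h1 := h.bol b⁻¹ y⁻¹ x⁻¹
  have h2 := congrArg (fun t : T => t⁻¹) h1
  simp only [h.rev, h.inv_inv'] at h2
  exact h2

/-- `S_a : (x, y, z) ↦ ((a x) a, a⁻¹ y, a z)` -/
def S (a : T) : Atp T where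
  f0 := (h.Lp a).trans (h.Rp a)
  f1 := h.Lp a⁻¹
  f2 := h.Lp a
  hom x y := (h.bol a x y).symm

/-- `U_b : (x, y, z) ↦ (x b⁻¹, b (y b), z b)` -/
def U (b : T) : Atp T where
  f0 := h.Rp b⁻¹
  f1 := (h.Rp b).trans (h.Lp b)
  f2 := h.Rp b
  hom x y := (h.bol' b x y).symm

/-- conjugation of an autotopism by `τ : (x, y, z) ↦ (y⁻¹, x⁻¹, z⁻¹)` -/
def tconj (A : Atp T) : Atp T where
  f0 := (h.Ip.trans A.f1).trans h.Ip
  f1 := (h.Ip.trans A.f0).trans h.Ip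
  f2 := (h.Ip.trans A.f2).trans h.Ip
  hom x y := by
    show (A.f2 (x * y)⁻¹)⁻¹ = (A.f1 x⁻¹)⁻¹ * (A.f0 y⁻¹)⁻¹
    rw [h.rev, A.hom, h.rev]

/-- `e ↦ (b³, 1, b³)` -/
def G (b : T) : Atp T := (h.U b).comp (h.S (b * b))

theorem G_f0 (b : T) : (h.G b).f0 1 = (b * b) * b := by
  show ((((b * b) * 1) * (b * b)) * b⁻¹) = _
  rw [h.mul_one]
  -- (b²b²)b⁻¹ = b² b
  have h1 : (b * b) * (b * b) = ((b * b) * b) * b := by
    -- use flexible/left Moufang with u = 1: (b*1*b)*w = b*(1*(b*w))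
    have e1 : ∀ w : T, (b * b) * w = b * (b * w) := by
      intro w
      have := h.lm b 1 w
      rwa [h.mul_one, h.one_mul] at this
    have e2 : (b * b) * b = b * (b * b) := e1 b
    rw [e1 (b * b)]
    have e3 : ((b * b) * b) * b = b * (b * (b * b)) := h.lm b b b
    rw [e3]
  rw [h1, h.mul_inv]

theorem G_f1 (b : T) : (h.G b).f1 1 = 1 := by
  show b * (((b * b)⁻¹ * 1) * b) = 1
  rw [h.mul_one, h.rev, h.mul_mul_inv, h.mul_inv_self]

theorem exists_atp (x y : T) : ∃ A : Atp T, A.f0 1 = x ∧ A.f1 1 = y ∧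
    ∃ b b' : T, A = (h.G b).comp (h.tconj (h.G b')) := by
  obtain ⟨b, hb⟩ := h.cube x
  let y' := (h.G b).f1.symm y
  obtain ⟨b', hb'⟩ := h.cube y'⁻¹
  refine ⟨(h.G b).comp (h.tconj (h.G b')), ?_, ?_, b, b', rfl⟩
  · show (h.G b).f0 (((h.G b').f1 (1 : T)⁻¹)⁻¹) = x
    rw [h.inv_one', h.G_f1, h.inv_one', h.G_f0, hb]
  · show (h.G b).f1 (((h.G b').f0 (1 : T)⁻¹)⁻¹) = y
    rw [h.inv_one', h.G_f0, hb', h.inv_inv']
    simp [y']

theorem cells_transitive (c d : Fin 3 → T) (hc : c ∈ Cells T) (hd : d ∈ Cells T) :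
    ∃ g, IsAutoparatopism T g ∧ g c = d := by
  obtain ⟨A, hA0, hA1, -⟩ := h.exists_atp (c 0) (c 1)
  obtain ⟨B, hB0, hB1, -⟩ := h.exists_atp (d 0) (d 1)
  let C : Atp T :=
    { f0 := A.f0.symm.trans B.f0
      f1 := A.f1.symm.trans B.f1
      f2 := A.f2.symm.trans B.f2
      hom := by
        intro x y
        simp only [Equiv.trans_apply]
        have : A.f2.symm (x * y) = A.f0.symm x * A.f1.symm y := by
          rw [Equiv.symm_apply_eq, A.hom]; simp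
        rw [this, B.hom] }
  refine ⟨C.act, C.isAuto, ?_⟩
  have e0 : A.f0.symm (c 0) = 1 := by rw [← hA0]; simp
  have e1 : A.f1.symm (c 1) = 1 := by rw [← hA1]; simp
  funext i
  fin_cases i
  · show B.f0 (A.f0.symm (c 0)) = d 0
    rw [e0, hB0]
  · show B.f1 (A.f1.symm (c 1)) = d 1
    rw [e1, hB1]
  · show C.f2 (c 2) = d 2
    rw [show c 2 = c 0 * c 1 from hc, C.hom]
    show B.f0 (A.f0.symm (c 0)) * B.f1 (A.f1.symm (c 1)) = d 2
    rw [e0, hB0, e1, hB1]; exact (show d 2 = d 0 * d 1 from hd).symm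

/-- `ρ : (x, y, z) ↦ (y, z⁻¹, x⁻¹)` -/
theorem rho_auto : IsAutoparatopism T (fun c => ![c 1, (c 2)⁻¹, (c 0)⁻¹]) := by
  have key : ∀ c ∈ Cells T, (![c 1, (c 2)⁻¹, (c 0)⁻¹] : Fin 3 → T) ∈ Cells T := by
    intro c hc
    show (c 0)⁻¹ = c 1 * (c 2)⁻¹
    rw [show c 2 = c 0 * c 1 from hc, h.rev, h.mul_inv_mul]
  constructor
  · refine ⟨![h.Ip, Equiv.refl _, h.Ip], finRotate 3, ?_⟩
    intro c i
    fin_cases i <;> rfl
  · apply Set.Subset.antisymm
    · rintro _ ⟨c, hc, rfl⟩; exact key c hc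
    · intro c hc
      refine ⟨![(c 2)⁻¹, c 0, (c 1)⁻¹], key _ (key c hc) |> fun h' => ?_, ?_⟩
      · have : (![(c 2)⁻¹, c 0, (c 1)⁻¹] : Fin 3 → T) =
            ![(![c 1, (c 2)⁻¹, (c 0)⁻¹] : Fin 3 → T) 1, ((![c 1, (c 2)⁻¹, (c 0)⁻¹] : Fin 3 → T) 2)⁻¹,
              ((![c 1, (c 2)⁻¹, (c 0)⁻¹] : Fin 3 → T) 0)⁻¹] := by
          funext i; fin_cases i
          · rfl
          · exact (h.inv_inv' (c 0)).symm
          · rfl
        rw [this]; exact h'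
      · funext i; fin_cases i
        · rfl
        · exact h.inv_inv' (c 1)
        · exact h.inv_inv' (c 2)

/-- `τ : (x, y, z) ↦ (y⁻¹, x⁻¹, z⁻¹)` -/
theorem tau_auto : IsAutoparatopism T (fun c => ![(c 1)⁻¹, (c 0)⁻¹, (c 2)⁻¹]) := by
  have key : ∀ c ∈ Cells T, (![(c 1)⁻¹, (c 0)⁻¹, (c 2)⁻¹] : Fin 3 → T) ∈ Cells T := by
    intro c hc
    show (c 2)⁻¹ = (c 1)⁻¹ * (c 0)⁻¹
    rw [show c 2 = c 0 * c 1 from hc, h.rev]
  constructor
  · refine ⟨![h.Ip, h.Ip, h.Ip], Equiv.swap 0 1, ?_⟩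
    intro c i
    fin_cases i <;> rfl
  · apply Set.Subset.antisymm
    · rintro _ ⟨c, hc, rfl⟩; exact key c hc
    · intro c hc
      refine ⟨![(c 1)⁻¹, (c 0)⁻¹, (c 2)⁻¹], key c hc, ?_⟩
      funext i; fin_cases i
      · exact h.inv_inv' (c 0)
      · exact h.inv_inv' (c 1)
      · exact h.inv_inv' (c 2)

/-- the Bol reflection `σ_a : (x, y, z) ↦ ((a x⁻¹) a, a⁻¹ z, a y)` -/
theorem sigma_auto (a : T) :
    IsAutoparatopism T (fun c => ![(a * (c 0)⁻¹) * a, a⁻¹ * c 2, a * c 1]) := by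
  have key : ∀ c ∈ Cells T, (![(a * (c 0)⁻¹) * a, a⁻¹ * c 2, a * c 1] : Fin 3 → T) ∈ Cells T := by
    intro c hc
    show a * c 1 = ((a * (c 0)⁻¹) * a) * (a⁻¹ * c 2)
    rw [show c 2 = c 0 * c 1 from hc, h.bol, h.inv_mul]
  have hinv : ∀ x : T, (a * ((a * x⁻¹) * a)⁻¹) * a = x := by
    intro x
    rw [h.rev, h.rev, h.inv_inv', h.mul_inv_mul, h.mul_mul_inv]
  constructor
  · refine ⟨![(h.Ip.trans (h.Lp a)).trans (h.Rp a), h.Lp a, h.Lp a⁻¹], Equiv.swap 1 2, ?_⟩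
    intro c i
    fin_cases i <;> rfl
  · apply Set.Subset.antisymm
    · rintro _ ⟨c, hc, rfl⟩; exact key c hc
    · intro c hc
      refine ⟨_, key c hc, ?_⟩
      funext i; fin_cases i
      · exact hinv (c 0)
      · exact h.inv_mul a (c 1)
      · exact h.mul_inv_mul a (c 2)

theorem aut_auto (φ : T ≃ T) (hφ : ∀ x y, φ (x * y) = φ x * φ y) :
    IsAutoparatopism T (fun c => ![φ (c 0), φ (c 1), φ (c 2)]) :=
  (⟨φ, φ, φ, hφ⟩ : Atp T).isAuto

theorem primitive : PrimitiveOnCells T := by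
  refine ⟨fun c hc d hd => h.cells_transitive c d hc hd, ?_⟩
  intro r hr
  by_cases hbot : r = ⊥
  · exact Or.inl hbot
  right
  -- the cell e
  let e : Cells T := ⟨![1, 1, 1], (h.one_mul 1).symm⟩
  let B : (Fin 3 → T) → Prop := fun c => ∃ hc : c ∈ Cells T, r e ⟨c, hc⟩
  have hmemCell : ∀ g, IsAutoparatopism T g → ∀ c ∈ Cells T, g c ∈ Cells T := by
    intro g hg c hc
    rw [← hg.2]; exact Set.mem_image_of_mem g hc
  -- maps sending a point of B into B preserve B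
  have hpres : ∀ g, IsAutoparatopism T g → ∀ p, B p → B (g p) → ∀ c, B c → B (g c) := by
    rintro g hg p ⟨hp, hep⟩ ⟨hgp, hegp⟩ c ⟨hc, hec⟩
    refine ⟨hmemCell g hg c hc, ?_⟩
    have h1 : r ⟨p, hp⟩ ⟨c, hc⟩ := r.trans (r.symm hep) hec
    have h2 := hr g hg ⟨p, hp⟩ ⟨c, hc⟩ ⟨g p, hgp⟩ ⟨g c, hmemCell g hg c hc⟩ rfl rfl h1
    exact r.trans hegp h2
  have hBe : B ![1, 1, 1] := ⟨e.2, r.refl e⟩
  have i1 := h.inv_one'
  have hrho : ∀ c, B c → B ![c 1, (c 2)⁻¹, (c 0)⁻¹] := by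
    apply hpres _ h.rho_auto ![1, 1, 1] hBe
    have : (![(![1, 1, 1] : Fin 3 → T) 1, ((![1, 1, 1] : Fin 3 → T) 2)⁻¹,
        ((![1, 1, 1] : Fin 3 → T) 0)⁻¹] : Fin 3 → T) = ![1, 1, 1] := by
      funext i; fin_cases i
      · rfl
      · exact i1
      · exact i1
    show B (![(![1, 1, 1] : Fin 3 → T) 1, ((![1, 1, 1] : Fin 3 → T) 2)⁻¹,
        ((![1, 1, 1] : Fin 3 → T) 0)⁻¹])
    rw [this]; exact hBe
  have htau : ∀ c, B c → B ![(c 1)⁻¹, (c 0)⁻¹, (c 2)⁻¹] := by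
    apply hpres _ h.tau_auto ![1, 1, 1] hBe
    have : (![((![1, 1, 1] : Fin 3 → T) 1)⁻¹, ((![1, 1, 1] : Fin 3 → T) 0)⁻¹,
        ((![1, 1, 1] : Fin 3 → T) 2)⁻¹] : Fin 3 → T) = ![1, 1, 1] := by
      funext i; fin_cases i
      · exact i1
      · exact i1
      · exact i1
    show B (![((![1, 1, 1] : Fin 3 → T) 1)⁻¹, ((![1, 1, 1] : Fin 3 → T) 0)⁻¹,
        ((![1, 1, 1] : Fin 3 → T) 2)⁻¹])
    rw [this]; exact hBe
  have hsigma1 : ∀ c, B c → B ![(1 * (c 0)⁻¹) * 1, 1⁻¹ * c 2, 1 * c 1] := by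
    apply hpres _ (h.sigma_auto 1) ![1, 1, 1] hBe
    have : (![(1 * ((![1, 1, 1] : Fin 3 → T) 0)⁻¹) * 1, 1⁻¹ * (![1, 1, 1] : Fin 3 → T) 2,
        1 * (![1, 1, 1] : Fin 3 → T) 1] : Fin 3 → T) = ![1, 1, 1] := by
      funext i; fin_cases i
      · show (1 * (1 : T)⁻¹) * 1 = 1; rw [i1, h.one_mul, h.one_mul]
      · show (1 : T)⁻¹ * 1 = 1; rw [i1, h.one_mul]
      · show (1 : T) * 1 = 1; rw [h.one_mul]
    show B (![(1 * ((![1, 1, 1] : Fin 3 → T) 0)⁻¹) * 1, 1⁻¹ * (![1, 1, 1] : Fin 3 → T) 2,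
        1 * (![1, 1, 1] : Fin 3 → T) 1])
    rw [this]; exact hBe
  -- the set X of first coordinates
  let X : T → Prop := fun x => ∃ c, B c ∧ c 0 = x
  have hX2 : ∀ x, X x → ∃ c, B c ∧ c 2 = x := by
    rintro x ⟨c, hc, rfl⟩
    exact ⟨_, htau _ (hrho _ (hrho _ hc)) |> fun _ => htau _ (hrho _ hc), h.inv_inv' (c 0)⟩
  have hX2' : ∀ c, B c → X (c 2) := by
    intro c hc
    exact ⟨_, htau _ (hrho _ hc), h.inv_inv' (c 2)⟩
  have hX1 : ∀ c, B c → X (c 1) := fun c hc => ⟨_, hrho _ hc, rfl⟩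
  have hXinv : ∀ x, X x → X x⁻¹ := by
    rintro x ⟨c, hc, rfl⟩
    exact ⟨_, htau _ (hrho _ (hrho _ hc)), h.inv_inv' _⟩
  -- S_a preserves B for a ∈ X
  have hS : ∀ a, X a → ∀ c, B c → B ((h.S a).act c) := by
    rintro a ⟨d, hd, rfl⟩ c hc
    have hfix : (![(d 0 * (d 0)⁻¹) * d 0, (d 0)⁻¹ * d 2, d 0 * d 1] : Fin 3 → T) = d := by
      obtain ⟨hdc, -⟩ := hd
      have hd2 : d 2 = d 0 * d 1 := hdc
      funext i; fin_cases i
      · show (d 0 * (d 0)⁻¹) * d 0 = d 0; rw [h.mul_inv_self, h.one_mul]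
      · show (d 0)⁻¹ * d 2 = d 1; rw [hd2, h.inv_mul]
      · exact hd2.symm
    have hsig := hpres _ (h.sigma_auto (d 0)) d hd (by
      show B ![(d 0 * (d 0)⁻¹) * d 0, (d 0)⁻¹ * d 2, d 0 * d 1]
      rw [hfix]; exact hd)
    have h1 := hsig _ (hsigma1 c hc)
    have : (h.S (d 0)).act c = ![(d 0 * ((1 * (c 0)⁻¹) * 1)⁻¹) * d 0, (d 0)⁻¹ * (1 * c 1),
        d 0 * (1⁻¹ * c 2)] := by
      funext i; fin_cases i
      · show (d 0 * c 0) * d 0 = (d 0 * ((1 * (c 0)⁻¹) * 1)⁻¹) * d 0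
        rw [h.mul_one, h.one_mul, h.inv_inv']
      · show (d 0)⁻¹ * c 1 = (d 0)⁻¹ * (1 * c 1); rw [h.one_mul]
      · show d 0 * c 2 = d 0 * (1⁻¹ * c 2); rw [i1, h.one_mul]
    rw [this]; exact h1
  have hXmul : ∀ x y, X x → X y → X (x * y) := by
    intro x y hx hy
    obtain ⟨d, hd, rfl⟩ := hX2 y hy
    exact hX2' _ (hS x hx d hd)
  have hXaut : ∀ φ : T ≃ T, (∀ x y, φ (x * y) = φ x * φ y) → ∀ x, X x → X (φ x) := by
    rintro φ hφ x ⟨c, hc, rfl⟩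
    have hφ1 : φ 1 = 1 := by
      have h1 := hφ 1 1
      rw [h.one_mul] at h1
      have h2 := h.inv_mul (φ 1) (φ 1)
      rw [← h1] at h2
      rw [← h2, h.inv_self]
    have := hpres _ (h.aut_auto φ hφ) ![1, 1, 1] hBe (by
      have : (![φ ((![1, 1, 1] : Fin 3 → T) 0), φ ((![1, 1, 1] : Fin 3 → T) 1),
          φ ((![1, 1, 1] : Fin 3 → T) 2)] : Fin 3 → T) = ![1, 1, 1] := by
        funext i; fin_cases i
        · exact hφ1
        · exact hφ1
        · exact hφ1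
      show B (![φ ((![1, 1, 1] : Fin 3 → T) 0), φ ((![1, 1, 1] : Fin 3 → T) 1),
          φ ((![1, 1, 1] : Fin 3 → T) 2)])
      rw [this]; exact hBe) c hc
    exact ⟨_, this, rfl⟩
  -- nontriviality
  have hXne : ∃ x, X x ∧ x ≠ 1 := by
    have hne : ∃ c d : Cells T, r c d ∧ c ≠ d := by
      by_contra hcon
      push Not at hcon
      apply hbot
      ext c d
      constructor
      · intro hcd; exact hcon c d hcd
      · intro hcd
        have : c = d := hcd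
        rw [this]
    obtain ⟨c, d, hcd, hne⟩ := hne
    obtain ⟨g, hg, hge⟩ := h.cells_transitive c e c.2 e.2
    have hB : B (g d) := by
      refine ⟨hmemCell g hg d d.2, ?_⟩
      exact hr g hg c d e ⟨g d, _⟩ hge.symm rfl hcd
    by_contra hcon
    push Not at hcon
    have h0 : (g d) 0 = 1 := hcon _ ⟨g d, hB, rfl⟩
    have h1 : (g d) 1 = 1 := hcon _ (hX1 _ hB)
    have h2 : (g d) 2 = 1 := hcon _ (hX2' _ hB)
    have hgd : g d = g c := by
      rw [hge]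
      funext i; fin_cases i
      · exact h0
      · exact h1
      · exact h2
    -- g is injective
    obtain ⟨⟨f, s, hfs⟩, -⟩ := hg
    apply hne
    apply Subtype.ext
    funext i
    have := congrFun hgd (s.symm i)
    rw [hfs, hfs, Equiv.apply_symm_apply] at this
    exact ((f i).injective this).symm
  have hXall := h.simple X hXmul hXinv hXaut hXne
  -- U_b preserves B
  have hU : ∀ b, ∀ c, B c → B ((h.U b).act c) := by
    intro b c hc
    have h1 := hrho _ (hrho _ (hS b (hXall b) _ (hrho c hc)))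
    have : (h.U b).act c = ![((h.S b).act ![c 1, (c 2)⁻¹, (c 0)⁻¹] 2)⁻¹,
        ((h.S b).act ![c 1, (c 2)⁻¹, (c 0)⁻¹] 0)⁻¹⁻¹,
        ((h.S b).act ![c 1, (c 2)⁻¹, (c 0)⁻¹] 1)⁻¹] := by
      funext i; fin_cases i
      · show c 0 * b⁻¹ = (b * (c 0)⁻¹)⁻¹
        rw [h.rev, h.inv_inv']
      · show b * (c 1 * b) = ((b * c 1) * b)⁻¹⁻¹
        rw [h.inv_inv', h.flex]
      · show c 2 * b = (b⁻¹ * (c 2)⁻¹)⁻¹
        rw [h.rev, h.inv_inv', h.inv_inv']
    rw [this]; exact h1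
  have hG : ∀ b, ∀ c, B c → B ((h.G b).act c) := by
    intro b c hc
    exact hU b _ (hS (b * b) (hXall _) c hc)
  have htG : ∀ b, ∀ c, B c → B ((h.tconj (h.G b)).act c) := by
    intro b c hc
    exact htau _ (hG b _ (htau c hc))
  have hall : ∀ c ∈ Cells T, B c := by
    intro c hc
    obtain ⟨A, hA0, hA1, b, b', rfl⟩ := h.exists_atp (c 0) (c 1)
    have h1 := hG b _ (htG b' _ hBe)
    have : (h.G b).act ((h.tconj (h.G b')).act ![1, 1, 1]) = c := by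
      funext i; fin_cases i
      · exact hA0
      · exact hA1
      · have h2 := ((h.G b).comp (h.tconj (h.G b'))).hom 1 1
        rw [h.one_mul, hA0, hA1] at h2
        exact h2.trans (show c 2 = c 0 * c 1 from hc).symm
    rw [this] at h1; exact h1
  ext c d
  constructor
  · intro _; trivial
  · intro _
    obtain ⟨_, h1⟩ := hall c c.2
    obtain ⟨_, h2⟩ := hall d d.2
    exact r.trans (r.symm h1) h2

end MData

end Pool.Agent.H630R3.Latin
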