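import Mathlib

set_option autoImplicit false

namespace Pool.Agent.H630R3

/-- The real octonions: the Cayley-Dickson double `(a, b)` of the real quaternions, with product
`(a, b) (c, d) = (a c - d* b, d a + b c*)`, written out in the eight real coordinates
`a = c0 + c1 i + c2 j + c3 k`, `b = c4 + c5 i + c6 j + c7 k`. -/
@[ext] structure Oct where
  c0 : ℝ
  c1 : ℝ
  c2 : ℝ
  c3 : ℝ
  c4 : ℝ
  c5 : ℝ
  c6 : ℝ
  c7 : ℝ

namespace Oct

noncomputable instance : One Oct := ⟨⟨1, 0, 0, 0, 0, 0, 0, 0⟩⟩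
noncomputable instance : Neg Oct := ⟨fun x => ⟨-x.c0, -x.c1, -x.c2, -x.c3, -x.c4, -x.c5, -x.c6, -x.c7⟩⟩
noncomputable instance : Mul Oct := ⟨fun x y =>
  ⟨x.c0 * y.c0 - x.c1 * y.c1 - x.c2 * y.c2 - x.c3 * y.c3 - x.c4 * y.c4 - x.c5 * y.c5 - x.c6 * y.c6 - x.c7 * y.c7,
   x.c0 * y.c1 + x.c1 * y.c0 + x.c2 * y.c3 - x.c3 * y.c2 + x.c4 * y.c5 - x.c5 * y.c4 - x.c6 * y.c7 + x.c7 * y.c6,
   x.c0 * y.c2 - x.c1 * y.c3 + x.c2 * y.c0 + x.c3 * y.c1 + x.c4 * y.c6 + x.c5 * y.c7 - x.c6 * y.c4 - x.c7 * y.c5,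
   x.c0 * y.c3 + x.c1 * y.c2 - x.c2 * y.c1 + x.c3 * y.c0 + x.c4 * y.c7 - x.c5 * y.c6 + x.c6 * y.c5 - x.c7 * y.c4,
   x.c0 * y.c4 - x.c1 * y.c5 - x.c2 * y.c6 - x.c3 * y.c7 + x.c4 * y.c0 + x.c5 * y.c1 + x.c6 * y.c2 + x.c7 * y.c3,
   x.c0 * y.c5 + x.c1 * y.c4 - x.c2 * y.c7 + x.c3 * y.c6 - x.c4 * y.c1 + x.c5 * y.c0 - x.c6 * y.c3 + x.c7 * y.c2,
   x.c0 * y.c6 + x.c1 * y.c7 + x.c2 * y.c4 - x.c3 * y.c5 - x.c4 * y.c2 + x.c5 * y.c3 + x.c6 * y.c0 - x.c7 * y.c1,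
   x.c0 * y.c7 - x.c1 * y.c6 + x.c2 * y.c5 + x.c3 * y.c4 - x.c4 * y.c3 - x.c5 * y.c2 + x.c6 * y.c1 + x.c7 * y.c0⟩⟩

/-- octonion conjugation -/
noncomputable def conj (x : Oct) : Oct := ⟨x.c0, -x.c1, -x.c2, -x.c3, -x.c4, -x.c5, -x.c6, -x.c7⟩

/-- the norm: the sum of the squares of the eight real coordinates -/
noncomputable def N (x : Oct) : ℝ :=
  x.c0 ^ 2 + x.c1 ^ 2 + x.c2 ^ 2 + x.c3 ^ 2 + x.c4 ^ 2 + x.c5 ^ 2 + x.c6 ^ 2 + x.c7 ^ 2

theorem one_def : (1 : Oct) = ⟨1, 0, 0, 0, 0, 0, 0, 0⟩ := rfl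
theorem neg_def (x : Oct) : -x = ⟨-x.c0, -x.c1, -x.c2, -x.c3, -x.c4, -x.c5, -x.c6, -x.c7⟩ := rfl
theorem mul_def (x y : Oct) : x * y =
  ⟨x.c0 * y.c0 - x.c1 * y.c1 - x.c2 * y.c2 - x.c3 * y.c3 - x.c4 * y.c4 - x.c5 * y.c5 - x.c6 * y.c6 - x.c7 * y.c7,
   x.c0 * y.c1 + x.c1 * y.c0 + x.c2 * y.c3 - x.c3 * y.c2 + x.c4 * y.c5 - x.c5 * y.c4 - x.c6 * y.c7 + x.c7 * y.c6,
   x.c0 * y.c2 - x.c1 * y.c3 + x.c2 * y.c0 + x.c3 * y.c1 + x.c4 * y.c6 + x.c5 * y.c7 - x.c6 * y.c4 - x.c7 * y.c5,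
   x.c0 * y.c3 + x.c1 * y.c2 - x.c2 * y.c1 + x.c3 * y.c0 + x.c4 * y.c7 - x.c5 * y.c6 + x.c6 * y.c5 - x.c7 * y.c4,
   x.c0 * y.c4 - x.c1 * y.c5 - x.c2 * y.c6 - x.c3 * y.c7 + x.c4 * y.c0 + x.c5 * y.c1 + x.c6 * y.c2 + x.c7 * y.c3,
   x.c0 * y.c5 + x.c1 * y.c4 - x.c2 * y.c7 + x.c3 * y.c6 - x.c4 * y.c1 + x.c5 * y.c0 - x.c6 * y.c3 + x.c7 * y.c2,
   x.c0 * y.c6 + x.c1 * y.c7 + x.c2 * y.c4 - x.c3 * y.c5 - x.c4 * y.c2 + x.c5 * y.c3 + x.c6 * y.c0 - x.c7 * y.c1,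
   x.c0 * y.c7 - x.c1 * y.c6 + x.c2 * y.c5 + x.c3 * y.c4 - x.c4 * y.c3 - x.c5 * y.c2 + x.c6 * y.c1 + x.c7 * y.c0⟩ := rfl

theorem conj_mul_mul (x y : Oct) (hx : N x = 1) : conj x * (x * y) = y := by
  unfold N at hx
  ext <;> simp only [mul_def, conj]
  · linear_combination y.c0 * hx
  · linear_combination y.c1 * hx
  · linear_combination y.c2 * hx
  · linear_combination y.c3 * hx
  · linear_combination y.c4 * hx
  · linear_combination y.c5 * hx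
  · linear_combination y.c6 * hx
  · linear_combination y.c7 * hx

theorem mul_mul_conj (x y : Oct) (hx : N x = 1) : (y * x) * conj x = y := by
  unfold N at hx
  ext <;> simp only [mul_def, conj]
  · linear_combination y.c0 * hx
  · linear_combination y.c1 * hx
  · linear_combination y.c2 * hx
  · linear_combination y.c3 * hx
  · linear_combination y.c4 * hx
  · linear_combination y.c5 * hx
  · linear_combination y.c6 * hx
  · linear_combination y.c7 * hx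

theorem conj_mul (x y : Oct) : conj (x * y) = conj y * conj x := by
  ext <;> simp only [mul_def, conj] <;> ring

theorem conj_conj (x : Oct) : conj (conj x) = x := by
  ext <;> simp only [conj, neg_neg]

theorem N_conj (x : Oct) : N (conj x) = N x := by
  simp only [N, conj]; ring

theorem N_neg (x : Oct) : N (-x) = N x := by
  simp only [N, neg_def]; ring

theorem N_mul (x y : Oct) : N (x * y) = N x * N y := by
  simp only [N, mul_def]; ring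

theorem one_mul' (x : Oct) : 1 * x = x := by ext <;> simp only [mul_def, one_def] <;> ring
theorem mul_one' (x : Oct) : x * 1 = x := by ext <;> simp only [mul_def, one_def] <;> ring
theorem neg_mul' (x y : Oct) : (-x) * y = -(x * y) := by ext <;> simp only [mul_def, neg_def] <;> ring
theorem mul_neg' (x y : Oct) : x * (-y) = -(x * y) := by ext <;> simp only [mul_def, neg_def] <;> ring
theorem neg_neg' (x : Oct) : -(-x) = x := by ext <;> simp only [neg_def, neg_neg]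
theorem conj_neg (x : Oct) : conj (-x) = -(conj x) := by ext <;> simp only [conj, neg_def]
theorem N_one : N (1 : Oct) = 1 := by simp only [N, one_def]; ring
theorem conj_one : conj (1 : Oct) = 1 := by ext <;> simp only [conj, one_def, neg_zero]

theorem left_moufang (a u w : Oct) : ((a * u) * a) * w = a * (u * (a * w)) := by
  ext <;> simp only [mul_def] <;> ring

end Oct

end Pool.Agent.H630R3
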