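import Pool.Agent.H630R3.Oct

set_option autoImplicit false

namespace Pool.Agent.H630R3

open Oct

/-- automorphisms of the octonions (with the data we need) -/
structure OctAut where
  toFun : Oct → Oct
  invFun : Oct → Oct
  left_inv : ∀ x, invFun (toFun x) = x
  right_inv : ∀ x, toFun (invFun x) = x
  map_mul : ∀ x y, toFun (x * y) = toFun x * toFun y
  map_neg : ∀ x, toFun (-x) = -(toFun x)
  map_N : ∀ x, N (toFun x) = N x
  map_re : ∀ x, (toFun x).c0 = x.c0

namespace OctAut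

def symm (φ : OctAut) : OctAut where
  toFun := φ.invFun
  invFun := φ.toFun
  left_inv := φ.right_inv
  right_inv := φ.left_inv
  map_mul x y := by
    have h := φ.map_mul (φ.invFun x) (φ.invFun y)
    rw [φ.right_inv, φ.right_inv] at h
    rw [← h, φ.left_inv]
  map_neg x := by
    have h := φ.map_neg (φ.invFun x)
    rw [φ.right_inv] at h
    rw [← h, φ.left_inv]
  map_N x := by
    have h := φ.map_N (φ.invFun x)
    rw [φ.right_inv] at h
    exact h.symm
  map_re x := by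
    have h := φ.map_re (φ.invFun x)
    rw [φ.right_inv] at h
    exact h.symm

def comp (φ ψ : OctAut) : OctAut where
  toFun x := φ.toFun (ψ.toFun x)
  invFun x := ψ.invFun (φ.invFun x)
  left_inv x := by rw [φ.left_inv, ψ.left_inv]
  right_inv x := by rw [ψ.right_inv, φ.right_inv]
  map_mul x y := by rw [ψ.map_mul, φ.map_mul]
  map_neg x := by rw [ψ.map_neg, φ.map_neg]
  map_N x := by rw [φ.map_N, ψ.map_N]
  map_re x := by rw [φ.map_re, ψ.map_re]

def refl : OctAut := ⟨id, id, fun _ => rfl, fun _ => rfl, fun _ _ => rfl, fun _ => rfl, fun _ => rfl, fun _ => rfl⟩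

end OctAut

/-- multiplying the second quaternion by `r` -/
noncomputable def rotFun (r0 r1 r2 r3 : ℝ) (x : Oct) : Oct :=
  ⟨x.c0, x.c1, x.c2, x.c3,
   r0 * x.c4 - r1 * x.c5 - r2 * x.c6 - r3 * x.c7,
   r0 * x.c5 + r1 * x.c4 + r2 * x.c7 - r3 * x.c6,
   r0 * x.c6 - r1 * x.c7 + r2 * x.c4 + r3 * x.c5,
   r0 * x.c7 + r1 * x.c6 - r2 * x.c5 + r3 * x.c4⟩

theorem rot_inv (r0 r1 r2 r3 : ℝ) (h : r0 ^ 2 + r1 ^ 2 + r2 ^ 2 + r3 ^ 2 = 1) (x : Oct) :
    rotFun r0 (-r1) (-r2) (-r3) (rotFun r0 r1 r2 r3 x) = x := by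
  ext <;> simp only [rotFun]
  · linear_combination x.c4 * h
  · linear_combination x.c5 * h
  · linear_combination x.c6 * h
  · linear_combination x.c7 * h

theorem rot_mul (r0 r1 r2 r3 : ℝ) (h : r0 ^ 2 + r1 ^ 2 + r2 ^ 2 + r3 ^ 2 = 1) (x y : Oct) :
    rotFun r0 r1 r2 r3 (x * y) = rotFun r0 r1 r2 r3 x * rotFun r0 r1 r2 r3 y := by
  ext <;> simp only [rotFun, mul_def]
  · linear_combination (x.c4 * y.c4 + x.c5 * y.c5 + x.c6 * y.c6 + x.c7 * y.c7) * h
  · linear_combination (-(x.c4 * y.c5 - x.c5 * y.c4 - x.c6 * y.c7 + x.c7 * y.c6)) * h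
  · linear_combination (-(x.c4 * y.c6 + x.c5 * y.c7 - x.c6 * y.c4 - x.c7 * y.c5)) * h
  · linear_combination (-(x.c4 * y.c7 - x.c5 * y.c6 + x.c6 * y.c5 - x.c7 * y.c4)) * h
  · ring
  · ring
  · ring
  · ring

noncomputable def rot (r0 r1 r2 r3 : ℝ) (h : r0 ^ 2 + r1 ^ 2 + r2 ^ 2 + r3 ^ 2 = 1) : OctAut where
  toFun := rotFun r0 r1 r2 r3
  invFun := rotFun r0 (-r1) (-r2) (-r3)
  left_inv := rot_inv r0 r1 r2 r3 h
  right_inv x := by
    have := rot_inv r0 (-r1) (-r2) (-r3) (by linear_combination h) x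
    rwa [neg_neg, neg_neg, neg_neg] at this
  map_mul := rot_mul r0 r1 r2 r3 h
  map_neg x := by ext <;> simp only [rotFun, neg_def] <;> ring
  map_N x := by
    simp only [N, rotFun]
    linear_combination (x.c4 ^ 2 + x.c5 ^ 2 + x.c6 ^ 2 + x.c7 ^ 2) * h
  map_re x := rfl

noncomputable def pone : OctAut where
  toFun x := ⟨x.c0, x.c1, x.c6, -x.c7, x.c4, x.c5, -x.c2, x.c3⟩
  invFun x := ⟨x.c0, x.c1, -x.c6, x.c7, x.c4, x.c5, x.c2, -x.c3⟩
  left_inv x := by ext <;> simp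
  right_inv x := by ext <;> simp
  map_mul x y := by ext <;> simp only [mul_def] <;> ring
  map_neg x := by ext <;> simp only [neg_def]
  map_N x := by simp only [N]; ring
  map_re x := rfl

noncomputable def ptwo : OctAut where
  toFun x := ⟨x.c0, x.c5, x.c3, x.c6, x.c1, x.c4, x.c2, x.c7⟩
  invFun x := ⟨x.c0, x.c4, x.c6, x.c2, x.c5, x.c1, x.c3, x.c7⟩
  left_inv x := by ext <;> simp
  right_inv x := by ext <;> simp
  map_mul x y := by ext <;> simp only [mul_def] <;> ring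
  map_neg x := by ext <;> simp only [neg_def]
  map_N x := by simp only [N]; ring
  map_re x := rfl

/-- concentrate the second quaternion on its real coordinate -/
theorem exists_rot (x : Oct) : ∃ (φ : OctAut) (t : ℝ), 0 ≤ t ∧
    φ.toFun x = ⟨x.c0, x.c1, x.c2, x.c3, t, 0, 0, 0⟩ := by
  by_cases hq : x.c4 ^ 2 + x.c5 ^ 2 + x.c6 ^ 2 + x.c7 ^ 2 = 0
  · have h4 : x.c4 = 0 := by nlinarith [sq_nonneg x.c4, sq_nonneg x.c5, sq_nonneg x.c6, sq_nonneg x.c7]
    have h5 : x.c5 = 0 := by nlinarith [sq_nonneg x.c4, sq_nonneg x.c5, sq_nonneg x.c6, sq_nonneg x.c7]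
    have h6 : x.c6 = 0 := by nlinarith [sq_nonneg x.c4, sq_nonneg x.c5, sq_nonneg x.c6, sq_nonneg x.c7]
    have h7 : x.c7 = 0 := by nlinarith [sq_nonneg x.c4, sq_nonneg x.c5, sq_nonneg x.c6, sq_nonneg x.c7]
    exact ⟨OctAut.refl, 0, le_refl _, by
      ext <;> simp [OctAut.refl, h4, h5, h6, h7]⟩
  · set q := x.c4 ^ 2 + x.c5 ^ 2 + x.c6 ^ 2 + x.c7 ^ 2 with hqdef
    have hqpos : 0 < q := lt_of_le_of_ne (by positivity) (Ne.symm hq)
    set t := Real.sqrt q with ht
    have ht2 : t * t = q := Real.mul_self_sqrt hqpos.le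
    have htpos : 0 < t := Real.sqrt_pos.mpr hqpos
    have htne : t ≠ 0 := htpos.ne'
    have hr : (x.c4 / t) ^ 2 + (-x.c5 / t) ^ 2 + (-x.c6 / t) ^ 2 + (-x.c7 / t) ^ 2 = 1 := by
      field_simp
      nlinarith
    refine ⟨rot (x.c4 / t) (-x.c5 / t) (-x.c6 / t) (-x.c7 / t) hr, t, htpos.le, ?_⟩
    ext <;> simp only [rot, rotFun]
    · field_simp
      linarith
    · field_simp; ring
    · field_simp; ring
    · field_simp; ring

/-- every octonion can be moved by an automorphism to the plane spanned by `1` and `e₄` -/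
theorem exists_normal (x : Oct) : ∃ (φ : OctAut) (t : ℝ), 0 ≤ t ∧
    φ.toFun x = ⟨x.c0, 0, 0, 0, t, 0, 0, 0⟩ := by
  obtain ⟨φ1, t1, -, h1⟩ := exists_rot x
  obtain ⟨φ2, t2, -, h2⟩ := exists_rot (pone.toFun (φ1.toFun x))
  obtain ⟨φ3, t3, ht3, h3⟩ := exists_rot (ptwo.toFun (φ2.toFun (pone.toFun (φ1.toFun x))))
  refine ⟨φ3.comp (ptwo.comp (φ2.comp (pone.comp φ1))), t3, ht3, ?_⟩
  show φ3.toFun (ptwo.toFun (φ2.toFun (pone.toFun (φ1.toFun x)))) = _
  rw [h3]
  rw [h2, h1]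
  simp [pone, ptwo]

theorem normal_t (x : Oct) (hx : N x = 1) (φ : OctAut) (t : ℝ) (ht : 0 ≤ t)
    (h : φ.toFun x = ⟨x.c0, 0, 0, 0, t, 0, 0, 0⟩) : t = Real.sqrt (1 - x.c0 ^ 2) := by
  have h1 := φ.map_N x
  rw [h, hx] at h1
  simp only [N] at h1
  have h2 : t ^ 2 = 1 - x.c0 ^ 2 := by linarith
  rw [← h2, Real.sqrt_sq ht]

/-- transitivity of the automorphism group on unit octonions with given real part -/
theorem aut_transitive (x y : Oct) (hx : N x = 1) (hy : N y = 1) (hxy : x.c0 = y.c0) :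
    ∃ φ : OctAut, φ.toFun x = y := by
  obtain ⟨φ, t, ht, h1⟩ := exists_normal x
  obtain ⟨ψ, s, hs, h2⟩ := exists_normal y
  have e1 := normal_t x hx φ t ht h1
  have e2 := normal_t y hy ψ s hs h2
  refine ⟨ψ.symm.comp φ, ?_⟩
  show ψ.invFun (φ.toFun x) = y
  have : φ.toFun x = ψ.toFun y := by
    rw [h1, h2, e1, e2, hxy]
  rw [this, ψ.left_inv]

theorem re_bounds (x : Oct) (hx : N x = 1) : -1 ≤ x.c0 ∧ x.c0 ≤ 1 := by
  unfold N at hx
  constructor <;> nlinarith [sq_nonneg x.c1, sq_nonneg x.c2, sq_nonneg x.c3, sq_nonneg x.c4,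
    sq_nonneg x.c5, sq_nonneg x.c6, sq_nonneg x.c7, sq_nonneg (x.c0 + 1), sq_nonneg (x.c0 - 1)]

theorem eq_one_of_re (x : Oct) (hx : N x = 1) (h : x.c0 = 1) : x = 1 := by
  unfold N at hx
  rw [h] at hx
  have h1 : x.c1 = 0 := by nlinarith [sq_nonneg x.c1, sq_nonneg x.c2, sq_nonneg x.c3, sq_nonneg x.c4, sq_nonneg x.c5, sq_nonneg x.c6, sq_nonneg x.c7]
  have h2 : x.c2 = 0 := by nlinarith [sq_nonneg x.c1, sq_nonneg x.c2, sq_nonneg x.c3, sq_nonneg x.c4, sq_nonneg x.c5, sq_nonneg x.c6, sq_nonneg x.c7]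
  have h3 : x.c3 = 0 := by nlinarith [sq_nonneg x.c1, sq_nonneg x.c2, sq_nonneg x.c3, sq_nonneg x.c4, sq_nonneg x.c5, sq_nonneg x.c6, sq_nonneg x.c7]
  have h4 : x.c4 = 0 := by nlinarith [sq_nonneg x.c1, sq_nonneg x.c2, sq_nonneg x.c3, sq_nonneg x.c4, sq_nonneg x.c5, sq_nonneg x.c6, sq_nonneg x.c7]
  have h5 : x.c5 = 0 := by nlinarith [sq_nonneg x.c1, sq_nonneg x.c2, sq_nonneg x.c3, sq_nonneg x.c4, sq_nonneg x.c5, sq_nonneg x.c6, sq_nonneg x.c7]
  have h6 : x.c6 = 0 := by nlinarith [sq_nonneg x.c1, sq_nonneg x.c2, sq_nonneg x.c3, sq_nonneg x.c4, sq_nonneg x.c5, sq_nonneg x.c6, sq_nonneg x.c7]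
  have h7 : x.c7 = 0 := by nlinarith [sq_nonneg x.c1, sq_nonneg x.c2, sq_nonneg x.c3, sq_nonneg x.c4, sq_nonneg x.c5, sq_nonneg x.c6, sq_nonneg x.c7]
  ext <;> simp [one_def, h, h1, h2, h3, h4, h5, h6, h7]

/-- a set of unit octonions closed under products, conjugation, sign and automorphisms -/
structure GoodSet (X : Oct → Prop) : Prop where
  unit : ∀ x, X x → N x = 1
  mul : ∀ x y, X x → X y → X (x * y)
  conj : ∀ x, X x → X (Oct.conj x)
  neg : ∀ x, X x → X (-x)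
  aut : ∀ (φ : OctAut) x, X x → X (φ.toFun x)

theorem GoodSet.of_re {X : Oct → Prop} (hX : GoodSet X) {x : Oct} (hx : X x) (y : Oct)
    (hy : N y = 1) (h : x.c0 = y.c0) : X y := by
  obtain ⟨φ, hφ⟩ := aut_transitive x y (hX.unit x hx) hy h
  rw [← hφ]; exact hX.aut φ x hx

/-- doubling step -/
theorem GoodSet.step {X : Oct → Prop} (hX : GoodSet X) (c : ℝ) (hc1 : c < 1) (hc0 : 0 ≤ c)
    (x : Oct) (hx : X x) (hxc : x.c0 = c) (w : Oct) (hw : N w = 1) (hwc : 2 * c ^ 2 - 1 ≤ w.c0) :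
    X w := by
  have hN : X 1 := by
    have := hX.mul _ _ (hX.conj x hx) (hX.mul _ _ hx (hX.of_re hx x (hX.unit x hx) rfl))
    rw [conj_mul_mul x x (hX.unit x hx)] at this
    have h2 := hX.mul _ _ (hX.conj x hx) this
    have h3 := conj_mul_mul x 1 (hX.unit x hx)
    rw [mul_one'] at h3
    rwa [h3] at h2
  obtain ⟨hb1, hb2⟩ := re_bounds w hw
  rcases hb2.eq_or_lt with h1 | h1
  · rw [eq_one_of_re w hw h1]; exact hN
  rcases hb1.eq_or_lt with h2 | h2
  · -- w.c0 = -1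
    have : -w = 1 := eq_one_of_re (-w) (by rw [N_neg]; exact hw) (by simp [neg_def, ← h2])
    have hw' : w = -1 := by rw [← this, neg_neg']
    rw [hw']; exact hX.neg _ hN
  · set ω := w.c0 with hω
    -- normal form of w
    set s := Real.sqrt (1 - ω ^ 2) with hs
    have hpos : 0 < 1 - ω ^ 2 := by nlinarith
    have hs2 : s * s = 1 - ω ^ 2 := Real.mul_self_sqrt hpos.le
    have hspos : 0 < s := Real.sqrt_pos.mpr hpos
    have hsne : s ≠ 0 := hspos.ne'
    let w' : Oct := ⟨ω, 0, 0, 0, s, 0, 0, 0⟩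
    have hw' : N w' = 1 := by simp only [N, w']; nlinarith
    -- auxiliary element y
    let v := -(c * (1 - ω)) / s
    have hv2 : v ^ 2 = c ^ 2 * (1 - ω) / (1 + ω) := by
      have h1ω : (1 + ω) ≠ 0 := by linarith
      have : s ^ 2 = (1 - ω) * (1 + ω) := by nlinarith
      simp only [v]
      rw [div_pow, this]
      have h1ω' : (1 - ω) ≠ 0 := by linarith
      field_simp
    have hrest : 0 ≤ 1 - c ^ 2 - v ^ 2 := by
      rw [hv2]
      have h1ω : 0 < 1 + ω := by linarith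
      have : c ^ 2 * (1 - ω) / (1 + ω) ≤ 1 - c ^ 2 := by
        rw [div_le_iff₀ h1ω]
        nlinarith
      linarith
    set ρ := Real.sqrt (1 - c ^ 2 - v ^ 2) with hρ
    have hρ2 : ρ * ρ = 1 - c ^ 2 - v ^ 2 := Real.mul_self_sqrt hrest
    let y : Oct := ⟨c, 0, 0, 0, v, ρ, 0, 0⟩
    have hy : N y = 1 := by simp only [N, y]; nlinarith
    have hXy : X y := hX.of_re hx y hy (by simp [y, hxc])
    have hsv : s * v = -(c * (1 - ω)) := by simp only [v]; field_simp
    have hre : (w' * y).c0 = c := by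
      simp only [mul_def, w', y]
      linear_combination (-1 : ℝ) * hsv
    have hXwy : X (w' * y) := hX.of_re hx _ (by rw [N_mul, hw', hy, mul_one]) (by rw [hre, hxc])
    have h5 := hX.mul _ _ hXwy (hX.conj y hXy)
    rw [mul_mul_conj y w' hy] at h5
    exact hX.of_re h5 w hw rfl

theorem GoodSet.all_of_re {X : Oct → Prop} (hX : GoodSet X) : ∀ (n : ℕ) (c : ℝ), 0 ≤ c → c < 1 →
    1 ≤ (1 - c) * 2 ^ n → ∀ x, X x → x.c0 = c → ∀ w, N w = 1 → X w := by
  intro n
  induction n with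
  | zero =>
    intro c hc0 hc1 h x hx hxc w hw
    have : c = 0 := by simp at h; linarith
    subst this
    exact hX.step 0 (by norm_num) le_rfl x hx hxc w hw (by
      have := (re_bounds w hw).1; simpa using this)
  | succ n ih =>
    intro c hc0 hc1 h x hx hxc w hw
    by_cases hneg : 2 * c ^ 2 - 1 ≤ 0
    · by_cases hw0 : 0 ≤ w.c0
      · exact hX.step c hc1 hc0 x hx hxc w hw (by linarith)
      · have h1 : X (-w) := hX.step c hc1 hc0 x hx hxc (-w) (by rw [N_neg]; exact hw) (by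
          have : (-w).c0 = - w.c0 := rfl
          rw [this]; linarith)
        have := hX.neg _ h1
        rwa [neg_neg'] at this
    · push Not at hneg
      -- element with real part 2c^2-1
      set c' := 2 * c ^ 2 - 1 with hc'
      have hc'1 : c' < 1 := by nlinarith
      let z : Oct := ⟨c', Real.sqrt (1 - c' ^ 2), 0, 0, 0, 0, 0, 0⟩
      have hz : N z = 1 := by
        simp only [N, z]
        have : Real.sqrt (1 - c' ^ 2) ^ 2 = 1 - c' ^ 2 := Real.sq_sqrt (by nlinarith)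
        nlinarith
      have hXz : X z := hX.step c hc1 hc0 x hx hxc z hz le_rfl
      refine ih c' hneg.le hc'1 ?_ z hXz (by simp [z]) w hw
      have h2 : 2 * (1 - c) ≤ 1 - c' := by nlinarith
      have h3 : (0 : ℝ) < 2 ^ n := by positivity
      calc (1 : ℝ) ≤ (1 - c) * 2 ^ (n + 1) := h
        _ = (2 * (1 - c)) * 2 ^ n := by ring
        _ ≤ (1 - c') * 2 ^ n := by nlinarith

/-- a good set containing an element different from `±1` contains all unit octonions -/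
theorem GoodSet.all {X : Oct → Prop} (hX : GoodSet X) (x : Oct) (hx : X x) (h1 : x ≠ 1)
    (h2 : x ≠ -1) (w : Oct) (hw : N w = 1) : X w := by
  -- make the real part nonnegative
  obtain ⟨y, hy, hy0, hy1⟩ : ∃ y, X y ∧ 0 ≤ y.c0 ∧ y.c0 < 1 := by
    have hb := re_bounds x (hX.unit x hx)
    by_cases h0 : 0 ≤ x.c0
    · refine ⟨x, hx, h0, lt_of_le_of_ne hb.2 ?_⟩
      intro h; exact h1 (eq_one_of_re x (hX.unit x hx) h)
    · refine ⟨-x, hX.neg x hx, ?_, ?_⟩
      · have : (-x).c0 = -x.c0 := rfl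
        rw [this]; linarith
      · have hre : (-x).c0 = -x.c0 := rfl
        rw [hre]
        refine lt_of_le_of_ne (by linarith [hb.1]) ?_
        intro h
        have := eq_one_of_re (-x) (by rw [N_neg]; exact hX.unit x hx) (by rw [hre]; exact h)
        exact h2 (by rw [← this, neg_neg'])
  obtain ⟨n, hn⟩ := pow_unbounded_of_one_lt (1 / (1 - y.c0)) (by norm_num : (1 : ℝ) < 2)
  refine hX.all_of_re n y.c0 hy0 hy1 ?_ y hy rfl w hw
  rw [div_lt_iff₀ (by linarith)] at hn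
  linarith

/-- every unit octonion is the cube of a unit octonion -/
theorem exists_cube (x : Oct) (hx : N x = 1) : ∃ y : Oct, N y = 1 ∧ (y * y) * y = x := by
  obtain ⟨φ, t, ht, h⟩ := exists_normal x
  have ht' := normal_t x hx φ t ht h
  have hb := re_bounds x hx
  set θ := Real.arccos x.c0 with hθ
  have hc : Real.cos θ = x.c0 := Real.cos_arccos hb.1 hb.2
  have hs : Real.sin θ = t := by rw [hθ, Real.sin_arccos, ht']
  let y : Oct := ⟨Real.cos (θ / 3), 0, 0, 0, Real.sin (θ / 3), 0, 0, 0⟩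
  have hcs := Real.cos_sq_add_sin_sq (θ / 3)
  have hy : N y = 1 := by simp only [N, y]; linarith
  have h3c : Real.cos θ = 4 * Real.cos (θ / 3) ^ 3 - 3 * Real.cos (θ / 3) := by
    rw [← Real.cos_three_mul]; congr 1; ring
  have h3s : Real.sin θ = 3 * Real.sin (θ / 3) - 4 * Real.sin (θ / 3) ^ 3 := by
    rw [← Real.sin_three_mul]; congr 1; ring
  have hy3 : (y * y) * y = φ.toFun x := by
    rw [h]
    ext <;> simp only [mul_def, y]
    · rw [← hc, h3c]
      linear_combination (-3 * Real.cos (θ / 3)) * hcs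
    · ring
    · ring
    · ring
    · rw [← hs, h3s]
      linear_combination (3 * Real.sin (θ / 3)) * hcs
    · ring
    · ring
    · ring
  refine ⟨φ.invFun y, ?_, ?_⟩
  · rw [← hy]; exact φ.symm.map_N y
  · have e1 : φ.invFun y * φ.invFun y = φ.invFun (y * y) := (φ.symm.map_mul y y).symm
    have e2 : φ.invFun (y * y) * φ.invFun y = φ.invFun ((y * y) * y) := (φ.symm.map_mul _ _).symm
    rw [e1, e2, hy3, φ.left_inv]

end Pool.Agent.H630R3
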