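import Pool.Agent.H630R3.MoufPrim
import Pool.Agent.H630R3.Oct2

set_option autoImplicit false

namespace Pool.Agent.H630R3

open Oct Latin

/-- equality up to sign on unit octonions -/
instance octSetoid : Setoid {x : Oct // x.N = 1} where
  r x y := y.1 = x.1 ∨ y.1 = -x.1
  iseqv := by
    refine ⟨fun x => Or.inl rfl, ?_, ?_⟩
    · rintro x y (h | h)
      · exact Or.inl h.symm
      · right; rw [h, neg_neg']
    · rintro x y z (h | h) (h' | h')
      · left; rw [h', h]
      · right; rw [h', h]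
      · right; rw [h', h]
      · left; rw [h', h, neg_neg']

/-- The loop of unit real octonions modulo sign (the seven-sphere modulo `±1`). -/
def OctLoop : Type := Quotient octSetoid

namespace OctLoop

/-- the class of a unit octonion -/
def mk (x : Oct) (hx : x.N = 1) : OctLoop := Quotient.mk octSetoid ⟨x, hx⟩

noncomputable instance : Mul OctLoop :=
  ⟨Quotient.map₂ (fun x y => ⟨x.1 * y.1, by rw [N_mul, x.2, y.2, mul_one]⟩) (by
    rintro x x' (hx | hx) y y' (hy | hy)
    · left; simp only [hx, hy]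
    · right; simp only [hx, hy, mul_neg']
    · right; simp only [hx, hy, neg_mul']
    · left; simp only [hx, hy, mul_neg', neg_mul', neg_neg'])⟩

noncomputable instance : One OctLoop := ⟨mk 1 N_one⟩

noncomputable instance : Inv OctLoop :=
  ⟨Quotient.map (fun x => ⟨Oct.conj x.1, by rw [N_conj, x.2]⟩) (by
    rintro x x' (hx | hx)
    · left; simp only [hx]
    · right; simp only [hx, conj_neg])⟩

theorem mk_mul (x y : Oct) (hx : x.N = 1) (hy : y.N = 1) :
    mk x hx * mk y hy = mk (x * y) (by rw [N_mul, hx, hy, mul_one]) := rfl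

theorem mk_inv (x : Oct) (hx : x.N = 1) : (mk x hx)⁻¹ = mk (Oct.conj x) (by rw [N_conj, hx]) := rfl

theorem one_eq : (1 : OctLoop) = mk 1 N_one := rfl

theorem mk_eq_mk {x y : Oct} (hx : x.N = 1) (hy : y.N = 1) :
    mk x hx = mk y hy ↔ (y = x ∨ y = -x) := by
  constructor
  · intro h; exact Quotient.exact h
  · intro h; exact Quotient.sound h

theorem exists_rep (x : OctLoop) : ∃ (a : Oct) (ha : a.N = 1), x = mk a ha := by
  induction x using Quotient.inductionOn with
  | _ a => exact ⟨a.1, a.2, rfl⟩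

/-- the permutation of the loop induced by an automorphism of the octonions -/
def mapAut (φ : OctAut) : OctLoop ≃ OctLoop where
  toFun := Quotient.map (fun x => ⟨φ.toFun x.1, by rw [φ.map_N, x.2]⟩) (by
    rintro x x' (hx | hx)
    · left; simp only [hx]
    · right; simp only [hx, φ.map_neg])
  invFun := Quotient.map (fun x => ⟨φ.invFun x.1, (φ.symm.map_N x.1).trans x.2⟩) (by
    rintro x x' (hx | hx)
    · left; simp only [hx]
    · right; simp only [hx]; exact φ.symm.map_neg _)
  left_inv x := by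
    induction x using Quotient.inductionOn with
    | _ a => exact Quotient.sound (Or.inl (φ.left_inv a.1).symm)
  right_inv x := by
    induction x using Quotient.inductionOn with
    | _ a => exact Quotient.sound (Or.inl (φ.right_inv a.1).symm)

theorem mapAut_mk (φ : OctAut) (x : Oct) (hx : x.N = 1) :
    mapAut φ (mk x hx) = mk (φ.toFun x) (by rw [φ.map_N, hx]) := rfl

theorem mapAut_mul (φ : OctAut) (x y : OctLoop) : mapAut φ (x * y) = mapAut φ x * mapAut φ y := by
  obtain ⟨a, ha, rfl⟩ := exists_rep x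
  obtain ⟨b, hb, rfl⟩ := exists_rep y
  rw [mk_mul, mapAut_mk, mapAut_mk, mapAut_mk, mk_mul]
  rw [mk_eq_mk]
  left; exact (φ.map_mul a b).symm

theorem mdata : MData OctLoop where
  one_mul x := by
    obtain ⟨a, ha, rfl⟩ := exists_rep x
    rw [one_eq, mk_mul, mk_eq_mk]; left; rw [one_mul']
  mul_one x := by
    obtain ⟨a, ha, rfl⟩ := exists_rep x
    rw [one_eq, mk_mul, mk_eq_mk]; left; rw [mul_one']
  inv_mul x y := by
    obtain ⟨a, ha, rfl⟩ := exists_rep x
    obtain ⟨b, hb, rfl⟩ := exists_rep y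
    rw [mk_inv, mk_mul, mk_mul, mk_eq_mk]; left; rw [conj_mul_mul _ _ ha]
  mul_inv x y := by
    obtain ⟨a, ha, rfl⟩ := exists_rep x
    obtain ⟨b, hb, rfl⟩ := exists_rep y
    rw [mk_inv, mk_mul, mk_mul, mk_eq_mk]; left; rw [mul_mul_conj _ _ ha]
  rev x y := by
    obtain ⟨a, ha, rfl⟩ := exists_rep x
    obtain ⟨b, hb, rfl⟩ := exists_rep y
    rw [mk_inv, mk_inv, mk_mul, mk_mul, mk_inv, mk_eq_mk]; left; rw [conj_mul]
  lm a u w := by
    obtain ⟨a, ha, rfl⟩ := exists_rep a
    obtain ⟨u, hu, rfl⟩ := exists_rep u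
    obtain ⟨w, hw, rfl⟩ := exists_rep w
    simp only [mk_mul]
    rw [mk_eq_mk]; left; rw [left_moufang]
  cube x := by
    obtain ⟨a, ha, rfl⟩ := exists_rep x
    obtain ⟨y, hy, hyx⟩ := exists_cube a ha
    refine ⟨mk y hy, ?_⟩
    rw [mk_mul, mk_mul, mk_eq_mk]; left; exact hyx.symm
  simple X hmul hinv haut hne := by
    let Y : Oct → Prop := fun a => ∃ ha : a.N = 1, X (mk a ha)
    have hY : GoodSet Y :=
      { unit := fun x hx => hx.1
        mul := by
          rintro x y ⟨hx, hXx⟩ ⟨hy, hXy⟩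
          exact ⟨by rw [N_mul, hx, hy, mul_one], hmul _ _ hXx hXy⟩
        conj := by
          rintro x ⟨hx, hXx⟩
          exact ⟨by rw [N_conj, hx], hinv _ hXx⟩
        neg := by
          rintro x ⟨hx, hXx⟩
          refine ⟨by rw [N_neg, hx], ?_⟩
          have : mk (-x) (by rw [N_neg, hx]) = mk x hx := by
            rw [mk_eq_mk]; right; rw [neg_neg']
          rw [this]; exact hXx
        aut := by
          rintro φ x ⟨hx, hXx⟩
          exact ⟨by rw [φ.map_N, hx], haut (mapAut φ) (mapAut_mul φ) _ hXx⟩ }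
    obtain ⟨x, hx, hx1⟩ := hne
    obtain ⟨a, ha, rfl⟩ := exists_rep x
    have ha1 : a ≠ 1 := by
      intro h; apply hx1; rw [one_eq, mk_eq_mk]; left; exact h.symm
    have ha2 : a ≠ -1 := by
      intro h; apply hx1; rw [one_eq, mk_eq_mk]; right; rw [h, neg_neg']
    intro w
    obtain ⟨b, hb, rfl⟩ := exists_rep w
    obtain ⟨_, h⟩ := hY.all a ⟨ha, hx⟩ ha1 ha2 b hb
    exact h

/-- not isotopic to any group -/
theorem not_isotopic_group (G : Type) [Group G] : ¬ Isotopic OctLoop G := by
  rintro ⟨α, β, γ, hiso⟩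
  have hm := mdata
  have h1 : ∀ x, γ x = α x * β 1 := fun x => by rw [← hiso, hm.mul_one]
  have h2 : ∀ y, γ y = α 1 * β y := fun y => by rw [← hiso, hm.one_mul]
  have h3 : ∀ x y, γ (x * y) = γ x * ((β 1)⁻¹ * (α 1)⁻¹) * γ y := by
    intro x y
    rw [hiso, h1 x, h2 y]; group
  have assoc : ∀ x y z : OctLoop, (x * y) * z = x * (y * z) := by
    intro x y z
    apply γ.injective
    rw [h3, h3, h3, h3]; group
  -- explicit failure
  let i : Oct := ⟨0, 1, 0, 0, 0, 0, 0, 0⟩
  let j : Oct := ⟨0, 0, 1, 0, 0, 0, 0, 0⟩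
  let z : Oct := ⟨3 / 5, 0, 0, 0, 4 / 5, 0, 0, 0⟩
  have hi : i.N = 1 := by simp only [N, i]; norm_num
  have hj : j.N = 1 := by simp only [N, j]; norm_num
  have hz : z.N = 1 := by simp only [N, z]; norm_num
  have h := assoc (mk i hi) (mk j hj) (mk z hz)
  simp only [mk_mul] at h
  rw [mk_eq_mk] at h
  rcases h with h | h
  · have h4 := congrArg Oct.c7 h
    simp only [mul_def, i, j, z] at h4
    norm_num at h4
  · have h4 := congrArg Oct.c3 h
    simp only [mul_def, neg_def, i, j, z] at h4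
    norm_num at h4

end OctLoop

end Pool.Agent.H630R3
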