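import Pool.Agent.H630R3.OctLoop

set_option autoImplicit false

namespace Pool.Agent.H630R3

open Oct Latin

/-- every unit octonion is the square of a unit octonion -/
theorem exists_sqrt (x : Oct) (hx : N x = 1) : ∃ y : Oct, N y = 1 ∧ y * y = x := by
  obtain ⟨φ, t, ht, h⟩ := exists_normal x
  have ht' := normal_t x hx φ t ht h
  have hb := re_bounds x hx
  set θ := Real.arccos x.c0 with hθ
  have hc : Real.cos θ = x.c0 := Real.cos_arccos hb.1 hb.2
  have hs : Real.sin θ = t := by rw [hθ, Real.sin_arccos, ht']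
  let y : Oct := ⟨Real.cos (θ / 2), 0, 0, 0, Real.sin (θ / 2), 0, 0, 0⟩
  have hcs := Real.cos_sq_add_sin_sq (θ / 2)
  have hy : N y = 1 := by simp only [N, y]; linarith
  have h3c : Real.cos θ = 2 * Real.cos (θ / 2) ^ 2 - 1 := by
    rw [← Real.cos_two_mul]; congr 1; ring
  have h3s : Real.sin θ = 2 * Real.sin (θ / 2) * Real.cos (θ / 2) := by
    rw [← Real.sin_two_mul]; congr 1; ring
  have hy3 : y * y = φ.toFun x := by
    rw [h]
    ext <;> simp only [mul_def, y]
    · rw [← hc, h3c]
      linear_combination (-1 : ℝ) * hcs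
    · ring
    · ring
    · ring
    · rw [← hs, h3s]; ring
    · ring
    · ring
    · ring
  refine ⟨φ.invFun y, ?_, ?_⟩
  · rw [← hy]; exact φ.symm.map_N y
  · have e1 : φ.invFun y * φ.invFun y = φ.invFun (y * y) := (φ.symm.map_mul y y).symm
    rw [e1, hy3, φ.left_inv]

namespace OctLoop

theorem exists_square (x : OctLoop) : ∃ y : OctLoop, y * y = x := by
  obtain ⟨a, ha, rfl⟩ := exists_rep x
  obtain ⟨y, hy, hyx⟩ := exists_sqrt a ha
  refine ⟨mk y hy, ?_⟩
  rw [mk_mul, mk_eq_mk]; left; exact hyx.symm

theorem infinite : Infinite OctLoop := by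
  let f : ℕ → Oct := fun n => ⟨1 / (n + 1), Real.sqrt (1 - (1 / ((n : ℝ) + 1)) ^ 2), 0, 0, 0, 0, 0, 0⟩
  have hf : ∀ n, (f n).N = 1 := by
    intro n
    have h1 : (0 : ℝ) ≤ 1 - (1 / ((n : ℝ) + 1)) ^ 2 := by
      have : (1 / ((n : ℝ) + 1)) ≤ 1 := by
        rw [div_le_one (by positivity)]; linarith [Nat.cast_nonneg (α := ℝ) n]
      have h0 : (0 : ℝ) ≤ 1 / ((n : ℝ) + 1) := by positivity
      nlinarith
    simp only [N, f]
    rw [Real.sq_sqrt h1]; ring
  apply Infinite.of_injective (fun n => mk (f n) (hf n))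
  intro n m hnm
  rw [mk_eq_mk] at hnm
  have hn : (0 : ℝ) < 1 / ((n : ℝ) + 1) := by positivity
  have hm : (0 : ℝ) < 1 / ((m : ℝ) + 1) := by positivity
  rcases hnm with h | h
  · have h0 := congrArg Oct.c0 h
    simp only [f] at h0
    have h1 : ((n : ℝ) + 1) = (m : ℝ) + 1 := by
      have := congrArg (fun t : ℝ => 1 / t) h0
      simpa using this.symm
    have h2 : (n : ℝ) = m := by linarith
    exact_mod_cast h2
  · have h0 := congrArg Oct.c0 h
    simp only [f, neg_def] at h0
    linarith

/-- two elements conjugate to each other and commuting: normal form case -/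
theorem sigma_normal (c t : ℝ) (hv : Oct.N ⟨c, 0, 0, 0, t, 0, 0, 0⟩ = 1) (x y : OctLoop)
    (h1 : y * x = x * mk ⟨c, 0, 0, 0, t, 0, 0, 0⟩ hv)
    (h2 : y * mk ⟨c, 0, 0, 0, t, 0, 0, 0⟩ hv = mk ⟨c, 0, 0, 0, t, 0, 0, 0⟩ hv * y) :
    y = mk ⟨c, 0, 0, 0, t, 0, 0, 0⟩ hv ∨ y * mk ⟨c, 0, 0, 0, t, 0, 0, 0⟩ hv = 1 ∨
      mk ⟨c, 0, 0, 0, t, 0, 0, 0⟩ hv * mk ⟨c, 0, 0, 0, t, 0, 0, 0⟩ hv = 1 := by
  obtain ⟨a, ha, rfl⟩ := exists_rep x
  set v : Oct := ⟨c, 0, 0, 0, t, 0, 0, 0⟩ with hvdef
  have hct : c ^ 2 + t ^ 2 = 1 := by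
    have := hv
    simp only [N, hvdef] at this
    linarith
  -- y = (a v) conj a
  have hYN : N ((a * v) * Oct.conj a) = 1 := by rw [N_mul, N_mul, N_conj, ha, hv]; norm_num
  have hy : y = mk ((a * v) * Oct.conj a) hYN := by
    have h3 : (y * mk a ha) * (mk a ha)⁻¹ = (mk a ha * mk v hv) * (mk a ha)⁻¹ := by rw [h1]
    rw [mdata.mul_inv, mk_inv, mk_mul, mk_mul] at h3
    exact h3
  have hY0 : ((a * v) * Oct.conj a).c0 = c := by
    have := ha
    simp only [N] at this
    simp only [mul_def, Oct.conj, hvdef]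
    linear_combination c * this
  obtain ⟨Y, hYN, hy, hY0⟩ : ∃ (Y : Oct) (hYN : N Y = 1), y = mk Y hYN ∧ Y.c0 = c :=
    ⟨(a * v) * Oct.conj a, hYN, hy, hY0⟩
  rw [hy, mk_mul, mk_mul, mk_eq_mk] at h2
  have hYn : Y.c0 ^ 2 + Y.c1 ^ 2 + Y.c2 ^ 2 + Y.c3 ^ 2 + Y.c4 ^ 2 + Y.c5 ^ 2 + Y.c6 ^ 2 + Y.c7 ^ 2 = 1 := hYN
  rcases h2 with h2 | h2
  · by_cases ht : t = 0
    · right; right
      rw [mk_mul, one_eq, mk_eq_mk]
      left
      rw [ht] at hct
      ext <;> simp only [mul_def, one_def, hvdef, ht]
      · linear_combination -hct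
      all_goals ring
    · have g1 := congrArg Oct.c1 h2
      have g2 := congrArg Oct.c2 h2
      have g3 := congrArg Oct.c3 h2
      have g5 := congrArg Oct.c5 h2
      have g6 := congrArg Oct.c6 h2
      have g7 := congrArg Oct.c7 h2
      simp only [mul_def, hvdef] at g1 g2 g3 g5 g6 g7
      have k5 : Y.c5 = 0 := by
        have : t * Y.c5 = 0 := by linarith
        rcases mul_eq_zero.mp this with h | h
        · exact absurd h ht
        · exact h
      have k6 : Y.c6 = 0 := by
        have : t * Y.c6 = 0 := by linarith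
        rcases mul_eq_zero.mp this with h | h
        · exact absurd h ht
        · exact h
      have k7 : Y.c7 = 0 := by
        have : t * Y.c7 = 0 := by linarith
        rcases mul_eq_zero.mp this with h | h
        · exact absurd h ht
        · exact h
      have k1 : Y.c1 = 0 := by
        have : t * Y.c1 = 0 := by linarith
        rcases mul_eq_zero.mp this with h | h
        · exact absurd h ht
        · exact h
      have k2 : Y.c2 = 0 := by
        have : t * Y.c2 = 0 := by linarith
        rcases mul_eq_zero.mp this with h | h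
        · exact absurd h ht
        · exact h
      have k3 : Y.c3 = 0 := by
        have : t * Y.c3 = 0 := by linarith
        rcases mul_eq_zero.mp this with h | h
        · exact absurd h ht
        · exact h
      rw [k1, k2, k3, k5, k6, k7, hY0] at hYn
      have h4 : (Y.c4 - t) * (Y.c4 + t) = 0 := by nlinarith
      rcases mul_eq_zero.mp h4 with h5 | h5
      · left
        rw [hy, mk_eq_mk]; left
        ext <;> simp only [hvdef]
        · exact hY0.symm
        · exact k1.symm
        · exact k2.symm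
        · exact k3.symm
        · linarith
        · exact k5.symm
        · exact k6.symm
        · exact k7.symm
      · right; left
        rw [hy, mk_mul, one_eq, mk_eq_mk]; left
        have h6 : Y.c4 = -t := by linarith
        ext <;> simp only [mul_def, one_def, hvdef, k1, k2, k3, k5, k6, k7, hY0, h6]
        · linear_combination -hct
        all_goals ring
  · -- anticommuting case
    right; right
    have g0 := congrArg Oct.c0 h2
    have g4 := congrArg Oct.c4 h2
    simp only [mul_def, neg_def, hvdef] at g0 g4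
    rw [hY0] at g0 g4
    have e0 : c ^ 2 = t * Y.c4 := by nlinarith
    have e4 : c * (Y.c4 + t) = 0 := by nlinarith
    have hc : c = 0 := by
      rcases mul_eq_zero.mp e4 with h | h
      · exact h
      · have : Y.c4 = -t := by linarith
        rw [this] at e0
        nlinarith [sq_nonneg c, sq_nonneg t]
    rw [mk_mul, one_eq, mk_eq_mk]
    right
    have ht2 : t * t = 1 := by rw [hc] at hct; nlinarith
    ext <;> simp only [mul_def, one_def, neg_def, hvdef, hc]
    · linear_combination -ht2
    all_goals ring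

theorem sigma (x u y : OctLoop) (h1 : y * x = x * u) (h2 : y * u = u * y) :
    y = u ∨ y * u = 1 ∨ u * u = 1 := by
  obtain ⟨v, hv, rfl⟩ := exists_rep u
  obtain ⟨φ, t, -, hφ⟩ := exists_normal v
  have hv' : N (⟨v.c0, 0, 0, 0, t, 0, 0, 0⟩ : Oct) = 1 := by rw [← hφ, φ.map_N, hv]
  have hu : mapAut φ (mk v hv) = mk ⟨v.c0, 0, 0, 0, t, 0, 0, 0⟩ hv' := by
    rw [mapAut_mk, mk_eq_mk]; left; exact hφ.symm
  have e1 : mapAut φ y * mapAut φ x = mapAut φ x * mk ⟨v.c0, 0, 0, 0, t, 0, 0, 0⟩ hv' := by
    rw [← hu, ← mapAut_mul, ← mapAut_mul, h1]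
  have e2 : mapAut φ y * mk ⟨v.c0, 0, 0, 0, t, 0, 0, 0⟩ hv' =
      mk ⟨v.c0, 0, 0, 0, t, 0, 0, 0⟩ hv' * mapAut φ y := by
    rw [← hu, ← mapAut_mul, ← mapAut_mul, h2]
  have hone : mapAut φ 1 = 1 := by
    have h3 : mapAut φ 1 * mapAut φ 1 = mapAut φ 1 := by rw [← mapAut_mul, mdata.one_mul]
    have h4 := mdata.inv_mul (mapAut φ 1) (mapAut φ 1)
    rw [h3, mdata.inv_self] at h4
    exact h4.symm
  rcases sigma_normal v.c0 t hv' _ _ e1 e2 with h | h | h
  · left; rw [← hu] at h; exact (mapAut φ).injective h
  · right; left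
    rw [← hu, ← mapAut_mul] at h
    exact (mapAut φ).injective (h.trans hone.symm)
  · right; right
    rw [← hu, ← mapAut_mul] at h
    exact (mapAut φ).injective (h.trans hone.symm)

end OctLoop

namespace Latin

variable {F : Type} [Field F]

/-- class of a norm-one element -/
def PaigeLoop.mk (x : Zorn F) (hx : x.norm = 1) : PaigeLoop F := Quotient.mk (paigeSetoid F) ⟨x, hx⟩

theorem PaigeLoop.mk_mul (x y : Zorn F) (hx : x.norm = 1) (hy : y.norm = 1) :
    PaigeLoop.mk x hx * PaigeLoop.mk y hy =
      PaigeLoop.mk (x * y) (by rw [Zorn.norm_mul, hx, hy, mul_one]) := rfl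

theorem PaigeLoop.mk_eq_mk {x y : Zorn F} (hx : x.norm = 1) (hy : y.norm = 1) :
    PaigeLoop.mk x hx = PaigeLoop.mk y hy ↔ (y = x ∨ y = -x) := by
  constructor
  · intro h; exact Quotient.exact h
  · intro h; exact Quotient.sound h

theorem PaigeLoop.exists_rep (x : PaigeLoop F) :
    ∃ (a : Zorn F) (ha : a.norm = 1), x = PaigeLoop.mk a ha := by
  induction x using Quotient.inductionOn with
  | _ a => exact ⟨a.1, a.2, rfl⟩

/-- upper unitriangular elements -/
def uni (s : F) : Zorn F := ⟨1, 1, s, 0, 0, 0, 0, 0⟩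
theorem uni_norm (s : F) : (uni s).norm = 1 := by simp [Zorn.norm, uni]
/-- diagonal elements -/
def dia (a b : F) : Zorn F := ⟨a, b, 0, 0, 0, 0, 0, 0⟩
theorem dia_norm (a b : F) (h : a * b = 1) : (dia a b).norm = 1 := by simp [Zorn.norm, dia, h]

theorem not_isotopic_paige (F : Type) [Field F] : ¬ Isotopic OctLoop (PaigeLoop F) := by
  classical
  rintro ⟨α, β, γ, hiso⟩
  let e : PaigeLoop F := PaigeLoop.mk (dia 1 1) (dia_norm 1 1 (by ring))
  have he1 : ∀ x, e * x = x := by
    intro x
    obtain ⟨a, ha, rfl⟩ := x.exists_rep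
    rw [PaigeLoop.mk_mul, PaigeLoop.mk_eq_mk]; left
    ext <;> simp only [Zorn.mul_def, dia] <;> ring
  have he2 : ∀ x, x * e = x := by
    intro x
    obtain ⟨a, ha, rfl⟩ := x.exists_rep
    rw [PaigeLoop.mk_mul, PaigeLoop.mk_eq_mk]; left
    ext <;> simp only [Zorn.mul_def, dia] <;> ring
  obtain ⟨A, hA0, hA1, -⟩ := OctLoop.mdata.exists_atp (α.symm e) (β.symm e)
  let θ : OctLoop ≃ PaigeLoop F := A.f2.trans γ
  have hθ0 : ∀ x y, θ (x * y) = α (A.f0 x) * β (A.f1 y) := by
    intro x y
    show γ (A.f2 (x * y)) = _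
    rw [A.hom, hiso]
  have hα1 : α (A.f0 1) = e := by rw [hA0]; simp
  have hβ1 : β (A.f1 1) = e := by rw [hA1]; simp
  have hθα : ∀ x, θ x = α (A.f0 x) := by
    intro x
    have := hθ0 x 1
    rwa [OctLoop.mdata.mul_one, hβ1, he2] at this
  have hθβ : ∀ x, θ x = β (A.f1 x) := by
    intro x
    have := hθ0 1 x
    rwa [OctLoop.mdata.one_mul, hα1, he1] at this
  have hθ : ∀ x y, θ (x * y) = θ x * θ y := by
    intro x y
    rw [hθ0, ← hθα, ← hθβ]
  have hθ1 : θ 1 = e := by rw [hθα, hα1]
  rcases finite_or_infinite F with hfin | hinf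
  · have : Finite (PaigeLoop F) := by
      have : Finite (Zorn F) := by
        apply Finite.of_injective (fun x : Zorn F => (x.a, x.b, x.u1, x.u2, x.u3, x.v1, x.v2, x.v3))
        intro x y hxy
        simp only [Prod.mk.injEq] at hxy
        obtain ⟨h1, h2, h3, h4, h5, h6, h7, h8⟩ := hxy
        ext <;> assumption
      have : Finite {x : Zorn F // x.norm = 1} := inferInstance
      exact Quotient.finite _
    have : Finite OctLoop := Finite.of_equiv _ θ.symm
    have := OctLoop.infinite
    exact not_finite OctLoop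
  · by_cases h2 : (2 : F) = 0
    · -- characteristic two: an involution which is not a square
      obtain ⟨y, hy⟩ := OctLoop.exists_square (θ.symm (PaigeLoop.mk (uni 1) (uni_norm 1)))
      have hy' : θ y * θ y = PaigeLoop.mk (uni 1) (uni_norm 1) := by
        rw [← hθ, hy]; simp
      obtain ⟨p, hp, hpy⟩ := (θ y).exists_rep
      rw [hpy, PaigeLoop.mk_mul, PaigeLoop.mk_eq_mk] at hy'
      have hneg : ∀ s : F, -s = s := by intro s; linear_combination (-s) * h2
      have hsq : uni 1 = p * p := by
        rcases hy' with h | h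
        · exact h
        · rw [h]; ext <;> simp only [Zorn.neg_def, hneg]
      simp only [Zorn.norm] at hp
      have ga := congrArg Zorn.a hsq
      have gb := congrArg Zorn.b hsq
      have gu := congrArg Zorn.u1 hsq
      simp only [Zorn.mul_def, uni] at ga gb gu
      have k1 : (p.a + p.b) * p.u1 = 1 := by linear_combination -gu
      have k2 : (p.a + p.b) * p.a = 0 := by linear_combination -ga + hp + h2
      have k3 : (p.a + p.b) * p.b = 0 := by linear_combination -gb + hp + h2
      have hne : p.a + p.b ≠ 0 := by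
        intro h; rw [h, zero_mul] at k1; exact zero_ne_one k1
      have ha0 : p.a = 0 := (mul_eq_zero.mp k2).resolve_left hne
      have hb0 : p.b = 0 := (mul_eq_zero.mp k3).resolve_left hne
      exact hne (by rw [ha0, hb0, add_zero])
    · -- odd or zero characteristic
      obtain ⟨a, ha⟩ := Infinite.exists_notMem_finset
        ((Polynomial.X ^ 5 - Polynomial.X : Polynomial F).roots.toFinset)
      have hpoly : (Polynomial.X ^ 5 - Polynomial.X : Polynomial F) ≠ 0 := by
        intro h
        have := congrArg (fun p : Polynomial F => p.coeff 5) h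
        simp [Polynomial.coeff_X_pow, Polynomial.coeff_X] at this
      have ha' : a ^ 5 - a ≠ 0 := by
        intro h
        apply ha
        rw [Multiset.mem_toFinset, Polynomial.mem_roots hpoly]
        simp only [Polynomial.IsRoot.def, Polynomial.eval_sub, Polynomial.eval_pow, Polynomial.eval_X]
        exact h
      have ha0 : a ≠ 0 := by rintro rfl; apply ha'; ring
      have hab : a * a⁻¹ = 1 := mul_inv_cancel₀ ha0
      have ha1 : a ^ 2 ≠ 1 := by
        intro h; apply ha'
        have : a ^ 5 - a = a * (a ^ 2 * a ^ 2 - 1) := by ring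
        rw [this, h]; ring
      have ha2 : a ^ 2 ≠ -1 := by
        intro h; apply ha'
        have : a ^ 5 - a = a * (a ^ 2 * a ^ 2 - 1) := by ring
        rw [this, h]; ring
      have h11 : (1 : F) ≠ -1 := by
        intro h; apply h2; linear_combination h
      let x := θ.symm (PaigeLoop.mk (dia a a⁻¹) (dia_norm _ _ hab))
      let u := θ.symm (PaigeLoop.mk (uni 1) (uni_norm 1))
      let y := θ.symm (PaigeLoop.mk (uni (a ^ 2)) (uni_norm _))
      have hx : θ x = PaigeLoop.mk (dia a a⁻¹) (dia_norm _ _ hab) := by simp [x]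
      have hu : θ u = PaigeLoop.mk (uni 1) (uni_norm 1) := by simp [u]
      have hy : θ y = PaigeLoop.mk (uni (a ^ 2)) (uni_norm _) := by simp [y]
      have e1 : y * x = x * u := by
        apply θ.injective
        rw [hθ, hθ, hx, hu, hy, PaigeLoop.mk_mul, PaigeLoop.mk_mul, PaigeLoop.mk_eq_mk]
        left
        ext <;> simp only [Zorn.mul_def, dia, uni]
        · ring
        · ring
        · linear_combination (-a) * hab
        · ring
        · ring
        · ring
        · ring
        · ring
      have e2 : y * u = u * y := by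
        apply θ.injective
        rw [hθ, hθ, hu, hy, PaigeLoop.mk_mul, PaigeLoop.mk_mul, PaigeLoop.mk_eq_mk]
        left
        ext <;> simp only [Zorn.mul_def, uni] <;> ring
      rcases OctLoop.sigma x u y e1 e2 with h | h | h
      · have := congrArg θ h
        rw [hu, hy, PaigeLoop.mk_eq_mk] at this
        rcases this with h3 | h3
        · have := congrArg Zorn.u1 h3
          simp only [uni] at this
          exact ha1 this.symm
        · have := congrArg Zorn.a h3
          simp only [uni, Zorn.neg_def] at this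
          exact h11 this
      · have := congrArg θ h
        rw [hθ, hθ1, hu, hy, PaigeLoop.mk_mul, PaigeLoop.mk_eq_mk] at this
        rcases this with h3 | h3
        · have := congrArg Zorn.u1 h3
          simp only [uni, Zorn.mul_def, dia] at this
          apply ha2; linear_combination -this
        · have := congrArg Zorn.a h3
          simp only [uni, Zorn.mul_def, Zorn.neg_def, dia] at this
          apply h11; linear_combination this
      · have := congrArg θ h
        rw [hθ, hθ1, hu, PaigeLoop.mk_mul, PaigeLoop.mk_eq_mk] at this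
        rcases this with h3 | h3
        · have := congrArg Zorn.u1 h3
          simp only [uni, Zorn.mul_def, dia] at this
          apply h2; linear_combination -this
        · have := congrArg Zorn.a h3
          simp only [uni, Zorn.mul_def, Zorn.neg_def, dia] at this
          apply h11; linear_combination this

end Latin

end Pool.Agent.H630R3
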